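import Pool.Agent.Lib.MP_a34d76_pr.Quad.PL

/-!
# Brunn–Minkowski for the sections of a convex body (MP_a34d76_pr)
-/

set_option autoImplicit false

open MeasureTheory Filter Topology Set
open scoped NNReal ENNReal Pointwise

namespace Pool.Agent.Lib.MP_a34d76_pr.Quad.BMC

theorem root_pow {m : ℕ} (hm : 1 ≤ m) {x : ℝ} (hx : 0 ≤ x) : (x ^ ((1 : ℝ) / m)) ^ m = x := by
  rw [one_div]
  exact Real.rpow_inv_natCast_pow hx (by omega)

theorem le_root {m : ℕ} (hm : 1 ≤ m) {x y : ℝ} (hx : 0 ≤ x) (h : x ^ m ≤ y) :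
    x ≤ y ^ ((1 : ℝ) / m) := by
  have : (x ^ m) ^ ((1 : ℝ) / m) = x := by
    rw [one_div]; exact Real.pow_rpow_inv_natCast hx (by omega)
  rw [← this]
  exact Real.rpow_le_rpow (by positivity) h (by positivity)

theorem vol_smul_add {m : ℕ} {a : ℝ} (ha : 0 ≤ a) (A : Set (Fin m → ℝ)) (z : Fin m → ℝ) :
    volume ((fun x => a • x + z) '' A) = ENNReal.ofReal (a ^ m) * volume A := by
  have h : (fun x => a • x + z) '' A = (fun x => x + z) '' (a • A) := by
    ext y
    simp only [Set.mem_image, Set.mem_smul_set, exists_exists_and_eq_and]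
  rw [h, Set.image_add_right, measure_preimage_add_right, Measure.addHaar_smul_of_nonneg _ ha]
  simp

/-- one of the two sets is degenerate -/
theorem bm_deg {m : ℕ} (hm : 1 ≤ m) {A Z : Set (Fin m → ℝ)} {a : ℝ} (ha : 0 ≤ a) (z : Fin m → ℝ)
    (hZf : volume Z ≠ ⊤) (h : ∀ x ∈ A, a • x + z ∈ Z) :
    a * (volume A).toReal ^ ((1 : ℝ) / m) ≤ (volume Z).toReal ^ ((1 : ℝ) / m) := by
  apply le_root hm (by positivity)
  rw [mul_pow, root_pow hm ENNReal.toReal_nonneg]
  have h1 : volume ((fun x => a • x + z) '' A) ≤ volume Z := by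
    apply measure_mono
    rintro _ ⟨x, hx, rfl⟩
    exact h x hx
  rw [vol_smul_add ha] at h1
  have h2 := ENNReal.toReal_mono hZf h1
  rwa [ENNReal.toReal_mul, ENNReal.toReal_ofReal (by positivity)] at h2

/-- Brunn–Minkowski -/
theorem bm {m : ℕ} (hm : 1 ≤ m) {A B Z : Set (Fin m → ℝ)} (hA : IsCompact A) (hB : IsCompact B)
    (hZ : IsCompact Z) (hAne : A.Nonempty) (hBne : B.Nonempty) {a b : ℝ} (ha : 0 < a) (hb : 0 < b)
    (h : ∀ x ∈ A, ∀ y ∈ B, a • x + b • y ∈ Z) :
    a * (volume A).toReal ^ ((1 : ℝ) / m) + b * (volume B).toReal ^ ((1 : ℝ) / m) ≤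
      (volume Z).toReal ^ ((1 : ℝ) / m) := by
  obtain ⟨x₀, hx₀⟩ := hAne
  obtain ⟨y₀, hy₀⟩ := hBne
  have hZf : volume Z ≠ ⊤ := hZ.measure_lt_top.ne
  set α : ℝ := (volume A).toReal ^ ((1 : ℝ) / m) with hα
  set β : ℝ := (volume B).toReal ^ ((1 : ℝ) / m) with hβ
  have hα0 : 0 ≤ α := by positivity
  have hβ0 : 0 ≤ β := by positivity
  rcases hα0.eq_or_lt with hα1 | hα1
  · rw [← hα1, mul_zero, zero_add]
    exact bm_deg hm hb.le (a • x₀) hZf fun y hy => by rw [add_comm]; exact h _ hx₀ _ hy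
  rcases hβ0.eq_or_lt with hβ1 | hβ1
  · rw [← hβ1, mul_zero, add_zero]
    exact bm_deg hm ha.le (b • y₀) hZf fun x hx => h _ hx _ hy₀
  set σ : ℝ := a * α + b * β with hσ
  have hσ0 : 0 < σ := by positivity
  have hαm : α ^ m = (volume A).toReal := root_pow hm ENNReal.toReal_nonneg
  have hβm : β ^ m = (volume B).toReal := root_pow hm ENNReal.toReal_nonneg
  have hAT : volume A ≠ ⊤ := hA.measure_lt_top.ne
  have hBT : volume B ≠ ⊤ := hB.measure_lt_top.ne
  set lam : ℝ := b * β / σ with hlam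
  have h0 : 0 < lam := by positivity
  have h1 : lam < 1 := by
    rw [hlam, div_lt_one hσ0, hσ]
    have : 0 < a * α := by positivity
    linarith
  have h1l : 1 - lam = a * α / σ := by
    rw [hlam, eq_div_iff hσ0.ne', sub_mul, div_mul_cancel₀ _ hσ0.ne', hσ]; ring
  have hcA : IsCompact (α⁻¹ • A) := hA.smul _
  have hcB : IsCompact (β⁻¹ • B) := hB.smul _
  have hcZ : IsCompact (σ⁻¹ • Z) := hZ.smul _
  obtain ⟨K, hK⟩ := (hcA.union hcB).isBounded.subset_closedBall (0 : Fin m → ℝ)
  have key := pl m h0 h1 (f := (α⁻¹ • A).indicator fun _ => 1) (g := (β⁻¹ • B).indicator fun _ => 1)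
    (h := (σ⁻¹ • Z).indicator fun _ => 1) (measurable_const.indicator hcA.measurableSet)
    (measurable_const.indicator hcB.measurableSet) (measurable_const.indicator hcZ.measurableSet)
    (M := 1) ENNReal.one_ne_top (Set.indicator_le_self' fun _ _ => zero_le)
    (Set.indicator_le_self' fun _ _ => zero_le) (K := K) ?_ ?_ ?_
  · rw [lintegral_indicator hcA.measurableSet, lintegral_indicator hcB.measurableSet,
      lintegral_indicator hcZ.measurableSet] at key
    simp only [lintegral_const, MeasurableSet.univ, Measure.restrict_apply, Set.univ_inter,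
      one_mul] at key
    have eA : volume (α⁻¹ • A) = 1 := by
      rw [Measure.addHaar_smul_of_nonneg _ (by positivity), ← ENNReal.ofReal_toReal hAT, ← hαm,
        ← ENNReal.ofReal_mul (by positivity)]
      simp [hα1.ne']
    have eB : volume (β⁻¹ • B) = 1 := by
      rw [Measure.addHaar_smul_of_nonneg _ (by positivity), ← ENNReal.ofReal_toReal hBT, ← hβm,
        ← ENNReal.ofReal_mul (by positivity)]
      simp [hβ1.ne']
    rw [eA, eB, ENNReal.one_rpow, ENNReal.one_rpow, one_mul,
      Measure.addHaar_smul_of_nonneg _ (by positivity), ← ENNReal.ofReal_toReal hZf,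
      ← ENNReal.ofReal_mul (by positivity), ENNReal.one_le_ofReal] at key
    apply le_root hm hσ0.le
    have e : (σ⁻¹ ^ Module.finrank ℝ (Fin m → ℝ)) = (σ ^ m)⁻¹ := by simp
    rw [e] at key
    have hσm : 0 < σ ^ m := by positivity
    calc σ ^ m = σ ^ m * 1 := (mul_one _).symm
      _ ≤ σ ^ m * ((σ ^ m)⁻¹ * (volume Z).toReal) := by gcongr
      _ = (volume Z).toReal := by rw [← mul_assoc, mul_inv_cancel₀ hσm.ne', one_mul]
  · intro x hx i
    have hx' : x ∈ α⁻¹ • A := by
      by_contra hn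
      exact hx (Set.indicator_of_notMem hn _)
    have := hK (Or.inl hx')
    rw [mem_closedBall_zero_iff] at this
    exact (norm_le_pi_norm x i).trans this
  · intro x hx i
    have hx' : x ∈ β⁻¹ • B := by
      by_contra hn
      exact hx (Set.indicator_of_notMem hn _)
    have := hK (Or.inr hx')
    rw [mem_closedBall_zero_iff] at this
    exact (norm_le_pi_norm x i).trans this
  · intro x y
    by_cases hx : x ∈ α⁻¹ • A
    · by_cases hy : y ∈ β⁻¹ • B
      · have hz : (1 - lam) • x + lam • y ∈ σ⁻¹ • Z := by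
          obtain ⟨x', hx', rfl⟩ := hx
          obtain ⟨y', hy', rfl⟩ := hy
          refine ⟨a • x' + b • y', h _ hx' _ hy', ?_⟩
          have e1 : (1 - lam) * α⁻¹ = σ⁻¹ * a := by rw [h1l]; field_simp
          have e2 : lam * β⁻¹ = σ⁻¹ * b := by rw [hlam]; field_simp
          simp only [smul_add, smul_smul, e1, e2]
        rw [Set.indicator_of_mem hz, Set.indicator_of_mem hx, Set.indicator_of_mem hy]
        simp
      · rw [Set.indicator_of_notMem hy, ENNReal.zero_rpow_of_pos h0, mul_zero]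
        exact zero_le
    · rw [Set.indicator_of_notMem hx, ENNReal.zero_rpow_of_pos (by linarith), zero_mul]
      exact zero_le

variable {m : ℕ} {C : Set (ℝ × (Fin m → ℝ))}

theorem sec_compact (hCc : IsCompact C) (t : ℝ) : IsCompact {y | (t, y) ∈ C} := by
  refine (hCc.image continuous_snd).of_isClosed_subset (hCc.isClosed.preimage (by fun_prop)) ?_
  intro y hy
  exact ⟨(t, y), hy, rfl⟩

theorem sec_usc (hCc : IsCompact C) (t₀ : ℝ) {r : ℝ≥0∞} (hr : volume {y | (t₀, y) ∈ C} < r) :
    ∀ᶠ t in 𝓝 t₀, volume {y | (t, y) ∈ C} < r := by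
  obtain ⟨U, hU, hUo, hUr⟩ := Set.exists_isOpen_lt_of_lt _ r hr
  have hc : IsCompact (Prod.fst '' (C ∩ {p | p.2 ∉ U})) := by
    refine IsCompact.image ?_ continuous_fst
    exact hCc.inter_right (hUo.isClosed_compl.preimage continuous_snd)
  have hn : t₀ ∉ Prod.fst '' (C ∩ {p | p.2 ∉ U}) := by
    rintro ⟨⟨t, y⟩, ⟨h1, h2⟩, h3⟩
    simp only at h3
    subst h3
    exact h2 (hU h1)
  filter_upwards [hc.isClosed.isOpen_compl.mem_nhds hn] with t ht
  refine lt_of_le_of_lt (measure_mono ?_) hUr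
  intro y hy
  by_contra hyU
  exact ht ⟨(t, y), ⟨hy, hyU⟩, rfl⟩

end Pool.Agent.Lib.MP_a34d76_pr.Quad.BMC

namespace Pool.Agent.Lib.MP_a34d76_pr.Quad

open BMC

/-- Brunn-Minkowski: sections of a convex body in `ℝ × ℝ^m` -/
theorem bmc {m : ℕ} (hm : 1 ≤ m) {C : Set (ℝ × (Fin m → ℝ))} (hC : Convex ℝ C)
    (hCc : IsCompact C) (h0 : volume C ≠ 0) :
    ∃ A B : ℝ, A < B ∧ Prod.fst '' C = Icc A B ∧
      ContinuousOn (fun t : ℝ => (volume {y | (t, y) ∈ C}).toReal ^ ((1 : ℝ) / m)) (Icc A B) ∧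
      ConcaveOn ℝ (Icc A B) (fun t : ℝ => (volume {y | (t, y) ∈ C}).toReal ^ ((1 : ℝ) / m)) := by
  have hne : C.Nonempty := by
    by_contra h
    rw [Set.not_nonempty_iff_eq_empty] at h
    simp [h] at h0
  have hconv : Convex ℝ (Prod.fst '' C) := hC.is_linear_image (f := Prod.fst) (LinearMap.fst ℝ ℝ _).isLinear
  have himg := eq_Icc_of_connected_compact (s := Prod.fst '' C)
    ⟨hne.image _, hconv.isPreconnected⟩ (hCc.image continuous_fst)
  set A := sInf (Prod.fst '' C) with hA
  set B := sSup (Prod.fst '' C) with hB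
  have hAB : A < B := by
    by_contra hn
    push Not at hn
    have hsub : C ⊆ {A} ×ˢ univ := by
      intro p hp
      have : p.1 ∈ Icc A B := himg ▸ ⟨p, hp, rfl⟩
      simp only [mem_prod, mem_singleton_iff, mem_univ, and_true]
      exact le_antisymm (this.2.trans hn) this.1
    apply h0
    refine measure_mono_null hsub ?_
    rw [Measure.volume_eq_prod, Measure.prod_prod]
    simp
  have hsne : ∀ t ∈ Icc A B, {y | (t, y) ∈ C}.Nonempty := by
    intro t ht
    rw [← himg] at ht
    obtain ⟨p, hp, rfl⟩ := ht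
    exact ⟨p.2, hp⟩
  have hconc : ConcaveOn ℝ (Icc A B)
      (fun t : ℝ => (volume {y | (t, y) ∈ C}).toReal ^ ((1 : ℝ) / m)) := by
    refine ⟨convex_Icc A B, ?_⟩
    intro s hs t ht a b ha hb hab
    simp only [smul_eq_mul]
    rcases ha.eq_or_lt with ha | ha
    · subst ha
      rw [zero_add] at hab
      subst hab
      simp
    rcases hb.eq_or_lt with hb | hb
    · subst hb
      rw [add_zero] at hab
      subst hab
      simp
    refine bm hm (sec_compact hCc s) (sec_compact hCc t) (sec_compact hCc _) (hsne s hs) (hsne t ht)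
      ha hb ?_
    intro x hx y hy
    exact hC hx hy ha.le hb.le hab
  refine ⟨A, B, hAB, himg, ?_, hconc⟩
  intro t₀ ht₀
  set φ := fun t : ℝ => (volume {y | (t, y) ∈ C}).toReal ^ ((1 : ℝ) / m) with hφ
  have hφ0 : ∀ t, 0 ≤ φ t := fun t => by simp only [hφ]; positivity
  refine tendsto_order.2 ⟨fun c hc => ?_, fun c hc => ?_⟩
  · -- lower semicontinuity from concavity
    obtain ⟨δ, hδ, h1, h2⟩ : ∃ δ > 0, (t₀ < B → δ ≤ B - t₀) ∧ (A < t₀ → δ ≤ t₀ - A) := by
      rcases eq_or_lt_of_le ht₀.1 with h | h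
      · exact ⟨B - A, by linarith, fun _ => by linarith, fun h' => by linarith⟩
      · rcases eq_or_lt_of_le ht₀.2 with h' | h'
        · exact ⟨B - A, by linarith, fun h'' => by linarith, fun _ => by linarith⟩
        · exact ⟨min (B - t₀) (t₀ - A), lt_min (by linarith) (by linarith), fun _ => min_le_left _ _,
            fun _ => min_le_right _ _⟩
    have hlow : ∀ t ∈ Icc A B, φ t₀ * (1 - |t - t₀| / δ) ≤ φ t := by
      have haux : ∀ (E t : ℝ), E ∈ Icc A B → ∀ θ, 0 ≤ θ → θ ≤ 1 → t = (1 - θ) * t₀ + θ * E →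
          φ t₀ * (1 - θ) ≤ φ t := by
        intro E t hE θ h0 h1 ht
        have := hconc.2 ht₀ hE (by linarith : 0 ≤ 1 - θ) h0 (by ring)
        simp only [smul_eq_mul] at this
        rw [← ht] at this
        have h3 := hφ0 E
        have h4 : 0 ≤ θ * φ E := mul_nonneg h0 h3
        simp only [hφ] at h4 ⊢
        linarith
      intro t ht
      rcases lt_trichotomy t t₀ with htt | htt | htt
      · have hA' : A < t₀ := lt_of_le_of_lt ht.1 htt
        have hd : 0 < t₀ - A := by linarith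
        have := haux A t ⟨le_refl _, hAB.le⟩ ((t₀ - t) / (t₀ - A)) (by apply div_nonneg <;> linarith)
          (by rw [div_le_one hd]; linarith [ht.1]) (by field_simp; ring)
        refine le_trans (mul_le_mul_of_nonneg_left ?_ (hφ0 _)) this
        have : (t₀ - t) / (t₀ - A) ≤ |t - t₀| / δ := by
          rw [abs_sub_comm, abs_of_pos (by linarith)]
          exact div_le_div_of_nonneg_left (by linarith) hδ (h2 hA')
        linarith
      · subst htt; simp
      · have hB' : t₀ < B := lt_of_lt_of_le htt ht.2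
        have hd : 0 < B - t₀ := by linarith
        have := haux B t ⟨hAB.le, le_refl _⟩ ((t - t₀) / (B - t₀)) (by apply div_nonneg <;> linarith)
          (by rw [div_le_one hd]; linarith [ht.2]) (by field_simp; ring)
        refine le_trans (mul_le_mul_of_nonneg_left ?_ (hφ0 _)) this
        have : (t - t₀) / (B - t₀) ≤ |t - t₀| / δ := by
          rw [abs_of_pos (by linarith)]
          exact div_le_div_of_nonneg_left (by linarith) hδ (h1 hB')
        linarith
    have hlim : Tendsto (fun t => φ t₀ * (1 - |t - t₀| / δ)) (𝓝[Icc A B] t₀) (𝓝 (φ t₀)) := by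
      have : Tendsto (fun t => φ t₀ * (1 - |t - t₀| / δ)) (𝓝 t₀) (𝓝 (φ t₀ * (1 - |t₀ - t₀| / δ))) := by
        apply Continuous.tendsto
        fun_prop
      simp only [sub_self, abs_zero, zero_div, sub_zero, mul_one] at this
      exact this.mono_left nhdsWithin_le_nhds
    filter_upwards [hlim.eventually_const_lt hc, self_mem_nhdsWithin] with t h3 h4
    exact h3.trans_le (hlow t h4)
  · -- upper semicontinuity from compactness
    have hc0 : 0 < c := lt_of_le_of_lt (hφ0 _) hc
    have hlt : volume {y | (t₀, y) ∈ C} < ENNReal.ofReal (c ^ m) := by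
      rw [← ENNReal.ofReal_toReal (sec_compact hCc t₀).measure_lt_top.ne, ENNReal.ofReal_lt_ofReal_iff (by positivity),
        ← root_pow hm (ENNReal.toReal_nonneg (a := volume {y | (t₀, y) ∈ C}))]
      exact pow_lt_pow_left₀ hc (hφ0 _) (by omega)
    have := sec_usc hCc t₀ hlt
    refine nhdsWithin_le_nhds ?_
    filter_upwards [this] with t ht
    have h5 : (volume {y | (t, y) ∈ C}).toReal < c ^ m := by
      rw [← ENNReal.ofReal_toReal (sec_compact hCc t).measure_lt_top.ne, ENNReal.ofReal_lt_ofReal_iff (by positivity)] at ht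
      exact ht
    rw [← root_pow hm (ENNReal.toReal_nonneg (a := volume {y | (t, y) ∈ C}))] at h5
    exact lt_of_pow_lt_pow_left₀ m hc0.le h5

end Pool.Agent.Lib.MP_a34d76_pr.Quad
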