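import Pool.Agent.Lib.MP_a34d76_pr.Quad.Defs

set_option autoImplicit false

open MeasureTheory Filter Topology Set
open scoped NNReal ENNReal

namespace Pool.Agent.Lib.MP_a34d76_pr.Quad

variable {d : ℕ} {R : ℝ}

/-- two points of a convex set with `z` strictly between them are in the face of `z` -/
theorem Bary.sub_mem_of_openSegment {F : Type*} [AddCommGroup F] [Module ℝ F] {G : Set F}
    (hG : Convex ℝ G) {z b₁ b₂ : F} {W : Submodule ℝ F}
    (hW : ∀ v, z + v ∈ G → z - v ∈ G → v ∈ W) (h1 : b₁ ∈ G) (h2 : b₂ ∈ G)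
    (hz : z ∈ openSegment ℝ b₁ b₂) : b₁ - z ∈ W := by
  obtain ⟨a, b, ha, hb, hab, rfl⟩ := hz
  set ε := min a b with hε
  have hε0 : 0 < ε := lt_min ha hb
  have hεa : ε ≤ a := min_le_left _ _
  have hεb : ε ≤ b := min_le_right _ _
  have hm : ε • (b₁ - b₂) ∈ W := by
    apply hW
    · have := hG h1 h2 (a := a + ε) (b := b - ε) (by linarith) (by linarith) (by linarith)
      convert this using 1
      rw [add_smul, sub_smul, smul_sub]
      abel
    · have := hG h1 h2 (a := a - ε) (b := b + ε) (by linarith) (by linarith) (by linarith)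
      convert this using 1
      rw [add_smul, sub_smul, smul_sub]
      abel
  have hm' : b₁ - b₂ ∈ W := (Submodule.smul_mem_iff _ hε0.ne').mp hm
  have : b₁ - (a • b₁ + b • b₂) = b • (b₁ - b₂) := by
    have hb1 : b₁ = a • b₁ + b • b₁ := by rw [← add_smul, hab, one_smul]
    nth_rewrite 1 [hb1]
    rw [smul_sub]
    abel
  rw [this]
  exact W.smul_mem _ hm'

theorem bary {G : Set (E d)} (hG : Convex ℝ G) (hGc : IsCompact G) (ξ : Measure (E d))
    [IsProbabilityMeasure ξ] (hξ : ∀ᵐ x ∂ξ, x ∈ G) {z : E d} {W : Submodule ℝ (E d)}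
    (hW : ∀ v, z + v ∈ G → z - v ∈ G → v ∈ W) (hz : ∫ x, x ∂ξ = z) : ∀ᵐ x ∂ξ, x - z ∈ W := by
  have hWc : IsClosed (W : Set (E d)) := W.closed_of_finiteDimensional
  obtain ⟨C, hC⟩ := hGc.isBounded.exists_norm_le
  have hint : Integrable (fun x : E d => x) ξ := by
    refine Integrable.of_bound measurable_id.aestronglyMeasurable C ?_
    filter_upwards [hξ] with x hx using hC x hx
  have hsupp : ξ.support ∈ ae ξ := Measure.support_mem_ae
  filter_upwards [hsupp] with x hx
  -- points of `z + W` arbitrarily close to `x`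
  have key : ∀ r : ℝ, 0 < r → ∃ b, dist b x ≤ r ∧ b - z ∈ W := by
    intro r hr
    have hB : 0 < ξ (Metric.closedBall x r) :=
      (Measure.mem_support_iff_forall x).mp hx _ (Metric.closedBall_mem_nhds x hr)
    set B := Metric.closedBall x r with hBdef
    have hBm : MeasurableSet B := Metric.isClosed_closedBall.measurableSet
    have hb1B : (⨍ y in B, y ∂ξ) ∈ B :=
      (convex_closedBall x r).set_average_mem Metric.isClosed_closedBall hB.ne' (measure_ne_top _ _)
        (ae_restrict_mem hBm) hint.integrableOn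
    have hb1G : (⨍ y in B, y ∂ξ) ∈ G :=
      hG.set_average_mem hGc.isClosed hB.ne' (measure_ne_top _ _)
        (ae_restrict_of_ae hξ) hint.integrableOn
    refine ⟨⨍ y in B, y ∂ξ, hb1B, ?_⟩
    have hav : ⨍ y, y ∂ξ = z := by rw [average_eq_integral, hz]
    by_cases hc : ξ Bᶜ = 0
    · have hae : ∀ᵐ y ∂ξ, y ∈ B := by
        rw [ae_iff]; exact hc
      have : (⨍ y in B, y ∂ξ) = z := by
        rw [Measure.restrict_eq_self_of_ae_mem hae, hav]
      rw [this, sub_self]
      exact W.zero_mem
    · have hb2G : (⨍ y in Bᶜ, y ∂ξ) ∈ G :=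
        hG.set_average_mem hGc.isClosed hc (measure_ne_top _ _)
          (ae_restrict_of_ae hξ) hint.integrableOn
      have hseg := average_mem_openSegment_compl_self (f := fun y : E d => y)
        hBm.nullMeasurableSet hB.ne' hc hint
      rw [hav] at hseg
      exact Bary.sub_mem_of_openSegment hG hW hb1G hb2G hseg
  have hcl : x - z ∈ closure (W : Set (E d)) := by
    rw [Metric.mem_closure_iff]
    intro ε hε
    obtain ⟨b, hb, hbW⟩ := key (ε / 2) (by linarith)
    refine ⟨b - z, hbW, ?_⟩
    rw [dist_sub_right, dist_comm]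
    linarith
  rwa [hWc.closure_eq] at hcl

end Pool.Agent.Lib.MP_a34d76_pr.Quad
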