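import Pool.Agent.Lib.MP_a34d76_pr.Quad.Defs

/-!
# CAP1: caps of one convex body
-/

set_option autoImplicit false

open MeasureTheory Filter Topology Set
open scoped NNReal ENNReal

namespace Pool.Agent.Lib.MP_a34d76_pr.Quad

variable {d : ℕ} {R : ℝ}

namespace Cap1

/-- the objective function -/
noncomputable def Psi (m : Measure (E d)) (t : ℝ) (u : E d) (c : ℝ) : ℝ :=
  c + (1 / t) * ∫ x, max (inner ℝ u x - c) 0 ∂m

lemma integrable_of_bdd {m : Measure (E d)} [IsFiniteMeasure m]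
    (hm : ∀ᵐ x ∂m, x ∈ Metric.closedBall (0 : E d) R) {f : E d → ℝ} (hf : Continuous f) :
    Integrable f m := by
  obtain ⟨K, hK⟩ := (isCompact_closedBall (0 : E d) R).exists_bound_of_continuousOn
    (f := f) hf.continuousOn
  refine Integrable.of_bound hf.aestronglyMeasurable K ?_
  filter_upwards [hm] with x hx using hK x hx

lemma int_psi {m : Measure (E d)} [IsFiniteMeasure m]
    (hm : ∀ᵐ x ∂m, x ∈ Metric.closedBall (0 : E d) R) (u : E d) (c : ℝ) :
    Integrable (fun x : E d => max (inner ℝ u x - c) 0) m :=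
  integrable_of_bdd hm (by fun_prop)

lemma psi_nonneg_part {m : Measure (E d)} {t : ℝ} (ht : 0 < t) (u : E d) (c : ℝ) :
    c ≤ Psi m t u c := by
  unfold Psi
  have : 0 ≤ ∫ x, max (inner ℝ u x - c) 0 ∂m := integral_nonneg (fun x => le_max_right _ _)
  have h2 : 0 ≤ (1 / t) * ∫ x, max (inner ℝ u x - c) 0 ∂m := by positivity
  linarith

/-- if a set of mass at least `t` lies in `{a ≤ <u, x>}` then `Psi ≥ a` -/
lemma psi_ge {m : Measure (E d)} [IsFiniteMeasure m]
    (hm : ∀ᵐ x ∂m, x ∈ Metric.closedBall (0 : E d) R) {t : ℝ} (ht : 0 < t) (u : E d) (c a : ℝ)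
    {B : Set (E d)} (hB : MeasurableSet B) (hBt : ENNReal.ofReal t < m B)
    (hBa : ∀ x ∈ B, a ≤ inner ℝ u x) : a ≤ Psi m t u c := by
  rcases le_or_gt a c with h | h
  · exact h.trans (psi_nonneg_part ht u c)
  have h1 : ∫ x in B, (a - c) ∂m ≤ ∫ x, max (inner ℝ u x - c) 0 ∂m := by
    calc ∫ x in B, (a - c) ∂m ≤ ∫ x in B, max (inner ℝ u x - c) 0 ∂m := by
          refine setIntegral_mono_on (integrableOn_const (measure_ne_top _ _))
            (int_psi hm u c).integrableOn hB ?_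
          intro x hx
          have := hBa x hx
          exact le_max_of_le_left (by linarith)
      _ ≤ ∫ x, max (inner ℝ u x - c) 0 ∂m :=
          setIntegral_le_integral (int_psi hm u c) (Eventually.of_forall fun x => le_max_right _ _)
  have h2 : t ≤ m.real B := by
    rw [Measure.real]
    exact (ENNReal.ofReal_le_iff_le_toReal (measure_ne_top _ _)).1 hBt.le
  rw [setIntegral_const, smul_eq_mul] at h1
  have h3 : t * (a - c) ≤ ∫ x, max (inner ℝ u x - c) 0 ∂m :=
    (mul_le_mul_of_nonneg_right h2 (by linarith)).trans h1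
  unfold Psi
  have h4 : (1 / t) * (t * (a - c)) ≤ (1 / t) * ∫ x, max (inner ℝ u x - c) 0 ∂m :=
    mul_le_mul_of_nonneg_left h3 (by positivity)
  have h5 : (1 / t) * (t * (a - c)) = a - c := by field_simp
  linarith

lemma psi_ge_lin {m : Measure (E d)} [IsProbabilityMeasure m]
    (hm : ∀ᵐ x ∂m, x ∈ Metric.closedBall (0 : E d) R) {t : ℝ} (ht : 0 < t) (u : E d) (c : ℝ) :
    c - (1 / t) * (‖u‖ * R + c) ≤ Psi m t u c := by
  have h1 : ∫ x, (-(‖u‖ * R + c)) ∂m ≤ ∫ x, max (inner ℝ u x - c) 0 ∂m := by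
    refine integral_mono_ae (integrable_const _) (int_psi hm u c) ?_
    filter_upwards [hm] with x hx
    have h2 : ‖x‖ ≤ R := by simpa using hx
    have h3 : |inner ℝ u x| ≤ ‖u‖ * ‖x‖ := abs_real_inner_le_norm u x
    have h4 : ‖u‖ * ‖x‖ ≤ ‖u‖ * R := mul_le_mul_of_nonneg_left h2 (norm_nonneg _)
    have h5 := (abs_le.1 h3).1
    exact le_max_of_le_left (by linarith)
  rw [integral_const, smul_eq_mul] at h1
  simp only [probReal_univ, one_mul] at h1
  unfold Psi
  have h4 : (1 / t) * (-(‖u‖ * R + c)) ≤ (1 / t) * ∫ x, max (inner ℝ u x - c) 0 ∂m :=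
    mul_le_mul_of_nonneg_left h1 (by positivity)
  linarith

lemma psi_continuous {m : Measure (E d)} [IsProbabilityMeasure m]
    (hm : ∀ᵐ x ∂m, x ∈ Metric.closedBall (0 : E d) R) (t : ℝ) :
    Continuous (fun p : E d × ℝ => Psi m t p.1 p.2) := by
  unfold Psi
  refine continuous_snd.add (continuous_const.mul ?_)
  rw [continuous_iff_continuousAt]
  intro p
  refine continuousAt_of_dominated (bound := fun _ => (‖p.1‖ + 1) * |R| + (|p.2| + 1)) ?_ ?_ ?_ ?_
  · refine Eventually.of_forall (fun q => ?_)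
    exact (Continuous.aestronglyMeasurable (by fun_prop))
  · have h1 : ∀ᶠ q : E d × ℝ in 𝓝 p, ‖q.1‖ < ‖p.1‖ + 1 :=
      (continuous_fst.norm.tendsto p).eventually_lt_const (by linarith)
    have h2 : ∀ᶠ q : E d × ℝ in 𝓝 p, |q.2| < |p.2| + 1 :=
      (continuous_snd.abs.tendsto p).eventually_lt_const (by linarith)
    filter_upwards [h1, h2] with q hq1 hq2
    filter_upwards [hm] with x hx
    have hx2 : ‖x‖ ≤ |R| := (by simpa using hx : ‖x‖ ≤ R).trans (le_abs_self _)
    have h3 : |inner ℝ q.1 x| ≤ ‖q.1‖ * ‖x‖ := abs_real_inner_le_norm _ _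
    have h4 : ‖q.1‖ * ‖x‖ ≤ (‖p.1‖ + 1) * |R| := mul_le_mul hq1.le hx2 (norm_nonneg _) (by positivity)
    rw [Real.norm_eq_abs, abs_of_nonneg (le_max_right _ _)]
    refine max_le ?_ (by positivity)
    have h5 := (abs_le.1 h3).2
    have h6 := neg_abs_le q.2
    linarith
  · exact integrable_const _
  · refine Eventually.of_forall (fun x => ?_)
    exact Continuous.continuousAt (by fun_prop)

/-- a minimiser of `Psi` -/
lemma exists_min {m : Measure (E d)} [IsProbabilityMeasure m]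
    (hm : ∀ᵐ x ∂m, x ∈ Metric.closedBall (0 : E d) R) (V : Submodule ℝ (E d)) {z : E d}
    (hz : z ∈ V) (hz0 : z ≠ 0) {t ρ : ℝ} (hρ : 0 < ρ) (ht0 : 0 < t) (ht1 : t < 1)
    (hlow : ∀ u ∈ V, ∀ c, ρ / 2 * ‖u‖ ≤ Psi m t u c) :
    ∃ u ∈ V, inner ℝ u z = 1 ∧ ∃ c : ℝ, ∀ u' ∈ V, inner ℝ u' z = 1 → ∀ c' : ℝ,
      Psi m t u c ≤ Psi m t u' c' := by
  have hR0 : 0 ≤ R := by
    by_contra hcon
    push Not at hcon
    have h1 : ∀ᵐ x ∂m, False := by
      filter_upwards [hm] with x hx
      rw [Metric.closedBall_eq_empty.2 hcon] at hx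
      exact hx
    rw [Filter.eventually_false_iff_eq_bot, ae_eq_bot] at h1
    exact (IsProbabilityMeasure.ne_zero m) h1
  have hzz : (0 : ℝ) < ‖z‖ ^ 2 := by positivity
  set u₁ : E d := (1 / ‖z‖ ^ 2) • z with hu₁
  have hu₁V : u₁ ∈ V := V.smul_mem _ hz
  have hu₁z : inner ℝ u₁ z = 1 := by
    rw [hu₁, real_inner_smul_left, real_inner_self_eq_norm_sq]
    field_simp
  set P := Psi m t u₁ 0 with hP
  have hP0 : 0 ≤ P := psi_nonneg_part ht0 u₁ 0
  have hpos : 0 < 1 - t := by linarith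
  set B₁ : ℝ := 2 * P / ρ with hB₁
  have hB₁0 : 0 ≤ B₁ := by positivity
  set B₂ : ℝ := (B₁ * R + t * P) / (1 - t) with hB₂
  have hB₂0 : 0 ≤ B₂ := by positivity
  have hbound : ∀ u ∈ V, ∀ c, Psi m t u c ≤ P → ‖u‖ ≤ B₁ ∧ -B₂ ≤ c ∧ c ≤ P := by
    intro u hu c h
    have h1 : ρ / 2 * ‖u‖ ≤ P := (hlow u hu c).trans h
    have h2 : ‖u‖ ≤ B₁ := by
      rw [hB₁, le_div_iff₀ hρ]
      linarith
    refine ⟨h2, ?_, (psi_nonneg_part ht0 u c).trans h⟩
    have h3 := (psi_ge_lin hm ht0 u c).trans h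
    have h4 : t * (c - (1 / t) * (‖u‖ * R + c)) ≤ t * P := mul_le_mul_of_nonneg_left h3 ht0.le
    have h5 : t * (c - (1 / t) * (‖u‖ * R + c)) = t * c - (‖u‖ * R + c) := by field_simp
    have h6 : ‖u‖ * R ≤ B₁ * R := mul_le_mul_of_nonneg_right h2 hR0
    have h7 : -c * (1 - t) ≤ B₁ * R + t * P := by nlinarith
    have h8 : -c ≤ B₂ := by
      rw [hB₂, le_div_iff₀ hpos]
      exact h7
    linarith
  set K : Set (E d × ℝ) := {p | p.1 ∈ V ∧ inner ℝ p.1 z = 1 ∧ ‖p.1‖ ≤ B₁ ∧ -B₂ ≤ p.2 ∧ p.2 ≤ P}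
    with hK
  have hKc : IsCompact K := by
    refine (((isCompact_closedBall (0 : E d) B₁).prod (isCompact_Icc (a := -B₂) (b := P)))).of_isClosed_subset
      ?_ ?_
    · have e : K = {p : E d × ℝ | p.1 ∈ V} ∩ ({p | inner ℝ p.1 z = 1} ∩ ({p | ‖p.1‖ ≤ B₁} ∩
          ({p | -B₂ ≤ p.2} ∩ {p | p.2 ≤ P}))) := by
        ext p
        simp only [hK, mem_ofPred_eq, mem_inter_iff]
      rw [e]
      refine IsClosed.inter ?_ (IsClosed.inter ?_ (IsClosed.inter ?_ (IsClosed.inter ?_ ?_)))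
      · exact (Submodule.closed_of_finiteDimensional V).preimage continuous_fst
      · exact isClosed_eq (by fun_prop) continuous_const
      · exact isClosed_le (by fun_prop) continuous_const
      · exact isClosed_le continuous_const continuous_snd
      · exact isClosed_le continuous_snd continuous_const
    · rintro p ⟨-, -, h3, h4, h5⟩
      exact ⟨by simpa using h3, h4, h5⟩
  have hKne : ((u₁, (0 : ℝ)) : E d × ℝ) ∈ K := by
    obtain ⟨h1, h2, h3⟩ := hbound u₁ hu₁V 0 le_rfl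
    exact ⟨hu₁V, hu₁z, h1, h2, h3⟩
  obtain ⟨p, hpK, hpmin⟩ := hKc.exists_isMinOn ⟨_, hKne⟩ (psi_continuous hm t).continuousOn
  refine ⟨p.1, hpK.1, hpK.2.1, p.2, ?_⟩
  intro u' hu' hu'z c'
  have hpP : Psi m t p.1 p.2 ≤ P := hpmin hKne
  rcases le_or_gt (Psi m t u' c') P with h | h
  · obtain ⟨h1, h2, h3⟩ := hbound u' hu' c' h
    exact hpmin (show ((u', c') : E d × ℝ) ∈ K from ⟨hu', hu'z, h1, h2, h3⟩)
  · exact hpP.trans h.le

/-- stationarity -/
lemma stationary {m : Measure (E d)} [IsProbabilityMeasure m]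
    (hm : ∀ᵐ x ∂m, x ∈ Metric.closedBall (0 : E d) R) {t : ℝ} (ht0 : 0 < t)
    {u v : E d} {c b : ℝ} (hnull : m {x | inner ℝ u x = c} = 0)
    (hmin : ∀ h : ℝ, Psi m t u c ≤ Psi m t (u + h • v) (c + h * b)) :
    ∫ x in {x | c < inner ℝ u x}, (inner ℝ v x - b) ∂m = -(t * b) := by
  have hg : Integrable (fun x : E d => |inner ℝ v x - b|) m := integrable_of_bdd hm (by fun_prop)
  have hS : MeasurableSet {x : E d | c < inner ℝ u x} :=
    measurableSet_lt measurable_const (Continuous.measurable (by fun_prop))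
  have key : HasDerivAt (fun h : ℝ => ∫ x, max (inner ℝ (u + h • v) x - (c + h * b)) 0 ∂m)
      (∫ x, ({x | c < inner ℝ u x} : Set (E d)).indicator (fun x => inner ℝ v x - b) x ∂m) 0 := by
    refine (hasDerivAt_integral_of_dominated_loc_of_lip (μ := m) (s := univ)
      (bound := fun x : E d => |inner ℝ v x - b|) (x₀ := (0 : ℝ))
      (F := fun h x => max (inner ℝ (u + h • v) x - (c + h * b)) 0)
      (F' := ({x | c < inner ℝ u x} : Set (E d)).indicator (fun x => inner ℝ v x - b))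
      univ_mem ?_ ?_ ?_ ?_ hg ?_).2
    · exact Eventually.of_forall fun h => Continuous.aestronglyMeasurable (by fun_prop)
    · exact integrable_of_bdd hm (by fun_prop)
    · refine AEStronglyMeasurable.indicator ?_ hS
      exact Continuous.aestronglyMeasurable (by fun_prop)
    · refine Eventually.of_forall fun x => ?_
      refine LipschitzOnWith.of_dist_le_mul ?_
      intro h₁ _ h₂ _
      rw [Real.dist_eq, Real.dist_eq]
      have h3 : |max (inner ℝ (u + h₁ • v) x - (c + h₁ * b)) 0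
          - max (inner ℝ (u + h₂ • v) x - (c + h₂ * b)) 0| ≤
          |(inner ℝ (u + h₁ • v) x - (c + h₁ * b)) - (inner ℝ (u + h₂ • v) x - (c + h₂ * b))| :=
        abs_max_sub_max_le_abs _ _ _
      refine h3.trans (le_of_eq ?_)
      rw [inner_add_left, inner_add_left, real_inner_smul_left, real_inner_smul_left]
      have h4 : (inner ℝ u x + h₁ * inner ℝ v x - (c + h₁ * b)) -
          (inner ℝ u x + h₂ * inner ℝ v x - (c + h₂ * b)) = (inner ℝ v x - b) * (h₁ - h₂) := by ring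
      rw [h4, abs_mul]
      simp
    · have h0 : ∀ᵐ x ∂m, inner ℝ u x ≠ c := by
        rw [ae_iff]
        simpa using hnull
      filter_upwards [h0] with x hx
      rcases lt_or_gt_of_ne hx with h | h
      · -- negative: the function is locally zero
        rw [indicator_of_notMem (by simp only [mem_ofPred_eq, not_lt]; exact h.le)]
        have hc : ContinuousAt (fun h : ℝ => inner ℝ (u + h • v) x - (c + h * b)) 0 :=
          Continuous.continuousAt (by fun_prop)
        have hev : ∀ᶠ h : ℝ in 𝓝 0, inner ℝ (u + h • v) x - (c + h * b) < 0 := by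
          refine hc.eventually_lt_const ?_
          simp only [zero_smul, add_zero, zero_mul]
          linarith
        refine (hasDerivAt_const (0 : ℝ) (0 : ℝ)).congr_of_eventuallyEq ?_
        filter_upwards [hev] with h hh
        exact max_eq_right hh.le
      · rw [indicator_of_mem (by simpa using h)]
        have hc : ContinuousAt (fun h : ℝ => inner ℝ (u + h • v) x - (c + h * b)) 0 :=
          Continuous.continuousAt (by fun_prop)
        have hev : ∀ᶠ h : ℝ in 𝓝 0, 0 < inner ℝ (u + h • v) x - (c + h * b) := by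
          refine hc.eventually_const_lt ?_
          simp only [zero_smul, add_zero, zero_mul]
          linarith
        have hd : HasDerivAt (fun h : ℝ => (inner ℝ u x - c) + h * (inner ℝ v x - b))
            (1 * (inner ℝ v x - b)) 0 := ((hasDerivAt_id (0 : ℝ)).mul_const _).const_add _
        rw [one_mul] at hd
        refine hd.congr_of_eventuallyEq ?_
        filter_upwards [hev] with h hh
        rw [max_eq_left hh.le, inner_add_left, real_inner_smul_left]
        ring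
  have key2 : HasDerivAt (fun h : ℝ => Psi m t (u + h • v) (c + h * b))
      (b + (1 / t) * ∫ x, ({x | c < inner ℝ u x} : Set (E d)).indicator
        (fun x => inner ℝ v x - b) x ∂m) 0 := by
    unfold Psi
    refine HasDerivAt.add ?_ (key.const_mul _)
    have := ((hasDerivAt_id (0 : ℝ)).mul_const b).const_add c
    simpa using this
  have hloc : IsLocalMin (fun h : ℝ => Psi m t (u + h • v) (c + h * b)) 0 := by
    refine Eventually.of_forall fun h => ?_
    simpa using hmin h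
  have h0 := hloc.hasDerivAt_eq_zero key2
  rw [integral_indicator hS] at h0
  field_simp at h0
  linarith

lemma hyperplane_null {u : E d} (hu : u ≠ 0) (c : ℝ) :
    volume {x : E d | inner ℝ u x = c} = 0 := by
  have hnn : ‖u‖ ^ 2 ≠ 0 := by positivity
  set x₀ : E d := (c / ‖u‖ ^ 2) • u
  have hx₀ : inner ℝ u x₀ = c := by
    simp only [x₀]
    rw [real_inner_smul_right, real_inner_self_eq_norm_sq]
    field_simp
  set s : AffineSubspace ℝ (E d) := AffineSubspace.mk' x₀ (LinearMap.ker (innerₗ (E d) u))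
  have hs : s ≠ ⊤ := by
    intro h
    have h1 : x₀ + u ∈ s := by rw [h]; trivial
    rw [AffineSubspace.mem_mk'] at h1
    simp only [vsub_eq_sub, add_sub_cancel_left, LinearMap.mem_ker, innerₗ_apply_apply] at h1
    rw [real_inner_self_eq_norm_sq] at h1
    exact hnn h1
  have h2 := Measure.addHaar_affineSubspace (volume : Measure (E d)) s hs
  refine measure_mono_null ?_ h2
  intro x hx
  simp only [mem_ofPred_eq] at hx
  simp only [s, SetLike.mem_coe, AffineSubspace.mem_mk', vsub_eq_sub, LinearMap.mem_ker,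
    innerₗ_apply_apply, inner_sub_right]
  rw [hx, hx₀, sub_self]

/-- the abstract cap lemma -/
lemma abstract_cap {m : Measure (E d)} [IsProbabilityMeasure m]
    (hm : ∀ᵐ x ∂m, x ∈ Metric.closedBall (0 : E d) R)
    (hnull : ∀ u : E d, u ≠ 0 → ∀ c : ℝ, m {x | inner ℝ u x = c} = 0)
    (V : Submodule ℝ (E d)) {z : E d}
    (hz : z ∈ V) (hz0 : z ≠ 0) {ι : Type} [Fintype ι] (s : ι → E d) {ρ δ t : ℝ} (hρ : 0 < ρ)
    (hδ : 0 < δ) (hδρ : δ ≤ ρ / 2) (ht0 : 0 < t) (ht1 : t < 1)
    (hs1 : ∀ u ∈ V, ∃ l, ρ * ‖u‖ ≤ inner ℝ u (s l))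
    (hs2 : ∀ u ∈ V, inner ℝ u z = 1 → ∃ l, 1 ≤ inner ℝ u (s l))
    (hs3 : ∀ l, ENNReal.ofReal t < m (Metric.ball (s l) δ)) :
    ∃ u : E d, u ≠ 0 ∧ ∃ c lam : ℝ, m {x | c < inner ℝ u x} = ENNReal.ofReal t ∧ 0 ≤ lam ∧
      (∀ v ∈ V, ∫ x in {x | c < inner ℝ u x}, inner ℝ v x ∂m = t * (lam * inner ℝ v z)) ∧
      1 - 2 * δ / ρ * lam ≤ lam ∧
        ∀ u₀ ∈ V, inner ℝ u₀ z = 1 → lam ≤ 1 + (1 / t) * ∫ x, max (inner ℝ u₀ x - 1) 0 ∂m := by
  have hball : ∀ (u : E d) (l : ι), ∀ x ∈ Metric.ball (s l) δ,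
      inner ℝ u (s l) - δ * ‖u‖ ≤ inner ℝ u x := by
    intro u l x hx
    have h1 : ‖x - s l‖ < δ := by rwa [mem_ball_iff_norm] at hx
    have h2 : |inner ℝ u (x - s l)| ≤ ‖u‖ * ‖x - s l‖ := abs_real_inner_le_norm _ _
    have h3 : ‖u‖ * ‖x - s l‖ ≤ ‖u‖ * δ := mul_le_mul_of_nonneg_left h1.le (norm_nonneg _)
    rw [inner_sub_right] at h2
    have h4 := (abs_le.1 h2).1
    linarith
  have hlow : ∀ u ∈ V, ∀ c, ρ / 2 * ‖u‖ ≤ Psi m t u c := by
    intro u hu c
    obtain ⟨l, hl⟩ := hs1 u hu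
    refine psi_ge hm ht0 u c _ measurableSet_ball (hs3 l) ?_
    intro x hx
    have h1 := hball u l x hx
    have h2 : δ * ‖u‖ ≤ ρ / 2 * ‖u‖ := mul_le_mul_of_nonneg_right hδρ (norm_nonneg _)
    linarith
  obtain ⟨u, huV, huz, c, hmin⟩ := exists_min hm V hz hz0 hρ ht0 ht1 hlow
  have hu0 : u ≠ 0 := by
    rintro rfl
    simp at huz
  set S : Set (E d) := {x | c < inner ℝ u x} with hSdef
  have hS : MeasurableSet S :=
    measurableSet_lt measurable_const (Continuous.measurable (by fun_prop))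
  have hst : ∀ v ∈ V, inner ℝ v z = 0 → ∀ b : ℝ,
      ∫ x in S, (inner ℝ v x - b) ∂m = -(t * b) := by
    intro v hv hvz b
    refine stationary hm ht0 (hnull u hu0 c) ?_
    intro h
    refine hmin _ (V.add_mem huV (V.smul_mem _ hv)) ?_ _
    rw [inner_add_left, real_inner_smul_left, huz, hvz]
    ring
  have hmass : m.real S = t := by
    have h1 := hst 0 V.zero_mem (by simp) 1
    simp only [inner_zero_left, zero_sub, mul_one] at h1
    rw [setIntegral_const] at h1
    simp only [smul_eq_mul, mul_neg, mul_one] at h1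
    linarith
  have hmass' : m S = ENNReal.ofReal t := by
    rw [← hmass, Measure.real, ENNReal.ofReal_toReal (measure_ne_top _ _)]
  have hv0 : ∀ v ∈ V, inner ℝ v z = 0 → ∫ x in S, inner ℝ v x ∂m = 0 := by
    intro v hv hvz
    have h1 := hst v hv hvz 0
    simpa using h1
  have hint : ∀ v : E d, Integrable (fun x => inner ℝ v x) m := fun v =>
    integrable_of_bdd hm (by fun_prop)
  have hpos : ∫ x, max (inner ℝ u x - c) 0 ∂m = ∫ x in S, (inner ℝ u x - c) ∂m := by
    rw [← integral_indicator hS]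
    refine integral_congr_ae (Eventually.of_forall fun x => ?_)
    by_cases hx : x ∈ S
    · simp only
      rw [indicator_of_mem hx, max_eq_left]
      have : c < inner ℝ u x := hx
      linarith
    · simp only
      rw [indicator_of_notMem hx, max_eq_right]
      have : ¬ c < inner ℝ u x := hx
      linarith
  have hSu : ∫ x in S, inner ℝ u x ∂m = t * Psi m t u c := by
    unfold Psi
    rw [hpos, integral_sub (hint u).integrableOn (integrable_const c).integrableOn,
      setIntegral_const, hmass, smul_eq_mul]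
    field_simp
    ring
  refine ⟨u, hu0, c, Psi m t u c, hmass', ?_, ?_, ?_, ?_⟩
  · exact (by positivity : 0 ≤ ρ / 2 * ‖u‖).trans (hlow u huV c)
  · intro v hv
    have e : v = (v - (inner ℝ v z : ℝ) • u) + (inner ℝ v z : ℝ) • u := by abel
    have h1 : ∫ x in S, inner ℝ v x ∂m = ∫ x in S, inner ℝ (v - (inner ℝ v z : ℝ) • u) x ∂m
        + (inner ℝ v z) * ∫ x in S, inner ℝ u x ∂m := by
      rw [← integral_const_mul, ← integral_add (hint _).integrableOn
        ((hint u).const_mul _).integrableOn]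
      refine integral_congr_ae (Eventually.of_forall fun x => ?_)
      simp only
      rw [inner_sub_left, real_inner_smul_left]
      ring
    rw [h1, hv0 _ (V.sub_mem hv (V.smul_mem _ huV)), hSu]
    · ring
    · rw [inner_sub_left, real_inner_smul_left, huz]
      ring
  · have h1 := hlow u huV c
    obtain ⟨l, hl⟩ := hs2 u huV huz
    have h2 : 1 - δ * ‖u‖ ≤ Psi m t u c := by
      refine psi_ge hm ht0 u c _ measurableSet_ball (hs3 l) ?_
      intro x hx
      have h1 := hball u l x hx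
      linarith
    have h3 : ‖u‖ ≤ 2 / ρ * Psi m t u c := by
      have : ‖u‖ = 2 / ρ * (ρ / 2 * ‖u‖) := by field_simp
      rw [this]
      exact mul_le_mul_of_nonneg_left h1 (by positivity)
    have h4 : δ * ‖u‖ ≤ δ * (2 / ρ * Psi m t u c) := mul_le_mul_of_nonneg_left h3 hδ.le
    have h5 : 2 * δ / ρ * Psi m t u c = δ * (2 / ρ * Psi m t u c) := by ring
    rw [h5]
    linarith
  · intro u₀ hu₀ hu₀z
    exact hmin u₀ hu₀ hu₀z 1

end Cap1

/-- caps of one convex body -/
theorem cap_body {C : Set (E d)} (hC : Convex ℝ C) (hCc : IsCompact C)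
    (hCR : C ⊆ Metric.closedBall 0 R) (hC0 : volume C ≠ 0) (V : Submodule ℝ (E d)) {z : E d}
    (hz : z ∈ V) (hz0 : z ≠ 0) {ι : Type} [Fintype ι] (s : ι → E d) {ρ δ t : ℝ} (hρ : 0 < ρ)
    (hδ : 0 < δ) (hδρ : δ ≤ ρ / 2) (ht0 : 0 < t) (ht1 : t < 1)
    (hs1 : ∀ u ∈ V, ∃ l, ρ * ‖u‖ ≤ inner ℝ u (s l))
    (hs2 : ∀ u ∈ V, inner ℝ u z = 1 → ∃ l, 1 ≤ inner ℝ u (s l))
    (hs3 : ∀ l, ENNReal.ofReal t < unif C (Metric.ball (s l) δ)) :
    ∃ C₁ C₂ : Set (E d), (Convex ℝ C₁ ∧ IsCompact C₁ ∧ C₁ ⊆ Metric.closedBall 0 R ∧ volume C₁ ≠ 0) ∧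
      (Convex ℝ C₂ ∧ IsCompact C₂ ∧ C₂ ⊆ Metric.closedBall 0 R ∧ volume C₂ ≠ 0) ∧
      unif C = ENNReal.ofReal t • unif C₁ + ENNReal.ofReal (1 - t) • unif C₂ ∧
      ∃ lam : ℝ, 0 ≤ lam ∧ (∀ v ∈ V, ∫ x, inner ℝ v x ∂(unif C₁) = lam * inner ℝ v z) ∧
        1 - 2 * δ / ρ * lam ≤ lam ∧
        ∀ u₀ ∈ V, inner ℝ u₀ z = 1 → lam ≤ 1 + (1 / t) * ∫ x, max (inner ℝ u₀ x - 1) 0 ∂(unif C) := by
  have hCm : MeasurableSet C := hCc.measurableSet
  have hCtop : volume C ≠ ⊤ := hCc.measure_ne_top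
  have hprob : IsProbabilityMeasure (unif C) := by
    refine ⟨?_⟩
    rw [unif, Measure.smul_apply, Measure.restrict_apply_univ, smul_eq_mul]
    exact ENNReal.inv_mul_cancel hC0 hCtop
  have hball : ∀ᵐ x ∂(unif C), x ∈ Metric.closedBall (0 : E d) R := by
    rw [unif]
    refine Measure.ae_smul_measure ?_ _
    filter_upwards [ae_restrict_mem hCm] with x hx using hCR hx
  have hnull : ∀ u : E d, u ≠ 0 → ∀ c : ℝ, unif C {x | inner ℝ u x = c} = 0 := by
    intro u hu c
    rw [unif, Measure.smul_apply, smul_eq_mul]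
    have h1 : (volume.restrict C) {x : E d | inner ℝ u x = c} = 0 :=
      le_antisymm ((Measure.restrict_apply_le _ _).trans (Cap1.hyperplane_null hu c).le) bot_le
    rw [h1, mul_zero]
  obtain ⟨u, hu0, c, lam, hmass, hlam0, hcent, hlow, hup⟩ := Cap1.abstract_cap hball hnull V hz hz0 s
    hρ hδ hδρ ht0 ht1 hs1 hs2 hs3
  set S : Set (E d) := {x | c < inner ℝ u x} with hSdef
  have hS : MeasurableSet S :=
    measurableSet_lt measurable_const (Continuous.measurable (by fun_prop))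
  have hH₁ : IsClosed {x : E d | c ≤ inner ℝ u x} := isClosed_le continuous_const (by fun_prop)
  have hH₂ : IsClosed {x : E d | inner ℝ u x ≤ c} := isClosed_le (by fun_prop) continuous_const
  set C₁ : Set (E d) := C ∩ {x | c ≤ inner ℝ u x} with hC₁
  set C₂ : Set (E d) := C ∩ {x | inner ℝ u x ≤ c} with hC₂
  have hN : volume {x : E d | inner ℝ u x = c} = 0 := Cap1.hyperplane_null hu0 c
  have hneN : ∀ᵐ x : E d, inner ℝ u x ≠ c := by
    rw [ae_iff]
    simpa using hN
  -- `C₁` and `C ∩ S` are almost equal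
  have hae₁ : C₁ =ᵐ[volume] (C ∩ S : Set (E d)) := by
    filter_upwards [hneN] with x hx
    refine propext ⟨fun h => ⟨h.1, ?_⟩, fun h => ⟨h.1, ?_⟩⟩
    · exact lt_of_le_of_ne (show c ≤ inner ℝ u x from h.2) (Ne.symm hx)
    · exact (show c < inner ℝ u x from h.2).le
  have hae₂ : C₂ =ᵐ[volume] (C ∩ Sᶜ : Set (E d)) := by
    refine Eventually.of_forall fun x => propext ⟨fun h => ⟨h.1, ?_⟩, fun h => ⟨h.1, ?_⟩⟩
    · simpa [S] using h.2
    · simpa [S] using h.2
  have hv₁ : volume C₁ = ENNReal.ofReal t * volume C := by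
    rw [measure_congr hae₁]
    rw [unif, Measure.smul_apply, Measure.restrict_apply hS, smul_eq_mul] at hmass
    rw [← hmass, inter_comm, mul_comm, ← mul_assoc, ENNReal.mul_inv_cancel hC0 hCtop, one_mul]
  have hmass₂ : unif C Sᶜ = ENNReal.ofReal (1 - t) := by
    rw [prob_compl_eq_one_sub hS, hmass, ENNReal.ofReal_sub _ ht0.le, ENNReal.ofReal_one]
  have hv₂ : volume C₂ = ENNReal.ofReal (1 - t) * volume C := by
    rw [measure_congr hae₂]
    rw [unif, Measure.smul_apply, Measure.restrict_apply hS.compl, smul_eq_mul] at hmass₂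
    rw [← hmass₂, inter_comm, mul_comm, ← mul_assoc, ENNReal.mul_inv_cancel hC0 hCtop, one_mul]
  have ht0' : ENNReal.ofReal t ≠ 0 := by
    rw [Ne, ENNReal.ofReal_eq_zero, not_le]; exact ht0
  have ht1' : ENNReal.ofReal (1 - t) ≠ 0 := by
    rw [Ne, ENNReal.ofReal_eq_zero, not_le]; linarith
  have hun : ∀ (D : Set (E d)) (a : ℝ≥0∞), a ≠ 0 → a ≠ ⊤ → volume D = a * volume C →
      a • unif D = (volume C)⁻¹ • volume.restrict D := by
    intro D a ha ha' hD
    rw [unif, hD, smul_smul, ENNReal.mul_inv (Or.inl ha) (Or.inl ha'), ← mul_assoc,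
      ENNReal.mul_inv_cancel ha ha', one_mul]
  refine ⟨C₁, C₂, ⟨?_, ?_, ?_, ?_⟩, ⟨?_, ?_, ?_, ?_⟩, ?_, lam, hlam0, ?_, hlow, hup⟩
  · exact hC.inter (convex_halfSpace_ge (innerₗ (E d) u).isLinear c)
  · exact hCc.inter_right hH₁
  · exact inter_subset_left.trans hCR
  · rw [hv₁]; exact mul_ne_zero ht0' hC0
  · exact hC.inter (convex_halfSpace_le (innerₗ (E d) u).isLinear c)
  · exact hCc.inter_right hH₂
  · exact inter_subset_left.trans hCR
  · rw [hv₂]; exact mul_ne_zero ht1' hC0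
  · rw [hun C₁ _ ht0' ENNReal.ofReal_ne_top hv₁, hun C₂ _ ht1' ENNReal.ofReal_ne_top hv₂, ← smul_add,
      Measure.restrict_congr_set hae₁, Measure.restrict_congr_set hae₂, unif]
    congr 1
    rw [inter_comm C S, inter_comm C Sᶜ, ← Measure.restrict_restrict hS,
      ← Measure.restrict_restrict hS.compl, Measure.restrict_add_restrict_compl hS]
  · intro v hv
    have h1 : ENNReal.ofReal t • unif C₁ = (unif C).restrict S := by
      rw [hun C₁ _ ht0' ENNReal.ofReal_ne_top hv₁, Measure.restrict_congr_set hae₁, unif,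
        Measure.restrict_smul, Measure.restrict_restrict hS, inter_comm]
    have h2 := hcent v hv
    rw [← h1, integral_smul_measure, ENNReal.toReal_ofReal ht0.le, smul_eq_mul] at h2
    exact mul_left_cancel₀ ht0.ne' h2

end Pool.Agent.Lib.MP_a34d76_pr.Quad
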