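import Pool.Agent.Lib.MP_a34d76_pr.Quad.Defs
import Pool.Agent.Lib.MP_a34d76_pr.Bounded

/-!
# The class `PP d R` is compact, and its members live on the ball (helper24)
-/

set_option autoImplicit false

open MeasureTheory Filter Topology Set
open scoped NNReal ENNReal

namespace Pool.Agent.Lib.MP_a34d76_pr.Quad

namespace PBaseA

/-- probability measures on a compact set form a compact set -/
theorem isCompact_supported {X : Type*} [MeasurableSpace X] [TopologicalSpace X] [T2Space X]
    [NormalSpace X] [BorelSpace X] {K : Set X} (hK : IsCompact K) :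
    IsCompact {μ : ProbabilityMeasure X | ∀ᵐ x ∂(μ : Measure X), x ∈ K} := by
  have h := isCompact_setOfPred_probabilityMeasure_mass_eq_compl_isCompact_le (E := X)
    (u := fun _ => 0) (K := fun _ => K) tendsto_const_nhds (fun _ => hK) (Or.inl inferInstance)
  have h2 : {μ : ProbabilityMeasure X | ∀ᵐ x ∂(μ : Measure X), x ∈ K} =
      {μ : ProbabilityMeasure X | ∀ _ : ℕ, μ Kᶜ ≤ 0} := by
    ext μ
    simp only [mem_ofPred_eq, nonpos_iff_eq_zero, forall_const]
    rw [ae_iff]
    have h3 : {a | a ∉ K} = Kᶜ := rfl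
    rw [h3]
    constructor
    · intro h4
      simpa using! h4
    · intro h4
      simpa using! h4
  rw [h2]
  exact h

theorem isProbabilityMeasure_unif {d : ℕ} {C : Set (E d)} (h0 : volume C ≠ 0)
    (h1 : volume C ≠ ⊤) : IsProbabilityMeasure (unif C) := by
  refine ⟨?_⟩
  rw [unif, Measure.smul_apply, Measure.restrict_apply_univ, smul_eq_mul]
  exact ENNReal.inv_mul_cancel h0 h1

theorem unif_ae_mem {d : ℕ} {C : Set (E d)} (hC : MeasurableSet C) :
    ∀ᵐ x ∂(unif C), x ∈ C := by
  rw [unif]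
  exact Measure.ae_smul_measure (ae_restrict_mem hC) _

theorem unif_congr {d : ℕ} {C C' : Set (E d)} (h : C =ᵐ[volume] C') : unif C = unif C' := by
  rw [unif, unif, measure_congr h, Measure.restrict_congr_set h]

theorem closure_ae_eq {d : ℕ} {C : Set (E d)} (hC : Convex ℝ C) :
    (C : Set (E d)) =ᵐ[volume] closure C := by
  have h1 : volume (frontier C) = 0 := hC.addHaar_frontier volume
  refine (subset_closure (s := C)).eventuallyLE.antisymm ?_
  refine ae_le_set.2 (measure_mono_null ?_ h1)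
  intro x hx
  exact ⟨hx.1, fun h2 => hx.2 (interior_subset h2)⟩

end PBaseA

open PBaseA

variable {d : ℕ} {R : ℝ}

theorem PBaseA.pp_subset (d : ℕ) (R : ℝ) : PP d R ⊆
    {μ : ProbabilityMeasure (E d) | ∀ᵐ x ∂(μ : Measure (E d)),
      x ∈ Metric.closedBall (0 : E d) R} := by
  refine closure_minimal ?_ (isCompact_supported (isCompact_closedBall _ _)).isClosed
  rintro μ ⟨C, -, hCc, hCR, -, hμ⟩
  simp only [mem_ofPred_eq]
  rw [hμ]
  exact (unif_ae_mem hCc.measurableSet).mono fun x hx => hCR hx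

theorem pp_isCompact (d : ℕ) (R : ℝ) : IsCompact (PP d R) :=
  (isCompact_supported (isCompact_closedBall (0 : E d) R)).of_isClosed_subset isClosed_closure
    (PBaseA.pp_subset d R)

theorem pp_ball {μ : ProbabilityMeasure (E d)} (h : μ ∈ PP d R) :
    ∀ᵐ x ∂(μ : Measure (E d)), x ∈ Metric.closedBall (0 : E d) R := PBaseA.pp_subset d R h

theorem pp_seq {μ : ProbabilityMeasure (E d)} (h : μ ∈ PP d R) :
    ∃ ν : ℕ → ProbabilityMeasure (E d), (∀ j, ν j ∈ Body d R) ∧ Tendsto ν atTop (𝓝 μ) :=
  mem_closure_iff_seq_limit.1 h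

theorem pp_unif {C : Set (E d)} (hC : Convex ℝ C) (h0 : volume C ≠ 0) (h1 : volume C ≠ ⊤) :
    ∃ R : ℝ, 0 < R ∧ ∃ μ ∈ PP d R, (μ : Measure (E d)) = unif C := by
  have hb : Bornology.IsBounded C := isBounded_of_convex hC h0 h1
  obtain ⟨R, hR, hCR⟩ := hb.closure.subset_closedBall_lt 0 0
  have hae := closure_ae_eq hC
  have h0' : volume (closure C) ≠ 0 := by rwa [← measure_congr hae]
  have h1' : volume (closure C) ≠ ⊤ := by rwa [← measure_congr hae]
  refine ⟨R, hR, ⟨unif (closure C), isProbabilityMeasure_unif h0' h1'⟩, subset_closure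
    ⟨closure C, hC.closure, ?_, hCR, h0', rfl⟩, (unif_congr hae).symm⟩
  exact Metric.isCompact_of_isClosed_isBounded isClosed_closure hb.closure

end Pool.Agent.Lib.MP_a34d76_pr.Quad
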