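import Pool.Agent.Lib.MP_a34d76_pr.Quad.Cap1
import Pool.Agent.Lib.MP_a34d76_pr.Quad.PBaseA

/-!
# CAP2: caps of members of the class
-/

set_option autoImplicit false

open MeasureTheory Filter Topology Set
open scoped NNReal ENNReal BoundedContinuousFunction

namespace Pool.Agent.Lib.MP_a34d76_pr.Quad

variable {d : ℕ} {R : ℝ}

namespace Cap2

/-- weak convergence on a ball: integrals of all continuous functions converge -/
lemma tendsto_integral {ν : ℕ → ProbabilityMeasure (E d)} {μ : ProbabilityMeasure (E d)}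
    (hν : Tendsto ν atTop (𝓝 μ))
    (hb : ∀ j, ∀ᵐ x ∂(ν j : Measure (E d)), x ∈ Metric.closedBall (0 : E d) R)
    (hμ : ∀ᵐ x ∂(μ : Measure (E d)), x ∈ Metric.closedBall (0 : E d) R)
    {f : E d → ℝ} (hf : Continuous f) :
    Tendsto (fun j => ∫ x, f x ∂(ν j : Measure (E d))) atTop
      (𝓝 (∫ x, f x ∂(μ : Measure (E d)))) := by
  obtain ⟨K, hK⟩ := (isCompact_closedBall (0 : E d) R).exists_bound_of_continuousOn
    (f := f) hf.continuousOn
  have hgc : Continuous (fun x => max (min (f x) K) (-K)) := by fun_prop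
  set g : E d →ᵇ ℝ := BoundedContinuousFunction.ofNormedAddCommGroup
    (fun x => max (min (f x) K) (-K)) hgc |K| (by
      intro x
      rw [Real.norm_eq_abs, abs_le]
      constructor
      · exact (neg_le_neg (le_abs_self K)).trans (le_max_right _ _)
      · exact max_le ((min_le_right _ _).trans (le_abs_self K)) (neg_le_abs K)) with hg
  have h1 := (ProbabilityMeasure.tendsto_iff_forall_integral_tendsto.1 hν) g
  have h2 : ∀ m : Measure (E d), (∀ᵐ x ∂m, x ∈ Metric.closedBall (0 : E d) R) →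
      ∫ x, g x ∂m = ∫ x, f x ∂m := by
    intro m hm
    refine integral_congr_ae ?_
    filter_upwards [hm] with x hx
    have h3 := abs_le.1 (hK x hx)
    simp only [hg, BoundedContinuousFunction.coe_ofNormedAddCommGroup]
    rw [min_eq_left h3.2, max_eq_left h3.1]
  rw [h2 _ hμ] at h1
  refine h1.congr fun j => h2 _ (hb j)

lemma sum_limit {t : ℝ} (ht0 : 0 < t) (ht1 : t < 1)
    {ν a b : ℕ → ProbabilityMeasure (E d)} {μ ξ μ' : ProbabilityMeasure (E d)}
    (hν : Tendsto ν atTop (𝓝 μ)) (ha : Tendsto a atTop (𝓝 ξ)) (hb : Tendsto b atTop (𝓝 μ'))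
    (h : ∀ j, (ν j : Measure (E d)) = ENNReal.ofReal t • (a j : Measure (E d)) +
      ENNReal.ofReal (1 - t) • (b j : Measure (E d))) :
    (μ : Measure (E d)) = ENNReal.ofReal t • (ξ : Measure (E d)) +
      ENNReal.ofReal (1 - t) • (μ' : Measure (E d)) := by
  have key : ∀ (m p q : ProbabilityMeasure (E d)) (f : E d →ᵇ ℝ),
      ∫ x, f x ∂(ENNReal.ofReal t • (p : Measure (E d)) +
      ENNReal.ofReal (1 - t) • (q : Measure (E d))) =
      t * ∫ x, f x ∂(p : Measure (E d)) + (1 - t) * ∫ x, f x ∂(q : Measure (E d)) := by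
    intro m p q f
    rw [integral_add_measure, integral_smul_measure, integral_smul_measure,
      ENNReal.toReal_ofReal ht0.le, ENNReal.toReal_ofReal (by linarith), smul_eq_mul, smul_eq_mul]
    · exact (f.integrable _).smul_measure ENNReal.ofReal_ne_top
    · exact (f.integrable _).smul_measure ENNReal.ofReal_ne_top
  have hfin : IsFiniteMeasure (ENNReal.ofReal t • (ξ : Measure (E d)) +
      ENNReal.ofReal (1 - t) • (μ' : Measure (E d))) := by
    refine ⟨?_⟩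
    simp only [Measure.coe_add, Measure.coe_smul, Pi.add_apply, Pi.smul_apply, measure_univ,
      smul_eq_mul, mul_one]
    exact ENNReal.add_lt_top.2 ⟨ENNReal.ofReal_lt_top, ENNReal.ofReal_lt_top⟩
  refine ext_of_forall_integral_eq_of_IsFiniteMeasure fun f => ?_
  rw [key μ ξ μ' f]
  have h1 := (ProbabilityMeasure.tendsto_iff_forall_integral_tendsto.1 hν) f
  have h2 := (ProbabilityMeasure.tendsto_iff_forall_integral_tendsto.1 ha) f
  have h3 := (ProbabilityMeasure.tendsto_iff_forall_integral_tendsto.1 hb) f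
  have h4 := (h2.const_mul t).add (h3.const_mul (1 - t))
  refine tendsto_nhds_unique h1 (h4.congr fun j => ?_)
  rw [h j, key (ν j) (a j) (b j) f]

end Cap2

theorem cap {μ : ProbabilityMeasure (E d)} (hμ : μ ∈ PP d R) (V : Submodule ℝ (E d))
    (hV : ∀ᵐ x ∂(μ : Measure (E d)), x ∈ V) {z u₀ : E d} (hz : z ∈ V) (hu₀V : u₀ ∈ V)
    (hu₀z : inner ℝ u₀ z = 1) (hu₀ : ∀ᵐ x ∂(μ : Measure (E d)), inner ℝ u₀ x ≤ 1)
    {ι : Type} [Fintype ι] (s : ι → E d) {ρ δ t : ℝ} (hρ : 0 < ρ) (hδ : 0 < δ) (hδρ : δ ≤ ρ / 2)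
    (ht0 : 0 < t) (ht1 : t < 1) (hs1 : ∀ u ∈ V, ∃ l, ρ * ‖u‖ ≤ inner ℝ u (s l))
    (hs2 : ∀ u ∈ V, inner ℝ u z = 1 → ∃ l, 1 ≤ inner ℝ u (s l))
    (hs3 : ∀ l, ENNReal.ofReal t < (μ : Measure (E d)) (Metric.ball (s l) δ)) :
    ∃ ξ μ' : ProbabilityMeasure (E d), Splits R μ ξ μ' t ∧
      ∃ lam ∈ Icc (1 - 2 * δ / ρ) 1, (∫ x, x ∂(ξ : Measure (E d))) = lam • z := by
  have hz0 : z ≠ 0 := by
    rintro rfl
    simp at hu₀z
  obtain ⟨ν₀, hν₀B, hν₀⟩ := pp_seq hμ
  have hev : ∀ᶠ j in atTop, ∀ l, ENNReal.ofReal t < (ν₀ j : Measure (E d)) (Metric.ball (s l) δ) := by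
    rw [eventually_all]
    intro l
    have h1 := ProbabilityMeasure.le_liminf_measure_open_of_tendsto hν₀
      (Metric.isOpen_ball (x := s l) (ε := δ))
    exact eventually_lt_of_lt_liminf ((hs3 l).trans_le h1)
  obtain ⟨J, hJ⟩ := eventually_atTop.1 hev
  set ν : ℕ → ProbabilityMeasure (E d) := fun j => ν₀ (j + J) with hνdef
  have hν : Tendsto ν atTop (𝓝 μ) := hν₀.comp (tendsto_add_atTop_nat J)
  have hνB : ∀ j, ν j ∈ Body d R := fun j => hν₀B _
  have hν3 : ∀ j l, ENNReal.ofReal t < (ν j : Measure (E d)) (Metric.ball (s l) δ) :=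
    fun j l => hJ (j + J) (by omega) l
  have hνball : ∀ j, ∀ᵐ x ∂(ν j : Measure (E d)), x ∈ Metric.closedBall (0 : E d) R :=
    fun j => pp_ball (subset_closure (hνB j))
  -- bound for `lam`
  set Λ : ℝ := 1 + (1 / t) * (‖u₀‖ * |R|) with hΛ
  have hstep : ∀ j, ∃ a b : ProbabilityMeasure (E d), a ∈ PP d R ∧ b ∈ PP d R ∧
      (ν j : Measure (E d)) = ENNReal.ofReal t • (a : Measure (E d)) +
        ENNReal.ofReal (1 - t) • (b : Measure (E d)) ∧ ∃ lam ∈ Icc (0 : ℝ) Λ,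
        (∀ v ∈ V, ∫ x, inner ℝ v x ∂(a : Measure (E d)) = lam * inner ℝ v z) ∧
        1 - 2 * δ / ρ * lam ≤ lam ∧
        lam ≤ 1 + (1 / t) * ∫ x, max (inner ℝ u₀ x - 1) 0 ∂(ν j : Measure (E d)) := by
    intro j
    obtain ⟨C, hC, hCc, hCR, hC0, hCν⟩ := hνB j
    have h3 : ∀ l, ENNReal.ofReal t < unif C (Metric.ball (s l) δ) := by
      intro l
      rw [← hCν]
      exact hν3 j l
    obtain ⟨C₁, C₂, ⟨hC₁, hC₁c, hC₁R, hC₁0⟩, ⟨hC₂, hC₂c, hC₂R, hC₂0⟩, hsplit, lam, hlam0, hcent, hlow,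
      hup⟩ := cap_body hC hCc hCR hC0 V hz hz0 s hρ hδ hδρ ht0 ht1 hs1 hs2 h3
    refine ⟨⟨unif C₁, PBaseA.isProbabilityMeasure_unif hC₁0 hC₁c.measure_ne_top⟩,
      ⟨unif C₂, PBaseA.isProbabilityMeasure_unif hC₂0 hC₂c.measure_ne_top⟩,
      subset_closure ⟨C₁, hC₁, hC₁c, hC₁R, hC₁0, rfl⟩,
      subset_closure ⟨C₂, hC₂, hC₂c, hC₂R, hC₂0, rfl⟩, ?_, lam, ⟨hlam0, ?_⟩, ?_, hlow, ?_⟩
    · rw [hCν]; exact hsplit
    · have h4 := hup u₀ hu₀V hu₀z
      rw [← hCν] at h4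
      refine h4.trans ?_
      rw [hΛ]
      have h5 : ∫ x, max (inner ℝ u₀ x - 1) 0 ∂(ν j : Measure (E d)) ≤
          ∫ _x, ‖u₀‖ * |R| ∂(ν j : Measure (E d)) := by
        refine integral_mono_ae (Cap1.int_psi (hνball j) u₀ 1) (integrable_const _) ?_
        filter_upwards [hνball j] with x hx
        have h2 : ‖x‖ ≤ |R| := (by simpa using hx : ‖x‖ ≤ R).trans (le_abs_self _)
        have h3 : |inner ℝ u₀ x| ≤ ‖u₀‖ * ‖x‖ := abs_real_inner_le_norm _ _
        have h4 : ‖u₀‖ * ‖x‖ ≤ ‖u₀‖ * |R| := mul_le_mul_of_nonneg_left h2 (norm_nonneg _)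
        have h5 := (abs_le.1 h3).2
        exact max_le (by linarith) (by positivity)
      rw [integral_const, probReal_univ, one_smul] at h5
      have h6 : (1 / t) * ∫ x, max (inner ℝ u₀ x - 1) 0 ∂(ν j : Measure (E d)) ≤
          (1 / t) * (‖u₀‖ * |R|) := mul_le_mul_of_nonneg_left h5 (by positivity)
      linarith
    · exact hcent
    · rw [hCν]
      exact hup u₀ hu₀V hu₀z
  choose a b ha hb hsplit lam hlam hcent hlow hup using hstep
  have hcomp : IsCompact ((PP d R ×ˢ PP d R) ×ˢ Icc (0 : ℝ) Λ) :=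
    ((pp_isCompact d R).prod (pp_isCompact d R)).prod isCompact_Icc
  obtain ⟨q, hq, φ, hφ, hlim⟩ := hcomp.tendsto_subseq (x := fun j => ((a j, b j), lam j))
    (fun j => ⟨⟨ha j, hb j⟩, hlam j⟩)
  have hlim1 : Tendsto (fun j => a (φ j)) atTop (𝓝 q.1.1) :=
    ((continuous_fst.comp continuous_fst).tendsto q).comp hlim
  have hlim2 : Tendsto (fun j => b (φ j)) atTop (𝓝 q.1.2) :=
    ((continuous_snd.comp continuous_fst).tendsto q).comp hlim
  have hlim3 : Tendsto (fun j => lam (φ j)) atTop (𝓝 q.2) :=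
    (continuous_snd.tendsto q).comp hlim
  have hνφ : Tendsto (fun j => ν (φ j)) atTop (𝓝 μ) := hν.comp hφ.tendsto_atTop
  have hμball := pp_ball hμ
  have hsum := Cap2.sum_limit ht0 ht1 hνφ hlim1 hlim2 (fun j => hsplit (φ j))
  have hξball := pp_ball hq.1.1
  -- the bound `lam ≤ 1`
  have hle1 : q.2 ≤ 1 := by
    have h1 : Tendsto (fun j => 1 + (1 / t) *
        ∫ x, max (inner ℝ u₀ x - 1) 0 ∂(ν (φ j) : Measure (E d))) atTop
        (𝓝 (1 + (1 / t) * ∫ x, max (inner ℝ u₀ x - 1) 0 ∂(μ : Measure (E d)))) :=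
      ((Cap2.tendsto_integral hνφ (fun j => hνball _) hμball (by fun_prop)).const_mul _).const_add _
    have h2 : ∫ x, max (inner ℝ u₀ x - 1) 0 ∂(μ : Measure (E d)) = 0 := by
      refine integral_eq_zero_of_ae ?_
      filter_upwards [hu₀] with x hx
      exact max_eq_right (by linarith)
    rw [h2, mul_zero, add_zero] at h1
    exact le_of_tendsto_of_tendsto' hlim3 h1 (fun j => hup (φ j))
  have hge : 1 - 2 * δ / ρ * q.2 ≤ q.2 :=
    le_of_tendsto_of_tendsto' ((hlim3.const_mul _).const_sub _) hlim3 (fun j => hlow (φ j))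
  have hmem : q.2 ∈ Icc (1 - 2 * δ / ρ) 1 := by
    refine ⟨?_, hle1⟩
    have h1 : 2 * δ / ρ * q.2 ≤ 2 * δ / ρ * 1 := mul_le_mul_of_nonneg_left hle1 (by positivity)
    linarith
  have hξV : ∀ᵐ x ∂(q.1.1 : Measure (E d)), x ∈ V := by
    rw [ae_iff] at hV ⊢
    rw [hsum] at hV
    simp only [Measure.coe_add, Measure.coe_smul, Pi.add_apply, Pi.smul_apply, smul_eq_mul,
      add_eq_zero, mul_eq_zero] at hV
    rcases hV.1 with h | h
    · exfalso
      rw [ENNReal.ofReal_eq_zero] at h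
      linarith
    · exact h
  refine ⟨q.1.1, q.1.2, ⟨hq.1.1, hq.1.2, hsum⟩, q.2, hmem, ?_⟩
  have hidint : Integrable (fun x : E d => x) (q.1.1 : Measure (E d)) := by
    refine Integrable.of_bound (by fun_prop) R ?_
    filter_upwards [hξball] with x hx
    simpa using hx
  have hcV : (∫ x, x ∂(q.1.1 : Measure (E d))) ∈ V :=
    (V.convex).integral_mem (Submodule.closed_of_finiteDimensional V) hξV hidint
  have hinner : ∀ v ∈ V, inner ℝ v (∫ x, x ∂(q.1.1 : Measure (E d))) = q.2 * inner ℝ v z := by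
    intro v hv
    rw [← integral_inner hidint v]
    have h1 := Cap2.tendsto_integral hlim1 (fun j => pp_ball (ha _)) hξball
      (f := fun x => inner ℝ v x) (by fun_prop)
    refine tendsto_nhds_unique h1 ((hlim3.mul_const (inner ℝ v z)).congr fun j => ?_)
    exact (hcent (φ j) v hv).symm
  have hw : (∫ x, x ∂(q.1.1 : Measure (E d))) - q.2 • z ∈ V := V.sub_mem hcV (V.smul_mem _ hz)
  have h0 := hinner _ hw
  have h1 : inner ℝ ((∫ x, x ∂(q.1.1 : Measure (E d))) - q.2 • z)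
      ((∫ x, x ∂(q.1.1 : Measure (E d))) - q.2 • z) = 0 := by
    rw [inner_sub_right, h0, real_inner_smul_right, sub_self]
  exact sub_eq_zero.1 (inner_self_eq_zero.1 h1)

end Pool.Agent.Lib.MP_a34d76_pr.Quad
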