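import Mathlib

/-!
# Complete mixability for `n ≥ 2 ^ ⌈log₂ d⌉ (d + 1)`: definitions

`PP d R` is the closure (weak topology) of the set of uniform laws on convex bodies contained in the
closed ball of radius `R` of `ℝ^d`.
-/

set_option autoImplicit false

open MeasureTheory Filter Topology Set

namespace Pool.Agent.Lib.MP_a34d76_pr.Quad

/-- `ℝ^d` with its Euclidean norm -/
abbrev E (d : ℕ) := EuclideanSpace ℝ (Fin d)

/-- the uniform law on a set -/
noncomputable def unif {d : ℕ} (C : Set (E d)) : Measure (E d) := (volume C)⁻¹ • volume.restrict C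

/-- uniform laws on convex bodies contained in a ball -/
def Body (d : ℕ) (R : ℝ) : Set (ProbabilityMeasure (E d)) :=
  {μ | ∃ C : Set (E d), Convex ℝ C ∧ IsCompact C ∧ C ⊆ Metric.closedBall 0 R ∧ volume C ≠ 0 ∧
    (μ : Measure (E d)) = unif C}

/-- their weak limits -/
def PP (d : ℕ) (R : ℝ) : Set (ProbabilityMeasure (E d)) := closure (Body d R)

/-- complete mixability -/
def CM {d : ℕ} (k : ℕ) (μ : Measure (E d)) : Prop :=
  ∃ P : Measure (Fin k → E d), IsProbabilityMeasure P ∧ (∀ i, P.map (fun x => x i) = μ) ∧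
    ∃ c : E d, ∀ᵐ x ∂P, ∑ i, x i = c

/-- `μ = t ξ + (1 - t) μ'` inside the class -/
def Splits {d : ℕ} (R : ℝ) (μ ξ μ' : ProbabilityMeasure (E d)) (t : ℝ) : Prop :=
  ξ ∈ PP d R ∧ μ' ∈ PP d R ∧
    (μ : Measure (E d)) = ENNReal.ofReal t • (ξ : Measure (E d)) +
      ENNReal.ofReal (1 - t) • (μ' : Measure (E d))

/-- the largest value of `∑ f (x l)` over `k`-tuples in `Q` with sum `k z` -/
noncomputable def FF {d : ℕ} (f : E d → ℝ) (Q : Set (E d)) (k : ℕ) (z : E d) : ℝ :=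
  sSup {t | ∃ x : Fin k → E d, (∀ l, x l ∈ Q) ∧ ∑ l, x l = (k : ℝ) • z ∧ t = ∑ l, f (x l)}

/-- `z` is good for `k`: from every member of the class which is almost all of `μs` one can split
off small pieces with centroid close to `z` and with `k ∫ f` at most the value of a `k`-tuple with
sum `k z`. -/
def Good {d : ℕ} (R : ℝ) (Q : Set (E d)) (f : E d → ℝ) (μs : ProbabilityMeasure (E d)) (k : ℕ)
    (z : E d) : Prop :=
  ∀ θ > (0 : ℝ), ∃ t₀ : ℝ, 0 < t₀ ∧ t₀ < 1 ∧ ∀ μ ∈ PP d R, ∀ s ∈ Icc (0 : ℝ) t₀,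
    ENNReal.ofReal (1 - s) • (μ : Measure (E d)) ≤ (μs : Measure (E d)) →
    ∀ t ∈ Ioc (0 : ℝ) t₀, ∃ ξ μ' : ProbabilityMeasure (E d), Splits R μ ξ μ' t ∧
      ‖(∫ x, x ∂(ξ : Measure (E d))) - z‖ ≤ θ ∧
      (k : ℝ) * ∫ x, f x ∂(ξ : Measure (E d)) ≤ FF f Q k z + θ

/-- the face of `z` in `G` has dimension at most `r` -/
def LowDim {F : Type*} [AddCommGroup F] [Module ℝ F] (G : Set F) (z : F) (r : ℕ) : Prop :=
  ∃ W : Submodule ℝ F, Module.finrank ℝ W ≤ r ∧ ∀ v, z + v ∈ G → z - v ∈ G → v ∈ W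

/-- the numbers `K_i` -/
def KK (d i : ℕ) : ℕ := if i = 0 then 1 else 2 ^ Nat.clog 2 i * (d + 1)

/-- the statement proved by induction on `i`: members of the class which live on an affine subspace
of dimension at most `i` are `k`-completely mixable for all `k ≥ KK d i` -/
def TT (d i : ℕ) : Prop := ∀ (R : ℝ) (μ : ProbabilityMeasure (E d)), μ ∈ PP d R →
  ∀ (W : Submodule ℝ (E d)) (z : E d), Module.finrank ℝ W ≤ i →
    (∀ᵐ x ∂(μ : Measure (E d)), x - z ∈ W) → ∀ k, KK d i ≤ k → CM k (μ : Measure (E d))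

end Pool.Agent.Lib.MP_a34d76_pr.Quad
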