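import Pool.Agent.Lib.MP_a34d76_pr.Quad.Defs
import Pool.Agent.Lib.MP_a34d76_pr.Dual

set_option autoImplicit false

open MeasureTheory Filter Topology Set
open scoped NNReal ENNReal

namespace Pool.Agent.Lib.MP_a34d76_pr.Quad

variable {d : ℕ} {R : ℝ}

namespace DualLip

/-- uniform approximation from below on a compact set by a globally Lipschitz function -/
theorem exists_lip {X : Type*} [MetricSpace X] {K : Set X} (hK : IsCompact K)
    (hne : K.Nonempty) {g : X → ℝ} (hg : Continuous g) {δ : ℝ} (hδ : 0 < δ) :
    ∃ (h : X → ℝ) (L : ℝ≥0), LipschitzWith L h ∧ ∀ x ∈ K, g x - δ ≤ h x ∧ h x ≤ g x := by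
  obtain ⟨M, hM⟩ := hK.exists_bound_of_continuousOn hg.continuousOn
  have hM0 : 0 ≤ M := by
    obtain ⟨x, hx⟩ := hne
    exact (norm_nonneg _).trans (hM x hx)
  have huc : UniformContinuousOn g K := hK.uniformContinuousOn_of_continuous hg.continuousOn
  rw [Metric.uniformContinuousOn_iff] at huc
  obtain ⟨r, hr, hrg⟩ := huc δ hδ
  set L : ℝ≥0 := ⟨2 * M / r, by positivity⟩ with hL
  have hLr : (L : ℝ) = 2 * M / r := rfl
  have : Nonempty K := hne.to_subtype
  have hbdd : ∀ x : X, BddBelow (range fun y : K => g y + L * dist x y) := by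
    intro x
    refine ⟨-M, ?_⟩
    rintro _ ⟨y, rfl⟩
    have h1 := hM y y.2
    rw [Real.norm_eq_abs] at h1
    have h2 := (abs_le.mp h1).1
    have h3 : 0 ≤ (L : ℝ) * dist x y := by positivity
    simp only
    linarith
  refine ⟨fun x => ⨅ y : K, (g y + L * dist x y), L, ?_, ?_⟩
  · refine LipschitzWith.of_le_add_mul L fun x x' => ?_
    have : (⨅ y : K, (g y + L * dist x y)) - L * dist x x' ≤ ⨅ y : K, (g y + L * dist x' y) := by
      refine le_ciInf fun y => ?_
      have h1 := ciInf_le (hbdd x) y
      have h2 : dist x y ≤ dist x x' + dist x' y := dist_triangle _ _ _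
      have h3 : (L : ℝ) * dist x y ≤ L * dist x x' + L * dist x' y := by
        rw [← mul_add]
        exact mul_le_mul_of_nonneg_left h2 L.2
      linarith
    linarith
  · intro x hx
    constructor
    · refine le_ciInf fun y => ?_
      by_cases hxy : dist x y < r
      · have h1 := hrg x hx y y.2 hxy
        rw [Real.dist_eq] at h1
        have h2 := (abs_lt.mp h1).2
        have h3 : 0 ≤ (L : ℝ) * dist x y := by positivity
        linarith
      · push Not at hxy
        have h1 := hM x hx
        have h2 := hM y y.2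
        rw [Real.norm_eq_abs] at h1 h2
        have h3 := (abs_le.mp h1).2
        have h4 := (abs_le.mp h2).1
        have h5 : 2 * M ≤ (L : ℝ) * dist x y := by
          rw [hLr, div_mul_eq_mul_div, le_div_iff₀ hr]
          exact mul_le_mul_of_nonneg_left hxy (by positivity)
        linarith
    · have := ciInf_le (hbdd x) ⟨x, hx⟩
      simpa using this

end DualLip

theorem dual {n : ℕ} (hn : 0 < n) {W : Submodule ℝ (E d)} {μ : ProbabilityMeasure (E d)}
    (hR : 0 < R) (hball : ∀ᵐ x ∂(μ : Measure (E d)), x ∈ Metric.closedBall (0 : E d) R)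
    (hW : ∀ᵐ x ∂(μ : Measure (E d)), x ∈ W) (hcm : ¬ CM n (μ : Measure (E d))) :
    ∃ (f : E d → ℝ) (L : ℝ≥0), LipschitzWith L f ∧
      (∀ x : Fin n → E d, (∀ l, x l ∈ (W : Set (E d)) ∩ Metric.closedBall 0 R) →
        ∑ l, x l = 0 → ∑ l, f (x l) ≤ 0) ∧
      0 < ∫ x, f x ∂(μ : Measure (E d)) := by
  set K : Set (E d) := (W : Set (E d)) ∩ Metric.closedBall 0 R with hKdef
  have hKc : IsCompact K := (isCompact_closedBall (0 : E d) R).inter_left
    W.closed_of_finiteDimensional
  have hKae : ∀ᵐ x ∂(μ : Measure (E d)), x ∈ K := by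
    filter_upwards [hball, hW] with x h1 h2 using ⟨h2, h1⟩
  have hKne : K.Nonempty := ⟨0, W.zero_mem, by simp [hR.le]⟩
  -- the coordinates
  set e : E d ≃L[ℝ] (Fin d → ℝ) := EuclideanSpace.equiv (Fin d) ℝ with he
  have hem : Measurable e := e.continuous.measurable
  have hesm : Measurable e.symm := e.symm.continuous.measurable
  set Q : Measure (Fin d → ℝ) := (μ : Measure (E d)).map e with hQdef
  have hQp : IsProbabilityMeasure Q := Measure.isProbabilityMeasure_map hem.aemeasurable
  have hKim : IsCompact (e '' K) := hKc.image e.continuous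
  have hQK : ∀ᵐ x ∂Q, x ∈ e '' K := by
    rw [hQdef]
    refine (ae_map_iff (p := fun y => y ∈ e '' K) hem.aemeasurable
      hKim.isClosed.measurableSet).mpr ?_
    filter_upwards [hKae] with x hx using ⟨x, hx, rfl⟩
  by_cases H : ∀ g : C(Fin d → ℝ, ℝ), (∀ x ∈ Conf n (e '' K), 0 ≤ ∑ i, g (x i)) → 0 ≤ ∫ x, g x ∂Q
  · exfalso
    apply hcm
    obtain ⟨P, hP, hmarg, hsum⟩ := exists_coupling hn hKim hQK H
    have hΦ : Measurable (fun x : Fin n → Fin d → ℝ => fun i => e.symm (x i)) := by
      refine measurable_pi_lambda _ fun i => ?_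
      exact hesm.comp (measurable_pi_apply i)
    refine ⟨P.map (fun x i => e.symm (x i)), Measure.isProbabilityMeasure_map hΦ.aemeasurable,
      fun i => ?_, 0, ?_⟩
    · rw [Measure.map_map (measurable_pi_apply i) hΦ]
      have : ((fun x : Fin n → E d => x i) ∘ fun (x : Fin n → Fin d → ℝ) i => e.symm (x i)) =
          e.symm ∘ (fun x : Fin n → Fin d → ℝ => x i) := rfl
      rw [this, ← Measure.map_map hesm (measurable_pi_apply i), hmarg i, hQdef,
        Measure.map_map hesm hem]
      have : e.symm ∘ e = id := by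
        ext x; simp
      rw [this, Measure.map_id]
    · have hS : MeasurableSet {x : Fin n → E d | ∑ i, x i = 0} := by
        have : IsClosed {x : Fin n → E d | ∑ i, x i = 0} :=
          isClosed_eq (by fun_prop) continuous_const
        exact this.measurableSet
      rw [ae_map_iff hΦ.aemeasurable hS]
      filter_upwards [hsum] with x hx
      rw [← map_sum, hx, map_zero]
  · push Not at H
    obtain ⟨g, hg1, hg2⟩ := H
    set g' : E d → ℝ := fun x => g (e x) with hg'
    have hg'c : Continuous g' := g.continuous.comp e.continuous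
    have hQint : ∫ x, g x ∂Q = ∫ x, g' x ∂(μ : Measure (E d)) := by
      rw [hQdef, integral_map hem.aemeasurable g.continuous.aestronglyMeasurable]
    rw [hQint] at hg2
    set η := -∫ x, g' x ∂(μ : Measure (E d)) with hη
    have hη0 : 0 < η := by rw [hη]; linarith
    obtain ⟨h, L, hLip, hh⟩ := DualLip.exists_lip hKc hKne hg'c (δ := η / 2) (by linarith)
    refine ⟨fun x => -(h x + η / 2), L, ?_, ?_, ?_⟩
    · refine LipschitzWith.of_dist_le_mul fun x y => ?_
      have := hLip.dist_le_mul x y
      rw [Real.dist_eq] at this ⊢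
      have e1 : -(h x + η / 2) - -(h y + η / 2) = -(h x - h y) := by ring
      rw [e1, abs_neg]
      exact this
    · intro x hx hs
      have h1 : 0 ≤ ∑ i, g (e (x i)) := by
        refine hg1 (fun i => e (x i)) ⟨fun i => ⟨x i, hx i, rfl⟩, ?_⟩
        rw [← map_sum, hs, map_zero]
      have h2 : ∑ l, -(h (x l) + η / 2) ≤ ∑ l, -(g (e (x l))) := by
        refine Finset.sum_le_sum fun l _ => ?_
        have := (hh (x l) (hx l)).1
        simp only [hg'] at this
        linarith
      have h3 : ∑ l, -(g (e (x l))) = -∑ l, g (e (x l)) := by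
        rw [Finset.sum_neg_distrib]
      rw [h3] at h2
      linarith
    · obtain ⟨M, hM⟩ := hKc.exists_bound_of_continuousOn hg'c.continuousOn
      obtain ⟨M', hM'⟩ := hKc.exists_bound_of_continuousOn hLip.continuous.continuousOn
      have i1 : Integrable g' (μ : Measure (E d)) := by
        refine Integrable.of_bound hg'c.aestronglyMeasurable M ?_
        filter_upwards [hKae] with x hx using hM x hx
      have i2 : Integrable h (μ : Measure (E d)) := by
        refine Integrable.of_bound hLip.continuous.aestronglyMeasurable M' ?_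
        filter_upwards [hKae] with x hx using hM' x hx
      have h3 : ∫ x, h x ∂(μ : Measure (E d)) ≤ ∫ x, g' x ∂(μ : Measure (E d)) := by
        refine integral_mono_ae i2 i1 ?_
        filter_upwards [hKae] with x hx using (hh x hx).2
      rw [integral_neg, integral_add i2 (integrable_const _), integral_const]
      simp only [probReal_univ, smul_eq_mul, one_mul]
      linarith

end Pool.Agent.Lib.MP_a34d76_pr.Quad
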