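import Mathlib
import Pool.Agent.Lib.MP_a34d76_pr.Quad.Defs

set_option autoImplicit false

open MeasureTheory Filter Topology Set
open scoped NNReal ENNReal

namespace Pool.Agent.Lib.MP_a34d76_pr.Quad

namespace Ext

variable {F : Type*} [NormedAddCommGroup F] [InnerProductSpace ℝ F]

theorem lowDim_of_extreme {G : Set F} {u : F} (hu : u ∈ G.extremePoints ℝ) : LowDim G u 0 := by
  refine ⟨⊥, by simp, fun v h1 h2 => ?_⟩
  rw [Submodule.mem_bot]
  have hmem := mem_extremePoints.mp hu
  have hseg : u ∈ openSegment ℝ (u + v) (u - v) := by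
    refine ⟨1 / 2, 1 / 2, by norm_num, by norm_num, by norm_num, ?_⟩
    rw [← smul_add]
    have : u + v + (u - v) = (2 : ℝ) • u := by rw [two_smul]; abel
    rw [this, smul_smul]
    norm_num
  have := (hmem.2 _ h1 _ h2 hseg).1
  simpa using this

theorem mem_interior_hull [FiniteDimensional ℝ F] {G : Set F} (hG : Convex ℝ G)
    (hGc : IsCompact G) (h0 : (0 : F) ∈ interior G) :
    (0 : F) ∈ convexHull ℝ (G.extremePoints ℝ) := by
  set K := convexHull ℝ (G.extremePoints ℝ) with hK
  have hKc : Convex ℝ K := convex_convexHull ℝ _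
  have hcl : closure K = G := closure_convexHull_extremePoints hGc hG
  have hspan : affineSpan ℝ K = ⊤ := by
    have hGspan : affineSpan ℝ G = ⊤ := (hG.interior_nonempty_iff_affineSpan_eq_top).mp ⟨0, h0⟩
    have hle : G ⊆ (affineSpan ℝ K : Set F) := by
      rw [← hcl]
      exact closure_minimal (subset_affineSpan ℝ K) (AffineSubspace.closed_of_finiteDimensional _)
    rw [eq_top_iff, ← hGspan]
    exact affineSpan_le.mpr hle
  have hne : (interior K).Nonempty := (hKc.interior_nonempty_iff_affineSpan_eq_top).mpr hspan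
  have := hKc.interior_closure_eq_interior_of_nonempty_interior hne
  rw [hcl] at this
  rw [this] at h0
  exact interior_subset h0

end Ext

open Ext in
theorem exists_extreme {F : Type*} [NormedAddCommGroup F] [InnerProductSpace ℝ F]
    [FiniteDimensional ℝ F] (hF : 1 ≤ Module.finrank ℝ F) {G : Set F} (hG : Convex ℝ G)
    (hGc : IsCompact G) (h0 : (0 : F) ∈ interior G) {m : ℝ} (hm : (Module.finrank ℝ F : ℝ) < m) :
    ∃ u ∈ G, LowDim G u 0 ∧ -((1 / m) • u) ∈ interior G := by
  obtain ⟨ι, hι, x, w, hx, haff, hw, hw1, hsum⟩ :=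
    eq_pos_convex_span_of_mem_convexHull (mem_interior_hull hG hGc h0)
  have hmpos : 0 < m := lt_of_le_of_lt (Nat.cast_nonneg _) hm
  have hcard : Fintype.card ι ≤ Module.finrank ℝ F + 1 :=
    haff.card_le_finrank_succ.trans (Nat.add_le_add_right (Submodule.finrank_le _) 1)
  -- the largest weight
  have hbig : ∃ l, 1 / ((Module.finrank ℝ F : ℝ) + 1) ≤ w l := by
    by_contra hc
    push Not at hc
    have hne : (Finset.univ : Finset ι).Nonempty := by
      by_contra hn
      rw [Finset.not_nonempty_iff_eq_empty] at hn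
      rw [hn] at hw1
      simp at hw1
    have hlt := Finset.sum_lt_sum_of_nonempty hne (fun i _ => hc i)
    rw [hw1] at hlt
    simp only [Finset.sum_const, Finset.card_univ, nsmul_eq_mul] at hlt
    have hc' : (Fintype.card ι : ℝ) ≤ (Module.finrank ℝ F : ℝ) + 1 := by exact_mod_cast hcard
    have hp : (0 : ℝ) < (Module.finrank ℝ F : ℝ) + 1 := by positivity
    have : (Fintype.card ι : ℝ) * (1 / ((Module.finrank ℝ F : ℝ) + 1)) ≤ 1 := by
      rw [mul_one_div, div_le_one hp]
      exact hc'
    linarith
  obtain ⟨l, hl⟩ := hbig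
  have hextr : x l ∈ G.extremePoints ℝ := hx ⟨l, rfl⟩
  have hxG : ∀ i, x i ∈ G := fun i => extremePoints_subset (hx ⟨i, rfl⟩)
  refine ⟨x l, hxG l, lowDim_of_extreme hextr, ?_⟩
  classical
  have hwl1 : w l ≤ 1 := by
    rw [← hw1]
    exact Finset.single_le_sum (fun i _ => (hw i).le) (Finset.mem_univ l)
  have h0G : (0 : F) ∈ G := interior_subset h0
  have hsplit : ∑ i ∈ Finset.univ.erase l, w i • x i = -(w l • x l) := by
    have := Finset.add_sum_erase Finset.univ (fun i => w i • x i) (Finset.mem_univ l)
    rw [hsum] at this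
    rw [eq_neg_iff_add_eq_zero, add_comm]
    exact this
  have hwsplit : ∑ i ∈ Finset.univ.erase l, w i = 1 - w l := by
    have := Finset.add_sum_erase Finset.univ w (Finset.mem_univ l)
    rw [hw1] at this
    linarith
  rcases eq_or_lt_of_le hwl1 with h1 | h1
  · -- the weight is one
    have hz : ∑ i ∈ Finset.univ.erase l, w i = 0 := by rw [hwsplit, h1]; ring
    have hempty : ∀ i ∈ Finset.univ.erase l, w i = 0 :=
      (Finset.sum_eq_zero_iff_of_nonneg (fun i _ => (hw i).le)).mp hz
    have : ∑ i ∈ Finset.univ.erase l, w i • x i = 0 :=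
      Finset.sum_eq_zero fun i hi => by rw [hempty i hi, zero_smul]
    rw [this, h1, one_smul] at hsplit
    have hx0 : x l = 0 := by
      rw [eq_comm, neg_eq_zero] at hsplit
      exact hsplit
    rw [hx0]
    simpa using h0
  · have hpos : 0 < 1 - w l := by linarith
    have hy : (1 - w l)⁻¹ • (-(w l • x l)) ∈ G := by
      rw [← hsplit, Finset.smul_sum]
      have hc := hG.sum_mem (t := Finset.univ.erase l) (w := fun i => (1 - w l)⁻¹ * w i)
        (z := x) (fun i _ => by have := (hw i).le; positivity)
        (by rw [← Finset.mul_sum, hwsplit, inv_mul_cancel₀ hpos.ne']) (fun i _ => hxG i)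
      convert hc using 2 with i
      rw [smul_smul]
    have hwl : 0 < w l := hw l
    set s : ℝ := (1 / m) * (1 - w l) / w l with hs
    have hs0 : 0 ≤ s := by positivity
    have hs1 : s < 1 := by
      rw [hs, div_lt_one hwl, one_div_mul_eq_div, div_lt_iff₀ hmpos]
      have hp : (0 : ℝ) < (Module.finrank ℝ F : ℝ) + 1 := by positivity
      have h2 : 1 ≤ w l * ((Module.finrank ℝ F : ℝ) + 1) := by
        rwa [div_le_iff₀ hp] at hl
      nlinarith
    have := hG.combo_interior_self_mem_interior h0 hy (a := 1 - s) (b := s) (by linarith) hs0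
      (by ring)
    convert this using 1
    rw [smul_zero, zero_add, smul_smul, smul_neg, smul_smul]
    congr 2
    rw [hs]
    field_simp

end Pool.Agent.Lib.MP_a34d76_pr.Quad
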