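import Pool.Agent.Lib.MP_a34d76_pr.Quad.Defs

/-!
# FF: the largest value of `∑ f (x l)` over tuples with given sum
-/

set_option autoImplicit false

open MeasureTheory Filter Topology Set
open scoped NNReal ENNReal

set_option linter.unusedVariables false

namespace Pool.Agent.Lib.MP_a34d76_pr.Quad

variable {d : ℕ} {R : ℝ}

namespace FFAux

theorem bdd {f : E d → ℝ} (hf : Continuous f) {Q : Set (E d)} (hQ : IsCompact Q) (k : ℕ)
    (z : E d) : BddAbove {t | ∃ x : Fin k → E d, (∀ l, x l ∈ Q) ∧ ∑ l, x l = (k : ℝ) • z ∧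
      t = ∑ l, f (x l)} := by
  obtain ⟨M, hM⟩ := (hQ.image hf).bddAbove
  refine ⟨∑ _l : Fin k, M, ?_⟩
  rintro t ⟨x, hx, -, rfl⟩
  exact Finset.sum_le_sum fun l _ => hM ⟨x l, hx l, rfl⟩

/-- the compact set of tuples -/
theorem compact_pi {Q : Set (E d)} (hQ : IsCompact Q) (k : ℕ) :
    IsCompact {x : Fin k → E d | ∀ l, x l ∈ Q} := isCompact_pi_infinite fun _ => hQ

end FFAux

open FFAux

theorem ff_ge {f : E d → ℝ} (hf : Continuous f) {Q : Set (E d)} (hQ : IsCompact Q) {k : ℕ}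
    {z : E d} {x : Fin k → E d} (hx : ∀ l, x l ∈ Q) (hs : ∑ l, x l = (k : ℝ) • z) :
    ∑ l, f (x l) ≤ FF f Q k z :=
  le_csSup (bdd hf hQ k z) ⟨x, hx, hs, rfl⟩

theorem ff_attained {f : E d → ℝ} (hf : Continuous f) {Q : Set (E d)} (hQ : IsCompact Q) (k : ℕ)
    {z : E d} (hz : z ∈ Q) :
    ∃ x : Fin k → E d, (∀ l, x l ∈ Q) ∧ ∑ l, x l = (k : ℝ) • z ∧ ∑ l, f (x l) = FF f Q k z := by
  have hc : IsCompact {x : Fin k → E d | (∀ l, x l ∈ Q) ∧ ∑ l, x l = (k : ℝ) • z} := by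
    refine (compact_pi hQ k).inter_right ?_
    exact isClosed_eq (continuous_finsetSum _ fun i _ => continuous_apply i) continuous_const
  have hne : {x : Fin k → E d | (∀ l, x l ∈ Q) ∧ ∑ l, x l = (k : ℝ) • z}.Nonempty :=
    ⟨fun _ => z, fun _ => hz, by rw [Finset.sum_const, Finset.card_univ, Fintype.card_fin,
      Nat.cast_smul_eq_nsmul]⟩
  have hcont : Continuous fun x : Fin k → E d => ∑ l, f (x l) :=
    continuous_finsetSum _ fun i _ => hf.comp (continuous_apply i)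
  obtain ⟨x, ⟨hx, hs⟩, hmax⟩ := hc.exists_isMaxOn hne hcont.continuousOn
  refine ⟨x, hx, hs, le_antisymm (ff_ge hf hQ hx hs) ?_⟩
  refine csSup_le ⟨_, x, hx, hs, rfl⟩ ?_
  rintro t ⟨y, hy, hys, rfl⟩
  exact hmax ⟨hy, hys⟩

theorem ff_usc {f : E d → ℝ} (hf : Continuous f) {Q : Set (E d)} (hQ : IsCompact Q) (k : ℕ)
    {z : E d} (hz : z ∈ Q) {ε : ℝ} (hε : 0 < ε) :
    ∃ δ > 0, ∀ z' ∈ Q, ‖z' - z‖ < δ → FF f Q k z' ≤ FF f Q k z + ε := by
  by_contra hcon
  push Not at hcon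
  have h1 : ∀ n : ℕ, ∃ z' ∈ Q, ‖z' - z‖ < 1 / ((n : ℝ) + 1) ∧
      FF f Q k z + ε < FF f Q k z' := fun n => hcon _ (by positivity)
  choose z' hz'Q hz' hFF using h1
  have h2 : ∀ n, ∃ x : Fin k → E d, (∀ l, x l ∈ Q) ∧ ∑ l, x l = (k : ℝ) • z' n ∧
      ∑ l, f (x l) = FF f Q k (z' n) := fun n => ff_attained hf hQ k (hz'Q n)
  choose x hxQ hxs hxF using h2
  obtain ⟨x₀, hx₀, φ, hφ, hlim⟩ := (compact_pi hQ k).tendsto_subseq (x := x) hxQ
  have hz'lim : Tendsto z' atTop (𝓝 z) := by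
    rw [tendsto_iff_norm_sub_tendsto_zero]
    exact squeeze_zero (fun n => norm_nonneg _) (fun n => (hz' n).le)
      tendsto_one_div_add_atTop_nhds_zero_nat
  have h3 : Tendsto (fun n => ∑ l, x (φ n) l) atTop (𝓝 (∑ l, x₀ l)) :=
    tendsto_finsetSum _ fun l _ => (tendsto_pi_nhds.mp hlim l)
  have h4 : Tendsto (fun n => ∑ l, x (φ n) l) atTop (𝓝 ((k : ℝ) • z)) := by
    simp only [hxs]
    exact (hz'lim.comp hφ.tendsto_atTop).const_smul _
  have h5 : Tendsto (fun n => ∑ l, f (x (φ n) l)) atTop (𝓝 (∑ l, f (x₀ l))) :=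
    tendsto_finsetSum _ fun l _ => (hf.tendsto _).comp (tendsto_pi_nhds.mp hlim l)
  have h6 : FF f Q k z + ε ≤ ∑ l, f (x₀ l) := by
    refine ge_of_tendsto' h5 fun n => ?_
    rw [hxF]
    exact (hFF _).le
  have h7 := ff_ge hf hQ hx₀ (tendsto_nhds_unique h3 h4)
  linarith

theorem ff_cm {f : E d → ℝ} (hf : Continuous f) {Q : Set (E d)} (hQ : IsCompact Q) {k : ℕ}
    (hk : 1 ≤ k) (ξ : Measure (E d)) [IsProbabilityMeasure ξ] (hξ : ∀ᵐ x ∂ξ, x ∈ Q)
    (h : CM k ξ) : (k : ℝ) * ∫ x, f x ∂ξ ≤ FF f Q k (∫ x, x ∂ξ) := by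
  obtain ⟨P, hP, hmarg, c, hc⟩ := h
  have hmeas : ∀ i : Fin k, AEMeasurable (fun x : Fin k → E d => x i) P := fun i =>
    (measurable_pi_apply i).aemeasurable
  have hint : ∀ {F : Type} [NormedAddCommGroup F] (g : E d → F), Continuous g →
      Integrable g ξ := by
    intro F _ g hg
    have h1 : IntegrableOn g Q ξ := hg.continuousOn.integrableOn_compact hQ
    rwa [IntegrableOn, Measure.restrict_eq_self_of_ae_mem hξ] at h1
  have hintP : ∀ {F : Type} [NormedAddCommGroup F] (g : E d → F), Continuous g →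
      ∀ i, Integrable (fun x : Fin k → E d => g (x i)) P := by
    intro F _ g hg i
    have h1 := hint g hg
    rw [← hmarg i] at h1
    exact h1.comp_aemeasurable (hmeas i)
  have hmap : ∀ {F : Type} [NormedAddCommGroup F] [NormedSpace ℝ F] (g : E d → F),
      Continuous g → ∀ i, ∫ x : Fin k → E d, g (x i) ∂P = ∫ x, g x ∂ξ := by
    intro F _ _ g hg i
    rw [← hmarg i, integral_map (hmeas i)]
    rw [hmarg i]
    exact (hint g hg).aestronglyMeasurable
  -- the constant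
  have hc' : c = (k : ℝ) • ∫ x, x ∂ξ := by
    have h1 : ∫ x : Fin k → E d, ∑ i, x i ∂P = c := by
      rw [integral_congr_ae hc, integral_const, probReal_univ, one_smul]
    rw [integral_finsetSum _ fun i _ => hintP (fun x => x) continuous_id i] at h1
    simp only [hmap (fun x : E d => x) continuous_id] at h1
    rw [Finset.sum_const, Finset.card_univ, Fintype.card_fin, ← Nat.cast_smul_eq_nsmul ℝ] at h1
    exact h1.symm
  have hQa : ∀ᵐ x ∂P, ∀ i, x i ∈ Q := by
    rw [ae_all_iff]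
    intro i
    have h1 := hξ
    rw [← hmarg i] at h1
    exact ae_of_ae_map (hmeas i) h1
  have hle : ∀ᵐ x ∂P, ∑ i, f (x i) ≤ FF f Q k (∫ x, x ∂ξ) := by
    filter_upwards [hc, hQa] with x h1 h2
    exact ff_ge hf hQ h2 (h1.trans hc')
  have h2 := integral_mono_ae (integrable_finsetSum _ fun i _ => hintP f hf i)
    (integrable_const (FF f Q k (∫ x, x ∂ξ))) hle
  rw [integral_finsetSum _ fun i _ => hintP f hf i, integral_const, probReal_univ,
    one_smul] at h2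
  simp only [hmap f hf] at h2
  rw [Finset.sum_const, Finset.card_univ, Fintype.card_fin, nsmul_eq_mul] at h2
  exact h2

theorem ff_neg {f : E d → ℝ} (hf : Continuous f) {Q : Set (E d)} (hQ : IsCompact Q) {n : ℕ}
    (hfeas : ∀ x : Fin n → E d, (∀ l, x l ∈ Q) → ∑ l, x l = 0 → ∑ l, f (x l) ≤ 0)
    (L : List (ℕ × E d)) (hL : ∀ p ∈ L, p.2 ∈ Q) (hn : (L.map Prod.fst).sum = n)
    (hs : (L.map (fun p => (p.1 : ℝ) • p.2)).sum = 0) :
    (L.map (fun p => FF f Q p.1 p.2)).sum ≤ 0 := by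
  have key : ∀ (L : List (ℕ × E d)) (m : ℕ), (L.map Prod.fst).sum = m → (∀ p ∈ L, p.2 ∈ Q) →
      ∃ x : Fin m → E d, (∀ l, x l ∈ Q) ∧
        ∑ l, x l = (L.map (fun p => (p.1 : ℝ) • p.2)).sum ∧
        ∑ l, f (x l) = (L.map (fun p => FF f Q p.1 p.2)).sum := by
    intro L
    induction L with
    | nil =>
      intro m hm _
      obtain rfl : m = 0 := by rw [← hm]; rfl
      exact ⟨fun l => l.elim0, fun l => l.elim0, by simp, by simp⟩
    | cons p L ih =>
      intro m hm hp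
      obtain ⟨y, hy, hys, hyf⟩ := ih _ rfl fun q hq => hp q (List.mem_cons_of_mem _ hq)
      obtain ⟨x, hx, hxs, hxf⟩ := ff_attained hf hQ p.1 (hp p List.mem_cons_self)
      rw [List.map_cons, List.sum_cons] at hm
      subst hm
      refine ⟨Fin.append x y, ?_, ?_, ?_⟩
      · intro l
        refine Fin.addCases (fun i => ?_) (fun i => ?_) l
        · rw [Fin.append_left]; exact hx i
        · rw [Fin.append_right]; exact hy i
      · rw [List.map_cons, List.sum_cons, ← hxs, ← hys, Fin.sum_univ_add]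
        simp only [Fin.append_left, Fin.append_right]
      · rw [List.map_cons, List.sum_cons, ← hxf, ← hyf, Fin.sum_univ_add]
        simp only [Fin.append_left, Fin.append_right]
  obtain ⟨x, hx, hxs, hxf⟩ := key L n hn hL
  rw [← hxf]
  exact hfeas x hx (hxs.trans hs)

end Pool.Agent.Lib.MP_a34d76_pr.Quad
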