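import Pool.Agent.Lib.MP_a34d76_pr.Quad.FF

/-!
# GOODCLOSED: the set of good points is closed
-/

set_option autoImplicit false

open MeasureTheory Filter Topology Set
open scoped NNReal ENNReal

namespace Pool.Agent.Lib.MP_a34d76_pr.Quad

variable {d : ℕ} {R : ℝ}

theorem good_closed {f : E d → ℝ} (hf : Continuous f) {Q : Set (E d)} (hQ : IsCompact Q) (k : ℕ)
    (μs : ProbabilityMeasure (E d)) : IsClosed {z | z ∈ Q ∧ Good R Q f μs k z} := by
  refine isClosed_of_closure_subset fun z hz => ?_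
  have hzQ : z ∈ Q := by
    have h1 := closure_mono (show {z | z ∈ Q ∧ Good R Q f μs k z} ⊆ Q from fun z h => h.1) hz
    rwa [hQ.isClosed.closure_eq] at h1
  refine ⟨hzQ, fun θ hθ => ?_⟩
  obtain ⟨δ, hδ, hF⟩ := ff_usc hf hQ k hzQ (half_pos hθ)
  obtain ⟨z', ⟨hz'Q, hgood⟩, hd⟩ := Metric.mem_closure_iff.mp hz (min δ (θ / 2))
    (lt_min hδ (half_pos hθ))
  have hzz : ‖z' - z‖ < min δ (θ / 2) := by
    rw [← dist_eq_norm, dist_comm]; exact hd
  obtain ⟨t₀, ht₀, ht₁, h⟩ := hgood (θ / 2) (half_pos hθ)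
  refine ⟨t₀, ht₀, ht₁, fun μ hμ s hs hle t ht => ?_⟩
  obtain ⟨ξ, μ', hsp, h1, h2⟩ := h μ hμ s hs hle t ht
  refine ⟨ξ, μ', hsp, ?_, ?_⟩
  · have h3 : (∫ x, x ∂(ξ : Measure (E d))) - z =
        ((∫ x, x ∂(ξ : Measure (E d))) - z') + (z' - z) := by abel
    rw [h3]
    have h4 := norm_add_le ((∫ x, x ∂(ξ : Measure (E d))) - z') (z' - z)
    have h5 := hzz.trans_le (min_le_right _ _)
    linarith
  · have h3 := hF z' hz'Q (hzz.trans_le (min_le_left _ _))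
    linarith

end Pool.Agent.Lib.MP_a34d76_pr.Quad
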