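import Pool.Agent.Lib.MP_a34d76_pr.Quad.Defs
import Pool.Agent.Lib.MP_a34d76_pr.Envelope

set_option autoImplicit false

open MeasureTheory Filter Topology Set
open scoped NNReal ENNReal

namespace Pool.Agent.Lib.MP_a34d76_pr.Quad

variable {d : ℕ} {R : ℝ}

theorem hull_compact {μ : ProbabilityMeasure (E d)}
    (hball : ∀ᵐ x ∂(μ : Measure (E d)), x ∈ Metric.closedBall (0 : E d) R) :
    IsCompact (convexHull ℝ (μ : Measure (E d)).support) := by
  refine isCompact_hull ?_
  refine (isCompact_closedBall (0 : E d) R).of_isClosed_subset Measure.isClosed_support ?_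
  exact Measure.support_subset_of_isClosed Metric.isClosed_closedBall hball

theorem hull_ae {μ : ProbabilityMeasure (E d)} :
    ∀ᵐ x ∂(μ : Measure (E d)), x ∈ convexHull ℝ (μ : Measure (E d)).support := by
  have h : (μ : Measure (E d)).support ∈ ae (μ : Measure (E d)) := Measure.support_mem_ae
  exact Filter.mem_of_superset h (subset_convexHull ℝ _)

theorem hull_subset {μ : ProbabilityMeasure (E d)} {K : Set (E d)} (hK : Convex ℝ K)
    (hKc : IsClosed K) (h : ∀ᵐ x ∂(μ : Measure (E d)), x ∈ K) :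
    convexHull ℝ (μ : Measure (E d)).support ⊆ K :=
  convexHull_min (Measure.support_subset_of_isClosed hKc h) hK

/-- if `0` is the centroid and no direction of `V` is orthogonal to `μ` then `0` is interior -/
theorem hull_interior {μ : ProbabilityMeasure (E d)} {V : Submodule ℝ (E d)}
    (hball : ∀ᵐ x ∂(μ : Measure (E d)), x ∈ Metric.closedBall (0 : E d) R)
    (hV : ∀ᵐ x ∂(μ : Measure (E d)), x ∈ V) (h0 : ∫ x, x ∂(μ : Measure (E d)) = 0)
    (h : ∀ u ∈ V, (∀ᵐ x ∂(μ : Measure (E d)), inner ℝ u x = 0) → u = 0) :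
    ∃ ρ : ℝ, 0 < ρ ∧ ∀ v ∈ V, ‖v‖ ≤ ρ → v ∈ convexHull ℝ (μ : Measure (E d)).support := by
  set G := convexHull ℝ (μ : Measure (E d)).support with hG
  have hGconv : Convex ℝ G := convex_convexHull ℝ _
  have hGcomp : IsCompact G := hull_compact hball
  have hGae : ∀ᵐ x ∂(μ : Measure (E d)), x ∈ G := hull_ae
  have hVc : IsClosed (V : Set (E d)) := V.closed_of_finiteDimensional
  have hGV : G ⊆ (V : Set (E d)) := hull_subset V.convex hVc hV
  have hint : Integrable (fun x : E d => x) (μ : Measure (E d)) := by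
    refine Integrable.of_bound measurable_id.aestronglyMeasurable R ?_
    filter_upwards [hball] with x hx
    simpa using hx
  -- every direction of `V` is positive somewhere
  have hpos : ∀ u ∈ V, u ≠ 0 → ∃ g ∈ G, 0 < inner ℝ u g := by
    intro u hu hu0
    by_contra hc
    push Not at hc
    apply hu0
    apply h u hu
    have hle : ∀ᵐ x ∂(μ : Measure (E d)), 0 ≤ -inner ℝ u x := by
      filter_upwards [hGae] with x hx
      have := hc x hx
      linarith
    have hI : ∫ x, -inner ℝ u x ∂(μ : Measure (E d)) = 0 := by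
      rw [integral_neg, integral_inner hint u, h0, inner_zero_right, neg_zero]
    have := (integral_eq_zero_iff_of_nonneg_ae hle (hint.const_inner u).neg).mp hI
    filter_upwards [this] with x hx
    simpa using hx
  -- compactness of the sphere
  have hsph : IsCompact (Metric.sphere (0 : E d) 1 ∩ (V : Set (E d))) :=
    (isCompact_sphere 0 1).inter_right hVc
  obtain ⟨n, hn⟩ := hsph.elim_directed_cover
    (fun n : ℕ => {u : E d | ∃ g ∈ G, 1 / ((n : ℝ) + 1) < inner ℝ u g})
    (fun n => by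
      have : {u : E d | ∃ g ∈ G, 1 / ((n : ℝ) + 1) < inner ℝ u g} =
          ⋃ g ∈ G, {u : E d | 1 / ((n : ℝ) + 1) < inner ℝ u g} := by
        ext u; simp
      rw [this]
      exact isOpen_biUnion fun g _ => isOpen_lt (by fun_prop) (by fun_prop))
    (by
      rintro u ⟨hu1, hu2⟩
      have hu0 : u ≠ 0 := by
        rintro rfl
        simp at hu1
      obtain ⟨g, hg, hgp⟩ := hpos u hu2 hu0
      obtain ⟨n, hn⟩ := exists_nat_one_div_lt hgp
      exact mem_iUnion.mpr ⟨n, g, hg, hn⟩)
    (by
      intro a b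
      refine ⟨max a b, ?_, ?_⟩
      · rintro u ⟨g, hg, hlt⟩
        refine ⟨g, hg, lt_of_le_of_lt ?_ hlt⟩
        apply one_div_le_one_div_of_le (by positivity)
        have : (a : ℝ) ≤ (max a b : ℕ) := by exact_mod_cast le_max_left a b
        linarith
      · rintro u ⟨g, hg, hlt⟩
        refine ⟨g, hg, lt_of_le_of_lt ?_ hlt⟩
        apply one_div_le_one_div_of_le (by positivity)
        have : (b : ℝ) ≤ (max a b : ℕ) := by exact_mod_cast le_max_right a b
        linarith)
  refine ⟨1 / ((n : ℝ) + 1), by positivity, fun v hv hvn => ?_⟩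
  by_contra hvG
  obtain ⟨f, c, hfc, hcv⟩ := geometric_hahn_banach_closed_point hGconv hGcomp.isClosed hvG
  set w := (InnerProductSpace.toDual ℝ (E d)).symm f with hw
  have hfw : ∀ x, f x = inner ℝ w x := fun x => by
    rw [hw, InnerProductSpace.toDual_symm_apply]
  set w' : E d := V.starProjection w with hw'
  have hw'V : w' ∈ V := V.starProjection_apply_mem w
  have hfw' : ∀ x ∈ V, f x = inner ℝ w' x := by
    intro x hx
    rw [hfw x]
    have := V.starProjection_inner_eq_zero w x hx
    rw [inner_sub_left] at this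
    linarith
  have hlt : ∀ g ∈ G, inner ℝ w' g < inner ℝ w' v := by
    intro g hg
    rw [← hfw' g (hGV hg), ← hfw' v hv]
    exact (hfc g hg).trans hcv
  have hw'0 : w' ≠ 0 := by
    intro h0'
    obtain ⟨g, hg⟩ : G.Nonempty := by
      obtain ⟨x, hx⟩ := hGae.exists
      exact ⟨x, hx⟩
    have := hlt g hg
    rw [h0'] at this
    simp at this
  have hnorm : 0 < ‖w'‖ := norm_pos_iff.mpr hw'0
  obtain ⟨g, hg, hgn⟩ := hn (a := ‖w'‖⁻¹ • w') ⟨by
    rw [mem_sphere_zero_iff_norm, norm_smul, norm_inv, norm_norm, inv_mul_cancel₀ hnorm.ne'],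
    V.smul_mem _ hw'V⟩
  have h1 := hlt g hg
  have h2 : inner ℝ w' v ≤ ‖w'‖ * ‖v‖ := real_inner_le_norm _ _
  rw [real_inner_smul_left, inv_mul_eq_div, lt_div_iff₀ hnorm] at hgn
  have h3 : ‖w'‖ * ‖v‖ ≤ ‖w'‖ * (1 / ((n : ℝ) + 1)) := mul_le_mul_of_nonneg_left hvn hnorm.le
  linarith [mul_comm (1 / ((n : ℝ) + 1)) ‖w'‖]

end Pool.Agent.Lib.MP_a34d76_pr.Quad
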