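import Pool.Agent.Lib.MP_a34d76_pr.Quad.Maxi
import Pool.Agent.Lib.MP_a34d76_pr.Quad.FF
import Pool.Agent.Lib.MP_a34d76_pr.Quad.Cap2
import Pool.Agent.Lib.MP_a34d76_pr.Quad.Bary
import Pool.Agent.Lib.MP_a34d76_pr.Quad.Hull

/-!
# GOODLOW: points in low-dimensional faces are good
-/

set_option autoImplicit false

open MeasureTheory Filter Topology Set
open scoped NNReal ENNReal

namespace Pool.Agent.Lib.MP_a34d76_pr.Quad

variable {d : ℕ} {R : ℝ}

namespace GoodLow

/-- a supporting functional at a point which is not in the relative interior -/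
theorem exists_functional {V W : Submodule ℝ (E d)} {G : Set (E d)} (hG : Convex ℝ G)
    (hGV : ∀ x ∈ G, x ∈ V) {ρ : ℝ} (hρ : 0 < ρ) (hint : ∀ v ∈ V, ‖v‖ ≤ ρ → v ∈ G) {z : E d}
    (hz : z ∈ G) (hVW : ¬ V ≤ W) (hW : ∀ v, z + v ∈ G → z - v ∈ G → v ∈ W) :
    ∃ u₀ ∈ V, inner ℝ u₀ z = 1 ∧ ∀ x ∈ G, inner ℝ u₀ x ≤ 1 := by
  let G' : Set V := {x : V | (x : E d) ∈ G}
  have hG' : Convex ℝ G' := hG.linear_preimage V.subtype
  let z' : V := ⟨z, hGV z hz⟩
  have h0 : (0 : V) ∈ interior G' := by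
    rw [mem_interior_iff_mem_nhds]
    refine mem_of_superset (Metric.closedBall_mem_nhds (0 : V) hρ) fun x hx => ?_
    rw [mem_closedBall_zero_iff] at hx
    exact hint x x.2 hx
  have hz' : z' ∉ interior G' := by
    intro h
    rw [mem_interior_iff_mem_nhds, Metric.mem_nhds_iff] at h
    obtain ⟨r, hr, hball⟩ := h
    refine hVW fun v hv => ?_
    by_cases hv0 : v = 0
    · rw [hv0]; exact W.zero_mem
    have hvn : 0 < ‖v‖ := norm_pos_iff.mpr hv0
    set c : ℝ := r / (2 * ‖v‖) with hc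
    have hcpos : 0 < c := by positivity
    have hcv : ‖c • v‖ < r := by
      rw [norm_smul, Real.norm_of_nonneg hcpos.le, hc]
      have : r / (2 * ‖v‖) * ‖v‖ = r / 2 := by field_simp
      rw [this]; linarith
    have hmem : ∀ w ∈ V, ‖w‖ < r → z + w ∈ G := by
      intro w hw hwr
      have h1 : z' + ⟨w, hw⟩ ∈ Metric.ball z' r := by
        rw [mem_ball_iff_norm, add_sub_cancel_left]
        exact hwr
      exact hball h1
    have h1 : c • v ∈ W := by
      refine hW _ (hmem _ (V.smul_mem c hv) hcv) ?_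
      rw [sub_eq_add_neg]
      exact hmem _ (V.neg_mem (V.smul_mem c hv)) (by rwa [norm_neg])
    exact (W.smul_mem_iff hcpos.ne').mp h1
  obtain ⟨f, hf⟩ := geometric_hahn_banach_open_point hG'.interior isOpen_interior hz'
  have hpos : 0 < f z' := by
    have := hf 0 h0
    rwa [map_zero] at this
  have hle : ∀ x ∈ G', f x ≤ f z' := by
    intro x hx
    have h1 : x ∈ closure (interior G') := by
      rw [hG'.closure_interior_eq_closure_of_nonempty_interior ⟨0, h0⟩]
      exact subset_closure hx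
    have h2 : closure (interior G') ⊆ {x | f x ≤ f z'} :=
      closure_minimal (fun a ha => (hf a ha).le) (isClosed_le f.continuous continuous_const)
    exact h2 h1
  set u : V := (InnerProductSpace.toDual ℝ V).symm f with hu
  have hin : ∀ x : V, inner ℝ (u : E d) (x : E d) = f x := by
    intro x
    have : inner ℝ u x = f x := InnerProductSpace.toDual_symm_apply
    exact this
  refine ⟨(f z')⁻¹ • (u : E d), V.smul_mem _ u.2, ?_, fun x hx => ?_⟩
  · rw [real_inner_smul_left]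
    have := hin z'
    change inner ℝ (u : E d) z = f z' at this
    rw [this, inv_mul_cancel₀ hpos.ne']
  · rw [real_inner_smul_left]
    have h1 := hin ⟨x, hGV x hx⟩
    change inner ℝ (u : E d) x = _ at h1
    rw [h1, inv_mul_le_iff₀ hpos, mul_one]
    exact hle _ hx

/-- a linear functional on a hull is at most its value at some generator -/
theorem exists_ge {S : Set (E d)} {x : E d} (hx : x ∈ convexHull ℝ S) (u : E d) :
    ∃ y ∈ S, inner ℝ u x ≤ inner ℝ u y := by
  have h1 : ConvexOn ℝ (convexHull ℝ S) (fun y : E d => inner ℝ u y) := by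
    refine ⟨convex_convexHull ℝ S, fun x _ y _ a b _ _ _ => ?_⟩
    change inner ℝ u (a • x + b • y) ≤ a • inner ℝ u x + b • inner ℝ u y
    rw [inner_add_right, real_inner_smul_right, real_inner_smul_right]
    exact le_rfl
  exact h1.exists_ge_of_mem_convexHull (subset_convexHull ℝ S) hx

/-- finitely many points whose hull contains `z` and a ball -/
theorem exists_points {V : Submodule ℝ (E d)} {S : Set (E d)} {ρ : ℝ} (hρ : 0 < ρ)
    (hint : ∀ v ∈ V, ‖v‖ ≤ ρ → v ∈ convexHull ℝ S) {z : E d} (hz : z ∈ convexHull ℝ S) :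
    ∃ T : Finset (E d), (∀ x ∈ T, x ∈ S) ∧
      (∀ u ∈ V, ∃ l ∈ T, ρ / 2 * ‖u‖ ≤ inner ℝ u l) ∧
      ∀ u ∈ V, inner ℝ u z = 1 → ∃ l ∈ T, 1 ≤ inner ℝ u l := by
  classical
  rw [convexHull_eq_union_convexHull_finite_subsets] at hz
  simp only [mem_iUnion] at hz
  obtain ⟨t, htS, hzt⟩ := hz
  have hK : IsCompact ((V : Set (E d)) ∩ Metric.sphere 0 1) :=
    (isCompact_sphere (0 : E d) 1).inter_left V.closed_of_finiteDimensional
  obtain ⟨b, hb⟩ := hK.elim_finite_subcover (fun s : S => {u : E d | ρ / 2 < inner ℝ u (s : E d)})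
    (fun s => isOpen_lt continuous_const (continuous_id.inner continuous_const)) (by
      rintro u ⟨huV, hu⟩
      rw [mem_sphere_zero_iff_norm] at hu
      have h1 : ρ • u ∈ convexHull ℝ S := by
        refine hint _ (V.smul_mem ρ huV) ?_
        rw [norm_smul, Real.norm_of_nonneg hρ.le, hu, mul_one]
      obtain ⟨s, hs, hle⟩ := exists_ge h1 u
      rw [real_inner_smul_right, real_inner_self_eq_norm_sq, hu] at hle
      rw [mem_iUnion]
      refine ⟨⟨s, hs⟩, ?_⟩
      change ρ / 2 < inner ℝ u s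
      linarith)
  obtain ⟨x₀, hx₀⟩ : (t : Set (E d)).Nonempty := convexHull_nonempty_iff.mp ⟨z, hzt⟩
  refine ⟨t ∪ b.image Subtype.val, ?_, ?_, ?_⟩
  · intro x hx
    rcases Finset.mem_union.mp hx with h | h
    · exact htS h
    · obtain ⟨s, -, rfl⟩ := Finset.mem_image.mp h
      exact s.2
  · intro u hu
    by_cases hu0 : u = 0
    · exact ⟨x₀, Finset.mem_union_left _ hx₀, by rw [hu0, norm_zero, mul_zero, inner_zero_left]⟩
    have hn : 0 < ‖u‖ := norm_pos_iff.mpr hu0
    have h1 : (‖u‖⁻¹ • u) ∈ (V : Set (E d)) ∩ Metric.sphere 0 1 := by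
      refine ⟨V.smul_mem _ hu, ?_⟩
      rw [mem_sphere_zero_iff_norm, norm_smul, norm_inv, norm_norm, inv_mul_cancel₀ hn.ne']
    have h2 := hb h1
    simp only [mem_iUnion] at h2
    obtain ⟨s, hs, hlt⟩ := h2
    refine ⟨s, Finset.mem_union_right _ (Finset.mem_image_of_mem _ hs), ?_⟩
    change ρ / 2 < inner ℝ (‖u‖⁻¹ • u) (s : E d) at hlt
    rw [real_inner_smul_left, ← div_eq_inv_mul, lt_div_iff₀ hn] at hlt
    exact hlt.le
  · intro u hu huz
    obtain ⟨l, hl, hle⟩ := exists_ge hzt u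
    rw [huz] at hle
    exact ⟨l, Finset.mem_union_left _ hl, hle⟩

theorem tendsto_integral {g : E d → ℝ} (hg : Continuous g) {ν : ℕ → ProbabilityMeasure (E d)}
    {μ : ProbabilityMeasure (E d)} (hν : Tendsto ν atTop (𝓝 μ))
    (hb : ∀ j, ∀ᵐ x ∂(ν j : Measure (E d)), x ∈ Metric.closedBall (0 : E d) R)
    (hb' : ∀ᵐ x ∂(μ : Measure (E d)), x ∈ Metric.closedBall (0 : E d) R) :
    Tendsto (fun j => ∫ x, g x ∂(ν j : Measure (E d))) atTop
      (𝓝 (∫ x, g x ∂(μ : Measure (E d)))) := by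
  have h1 := Maxi.continuousOn_integral hg R μ hb'
  exact h1.tendsto.comp (tendsto_nhdsWithin_iff.mpr ⟨hν, Eventually.of_forall hb⟩)

theorem ae_of_smul_le {μ ν : Measure (E d)} {c : ℝ} (hc : 0 < c)
    (h : ENNReal.ofReal c • μ ≤ ν) {p : E d → Prop} (hp : ∀ᵐ x ∂ν, p x) : ∀ᵐ x ∂μ, p x := by
  rw [ae_iff] at hp ⊢
  have h1 := h {a | ¬ p a}
  rw [hp, Measure.smul_apply, smul_eq_mul, nonpos_iff_eq_zero, mul_eq_zero] at h1
  rcases h1 with h1 | h1
  · rw [ENNReal.ofReal_eq_zero] at h1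
    exact absurd h1 (not_le.mpr hc)
  · exact h1

/-- a measure which is almost all of another one -/
theorem measure_ge {μ ν : ProbabilityMeasure (E d)} {s : ℝ} (hs0 : 0 ≤ s) (hs1 : s < 1)
    (h : ENNReal.ofReal (1 - s) • (μ : Measure (E d)) ≤ (ν : Measure (E d))) {B : Set (E d)}
    (hB : MeasurableSet B) :
    (ν : Measure (E d)).real B ≤ s + (μ : Measure (E d)).real B := by
  have h1 : (1 - s) * (μ : Measure (E d)).real Bᶜ ≤ (ν : Measure (E d)).real Bᶜ := by
    have h2 := ENNReal.toReal_mono (measure_ne_top (ν : Measure (E d)) Bᶜ) (h Bᶜ)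
    rw [Measure.smul_apply, smul_eq_mul, ENNReal.toReal_mul,
      ENNReal.toReal_ofReal (by linarith)] at h2
    exact h2
  rw [probReal_compl_eq_one_sub hB, probReal_compl_eq_one_sub hB] at h1
  have h3 : (μ : Measure (E d)).real B ≤ 1 := measureReal_le_one
  have h4 : 0 ≤ (μ : Measure (E d)).real B := measureReal_nonneg
  nlinarith

end GoodLow

open GoodLow in
theorem good_low (hR : 0 < R) {V : Submodule ℝ (E d)} {μs : ProbabilityMeasure (E d)}
    (hμs : μs ∈ PP d R) (hV : ∀ᵐ x ∂(μs : Measure (E d)), x ∈ V) {ρ : ℝ} (hρ : 0 < ρ)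
    (hint : ∀ v ∈ V, ‖v‖ ≤ ρ → v ∈ convexHull ℝ (μs : Measure (E d)).support) {z : E d}
    (hz : z ∈ convexHull ℝ (μs : Measure (E d)).support) {W : Submodule ℝ (E d)}
    (hVW : ¬ V ≤ W)
    (hW : ∀ v, z + v ∈ convexHull ℝ (μs : Measure (E d)).support →
      z - v ∈ convexHull ℝ (μs : Measure (E d)).support → v ∈ W)
    {f : E d → ℝ} (hf : Continuous f) {k : ℕ} (hk : 1 ≤ k)
    (hcm : ∀ ξ : ProbabilityMeasure (E d), ξ ∈ PP d R →
      (∀ᵐ x ∂(ξ : Measure (E d)), x - z ∈ W) → CM k (ξ : Measure (E d))) :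
    Good R ((V : Set (E d)) ∩ Metric.closedBall 0 R) f μs k z := by
  set G := convexHull ℝ (μs : Measure (E d)).support with hGdef
  set Q : Set (E d) := (V : Set (E d)) ∩ Metric.closedBall 0 R with hQdef
  have hballs := pp_ball hμs
  have hVc : IsClosed (V : Set (E d)) := V.closed_of_finiteDimensional
  have hQc : IsCompact Q := (isCompact_closedBall (0 : E d) R).inter_left hVc
  have hG : Convex ℝ G := convex_convexHull ℝ _
  have hGc : IsCompact G := hull_compact hballs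
  have hGQ : G ⊆ Q := hull_subset (V.convex.inter (convex_closedBall 0 R)) hQc.isClosed (by
    filter_upwards [hV, hballs] with x h1 h2
    exact ⟨h1, h2⟩)
  have hGV : ∀ x ∈ G, x ∈ V := fun x hx => (hGQ hx).1
  have hGae : ∀ᵐ x ∂(μs : Measure (E d)), x ∈ G := hull_ae
  obtain ⟨u₀, hu₀V, hu₀z, hu₀G⟩ := exists_functional hG hGV hρ hint hz hVW hW
  obtain ⟨T, hTS, hT1, hT2⟩ := exists_points hρ hint hz
  by_contra hcon
  rw [Good] at hcon
  push Not at hcon
  obtain ⟨θ, hθ, hbad⟩ := hcon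
  -- the scales
  have hρ2 : 0 < ρ / 2 := half_pos hρ
  set δ : ℕ → ℝ := fun j => ρ / 2 / 2 / ((j : ℝ) + 1) with hδdef
  have hδpos : ∀ j, 0 < δ j := fun j => by rw [hδdef]; positivity
  have hδle : ∀ j, δ j ≤ ρ / 2 / 2 := fun j => by
    rw [hδdef]
    exact div_le_self (by positivity) (by linarith [Nat.cast_nonneg (α := ℝ) j])
  have hc : ∀ j, ∃ c : ℝ, 0 < c ∧ c < 1 ∧ ∀ l ∈ T,
      c < (μs : Measure (E d)).real (Metric.ball l (δ j)) := by
    intro j
    have h1 : ∀ l ∈ T, ∀ᶠ c in 𝓝[>] (0 : ℝ), c < (μs : Measure (E d)).real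
        (Metric.ball l (δ j)) := by
      intro l hl
      have h2 : 0 < (μs : Measure (E d)).real (Metric.ball l (δ j)) := by
        rw [measureReal_def]
        refine ENNReal.toReal_pos ?_ (measure_ne_top _ _)
        exact ((Measure.mem_support_iff_forall l).mp (hTS l hl) _
          (Metric.ball_mem_nhds l (hδpos j))).ne'
      exact mem_nhdsWithin_of_mem_nhds (Iio_mem_nhds h2)
    have h3 := (Filter.eventually_all_finset T).mpr h1
    have h4 : ∀ᶠ c in 𝓝[>] (0 : ℝ), c < 1 := mem_nhdsWithin_of_mem_nhds (Iio_mem_nhds one_pos)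
    have h5 : ∀ᶠ c in 𝓝[>] (0 : ℝ), 0 < c := self_mem_nhdsWithin
    obtain ⟨c, ⟨h6, h7⟩, h8⟩ := ((h3.and h4).and h5).exists
    exact ⟨c, h8, h7, h6⟩
  choose c hc0 hc1 hcT using hc
  have hb := fun j => hbad (c j / 2) (by have := hc0 j; positivity) (by have := hc1 j; linarith [hc0 j])
  choose μ hμ s hs hle t ht hno using hb
  have hs1 : ∀ j, s j < 1 := fun j => by
    have := (hs j).2; have := hc1 j; have := hc0 j; linarith
  have hae : ∀ j {p : E d → Prop}, (∀ᵐ x ∂(μs : Measure (E d)), p x) →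
      ∀ᵐ x ∂(μ j : Measure (E d)), p x := fun j p hp =>
    ae_of_smul_le (by have := hs1 j; linarith) (hle j) hp
  have hcap : ∀ j, ∃ ξ μ' : ProbabilityMeasure (E d), Splits R (μ j) ξ μ' (t j) ∧
      ∃ lam ∈ Icc (1 - 2 * δ j / (ρ / 2)) 1, (∫ x, x ∂(ξ : Measure (E d))) = lam • z := by
    intro j
    refine cap (hμ j) V (hae j hV) (hGV z hz) hu₀V hu₀z (hae j ?_) (fun l : T => (l : E d)) hρ2
      (hδpos j) (hδle j) (ht j).1 ?_ ?_ ?_ ?_
    · filter_upwards [hGae] with x hx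
      exact hu₀G x hx
    · have := (ht j).2; have := hc1 j; have := hc0 j; linarith
    · intro u hu
      obtain ⟨l, hl, h⟩ := hT1 u hu
      exact ⟨⟨l, hl⟩, h⟩
    · intro u hu huz
      obtain ⟨l, hl, h⟩ := hT2 u hu huz
      exact ⟨⟨l, hl⟩, h⟩
    · rintro ⟨l, hl⟩
      rw [ENNReal.ofReal_lt_iff_lt_toReal (ht j).1.le (measure_ne_top _ _)]
      have h1 := measure_ge (hs j).1 (hs1 j) (hle j) (Metric.isOpen_ball (x := l) (ε := δ j)).measurableSet
      have h2 := hcT j l hl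
      have h3 := (hs j).2
      have h4 := (ht j).2
      change t j < (μ j : Measure (E d)).real (Metric.ball l (δ j))
      linarith
  choose ξ μ' hsp lam hlam hcent using hcap
  have hξG : ∀ j, ∀ᵐ x ∂(ξ j : Measure (E d)), x ∈ G := by
    intro j
    refine ae_of_smul_le (ht j).1 (ν := (μ j : Measure (E d))) ?_ (hae j hGae)
    rw [(hsp j).2.2]
    exact Measure.le_add_right le_rfl
  have hξball : ∀ j, ∀ᵐ x ∂(ξ j : Measure (E d)), x ∈ Metric.closedBall (0 : E d) R := fun j =>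
    pp_ball (hsp j).1
  obtain ⟨ξ₀, hξ₀, φ, hφ, hlim⟩ := (pp_isCompact d R).tendsto_subseq (fun j => (hsp j).1)
  have hξ₀ball := pp_ball hξ₀
  have hlimint : ∀ {g : E d → ℝ}, Continuous g → Tendsto (fun j => ∫ x, g x ∂(ξ (φ j) :
      Measure (E d))) atTop (𝓝 (∫ x, g x ∂(ξ₀ : Measure (E d)))) := fun hg =>
    tendsto_integral hg hlim (fun j => hξball _) hξ₀ball
  have hδlim : Tendsto δ atTop (𝓝 0) := by
    have h1 := (tendsto_one_div_add_atTop_nhds_zero_nat (𝕜 := ℝ)).const_mul (ρ / 2 / 2)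
    rw [mul_zero] at h1
    refine h1.congr fun j => ?_
    rw [hδdef]; ring
  have hlamlim : Tendsto (fun j => lam (φ j)) atTop (𝓝 1) := by
    have h1 : Tendsto (fun j => 1 - 2 * δ (φ j) / (ρ / 2)) atTop (𝓝 1) := by
      have h2 := (((hδlim.comp hφ.tendsto_atTop).const_mul 2).div_const (ρ / 2)).const_sub 1
      simpa using h2
    exact tendsto_of_tendsto_of_tendsto_of_le_of_le h1 tendsto_const_nhds
      (fun j => (hlam _).1) (fun j => (hlam _).2)
  have hξ₀G : ∀ᵐ x ∂(ξ₀ : Measure (E d)), x ∈ G := by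
    rw [Maxi.ae_mem_iff hξ₀ball hGc.isClosed ⟨z, hz⟩]
    refine tendsto_nhds_unique (hlimint (Metric.continuous_infDist_pt G)) ?_
    have h1 : ∀ j, ∫ x, Metric.infDist x G ∂(ξ (φ j) : Measure (E d)) = 0 := fun j =>
      (Maxi.ae_mem_iff (hξball _) hGc.isClosed ⟨z, hz⟩).mp (hξG _)
    simp only [h1]
    exact tendsto_const_nhds
  have hinnint : ∀ (ν : ProbabilityMeasure (E d)),
      (∀ᵐ x ∂(ν : Measure (E d)), x ∈ Metric.closedBall (0 : E d) R) → ∀ v : E d,
      ∫ x, inner ℝ v x ∂(ν : Measure (E d)) = inner ℝ v (∫ x, x ∂(ν : Measure (E d))) :=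
    fun ν hν v => integral_inner (Maxi.integrable_of_ball continuous_id hν) v
  have hξ₀c : ∫ x, x ∂(ξ₀ : Measure (E d)) = z := by
    refine ext_inner_left ℝ fun v => ?_
    rw [← hinnint ξ₀ hξ₀ball v]
    refine tendsto_nhds_unique (hlimint (continuous_const.inner continuous_id)) ?_
    have h1 : ∀ j, ∫ x, inner ℝ v x ∂(ξ (φ j) : Measure (E d)) = lam (φ j) * inner ℝ v z := by
      intro j
      rw [hinnint _ (hξball _) v, hcent, real_inner_smul_right]
    change Tendsto (fun j => ∫ x, inner ℝ v x ∂(ξ (φ j) : Measure (E d))) atTop _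
    simp only [h1]
    simpa using hlamlim.mul_const (inner ℝ v z)
  have hξ₀W := bary hG hGc (ξ₀ : Measure (E d)) hξ₀G hW hξ₀c
  have hξ₀Q : ∀ᵐ x ∂(ξ₀ : Measure (E d)), x ∈ Q := by
    filter_upwards [hξ₀G] with x hx
    exact hGQ hx
  have hff := ff_cm hf hQc hk (ξ₀ : Measure (E d)) hξ₀Q (hcm ξ₀ hξ₀ hξ₀W)
  rw [hξ₀c] at hff
  -- contradiction for large `j`
  have h1 : ∀ᶠ j in atTop, (k : ℝ) * ∫ x, f x ∂(ξ (φ j) : Measure (E d)) < FF f Q k z + θ := by
    have h2 := (hlimint hf).const_mul (k : ℝ)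
    exact h2.eventually_lt_const (by linarith)
  have h2 : ∀ᶠ j in atTop, ‖(∫ x, x ∂(ξ (φ j) : Measure (E d))) - z‖ < θ := by
    have h3 : Tendsto (fun j => ‖(∫ x, x ∂(ξ (φ j) : Measure (E d))) - z‖) atTop (𝓝 0) := by
      have h4 : ∀ j, ‖(∫ x, x ∂(ξ (φ j) : Measure (E d))) - z‖ = |lam (φ j) - 1| * ‖z‖ := by
        intro j
        rw [hcent, ← Real.norm_eq_abs, ← norm_smul, sub_smul, one_smul]
      simp only [h4]
      have h5 := ((hlamlim.sub_const 1).abs).mul_const ‖z‖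
      simpa using h5
    exact h3.eventually_lt_const hθ
  obtain ⟨j, h3, h4⟩ := (h1.and h2).exists
  have h5 := hno (φ j) (ξ (φ j)) (μ' (φ j)) (hsp (φ j)) h4.le
  linarith

end Pool.Agent.Lib.MP_a34d76_pr.Quad
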