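import Pool.Agent.Lib.MP_a34d76_pr.Quad.Step

/-!
# The main theorem for convex sets in `Fin d → ℝ`
-/

set_option autoImplicit false

open MeasureTheory Filter Topology Set
open scoped NNReal ENNReal

namespace Pool.Agent.Lib.MP_a34d76_pr.Quad

variable {d : ℕ}

theorem main_pi (hd : 2 ≤ d) {C : Set (Fin d → ℝ)} (hC : Convex ℝ C) (h0 : volume C ≠ 0)
    (h1 : volume C ≠ ⊤) {n : ℕ} (hn : 2 ^ Nat.clog 2 d * (d + 1) ≤ n) :
    ∃ P : Measure (Fin n → (Fin d → ℝ)), IsProbabilityMeasure P ∧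
      (∀ i : Fin n, P.map (fun x : Fin n → (Fin d → ℝ) => x i)
        = (volume C)⁻¹ • volume.restrict C) ∧
      ∃ c : Fin d → ℝ, ∀ᵐ x ∂P, (∑ i, x i) = c := by
  set e : E d ≃ᵐ (Fin d → ℝ) := (MeasurableEquiv.toLp 2 (Fin d → ℝ)).symm with he
  have hmp : MeasurePreserving e := EuclideanSpace.volume_preserving_symm_measurableEquiv_toLp _
  set T : E d ≃L[ℝ] (Fin d → ℝ) := EuclideanSpace.equiv (Fin d) ℝ with hT
  have heT : ∀ x, e x = T x := fun x => rfl
  have hCconv : Convex ℝ (e ⁻¹' C) := hC.linear_preimage (T : E d →ₗ[ℝ] (Fin d → ℝ))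
  have hvol : volume (e ⁻¹' C) = volume C := hmp.measure_preimage_equiv C
  obtain ⟨P, hP, hPm, c, hc⟩ := main hd hCconv (by rwa [hvol]) (by rwa [hvol]) hn
  have hmeas : Measurable (fun (x : Fin n → E d) (i : Fin n) => e (x i)) :=
    measurable_pi_lambda _ fun i => e.measurable.comp (measurable_pi_apply i)
  refine ⟨P.map (fun x i => e (x i)), Measure.isProbabilityMeasure_map hmeas.aemeasurable, ?_,
    T c, ?_⟩
  · intro i
    rw [Measure.map_map (measurable_pi_apply i) hmeas]
    have h2 : ((fun x : Fin n → (Fin d → ℝ) => x i) ∘ fun (x : Fin n → E d) (i : Fin n) => e (x i)) =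
        e ∘ fun x : Fin n → E d => x i := rfl
    rw [h2, ← Measure.map_map e.measurable (measurable_pi_apply i), hPm i]
    unfold unif
    rw [Measure.map_smul, hvol]
    congr 1
    rw [← hmp.map_eq, ← MeasurableEquiv.restrict_map]
  · rw [ae_map_iff hmeas.aemeasurable (measurableSet_eq_fun (by fun_prop) (by fun_prop))]
    filter_upwards [hc] with x hx
    have h3 : ∑ i, e (x i) = T (∑ i, x i) := by
      rw [map_sum]
      exact Finset.sum_congr rfl fun i _ => heT _
    rw [h3, hx]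

end Pool.Agent.Lib.MP_a34d76_pr.Quad
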