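import Pool.Agent.Lib.MP_a34d76_pr.Quad.Defs
import Pool.Agent.Lib.MP_a34d76_pr.Quad.PBaseA

/-!
# MAXI: a maximiser of a continuous functional
-/

set_option autoImplicit false

open MeasureTheory Filter Topology Set
open scoped NNReal ENNReal BoundedContinuousFunction

namespace Pool.Agent.Lib.MP_a34d76_pr.Quad

variable {d : ℕ} {R : ℝ}

namespace Maxi

/-- a continuous function agrees on a ball with a bounded continuous function -/
theorem cutoff {g : E d → ℝ} (hg : Continuous g) (R : ℝ) :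
    ∃ G : E d →ᵇ ℝ, ∀ x ∈ Metric.closedBall (0 : E d) R, G x = g x := by
  have hc : CompactSpace (Metric.closedBall (0 : E d) R) :=
    isCompact_iff_compactSpace.mp (isCompact_closedBall _ _)
  let g₀ : C(Metric.closedBall (0 : E d) R, ℝ) := ⟨fun x => g x, hg.comp continuous_subtype_val⟩
  obtain ⟨G, -, hG⟩ := BoundedContinuousFunction.exists_norm_eq_domRestrict_eq_of_closed
    (BoundedContinuousFunction.mkOfCompact g₀) Metric.isClosed_closedBall
  refine ⟨G, fun x hx => ?_⟩
  have := DFunLike.congr_fun hG ⟨x, hx⟩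
  exact this

/-- integrals of continuous functions are continuous on the class of laws on a ball -/
theorem continuousOn_integral {g : E d → ℝ} (hg : Continuous g) (R : ℝ) :
    ContinuousOn (fun μ : ProbabilityMeasure (E d) => ∫ x, g x ∂(μ : Measure (E d)))
      {μ | ∀ᵐ x ∂(μ : Measure (E d)), x ∈ Metric.closedBall (0 : E d) R} := by
  obtain ⟨G, hG⟩ := cutoff hg R
  have h1 : Continuous (fun μ : ProbabilityMeasure (E d) => ∫ x, G x ∂(μ : Measure (E d))) := by
    rw [continuous_iff_continuousAt]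
    intro μ
    exact (ProbabilityMeasure.tendsto_iff_forall_integral_tendsto.mp tendsto_id) G
  refine h1.continuousOn.congr fun μ hμ => ?_
  refine integral_congr_ae ?_
  filter_upwards [hμ] with x hx
  exact (hG x hx).symm

theorem integrable_of_ball {F : Type*} [NormedAddCommGroup F] {g : E d → F} (hg : Continuous g)
    {μ : Measure (E d)} [IsFiniteMeasure μ]
    (hb : ∀ᵐ x ∂μ, x ∈ Metric.closedBall (0 : E d) R) : Integrable g μ := by
  have h1 : IntegrableOn g (Metric.closedBall (0 : E d) R) μ :=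
    hg.continuousOn.integrableOn_compact (isCompact_closedBall _ _)
  rw [IntegrableOn, Measure.restrict_eq_self_of_ae_mem hb] at h1
  exact h1

/-- support in a closed set as the vanishing of an integral -/
theorem ae_mem_iff {μ : Measure (E d)} [IsFiniteMeasure μ]
    (hb : ∀ᵐ x ∂μ, x ∈ Metric.closedBall (0 : E d) R) {S : Set (E d)} (hS : IsClosed S)
    (hne : S.Nonempty) : (∀ᵐ x ∂μ, x ∈ S) ↔ ∫ x, Metric.infDist x S ∂μ = 0 := by
  rw [integral_eq_zero_iff_of_nonneg (fun x => Metric.infDist_nonneg)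
    (integrable_of_ball (Metric.continuous_infDist_pt S) hb)]
  constructor
  · intro h
    filter_upwards [h] with x hx
    exact Metric.infDist_zero_of_mem hx
  · intro h
    filter_upwards [h] with x hx
    exact (hS.mem_iff_infDist_zero hne).mpr hx

/-- the centroid vanishes if and only if all its coordinates do -/
theorem centroid_iff {μ : Measure (E d)} [IsFiniteMeasure μ]
    (hb : ∀ᵐ x ∂μ, x ∈ Metric.closedBall (0 : E d) R) :
    (∫ x, x ∂μ = 0) ↔ ∀ v : E d, ∫ x, inner ℝ v x ∂μ = 0 := by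
  have hi : Integrable (fun x : E d => x) μ := integrable_of_ball continuous_id hb
  constructor
  · intro h v
    rw [integral_inner hi, h, inner_zero_right]
  · intro h
    have h1 := h (∫ x, x ∂μ)
    rw [integral_inner hi] at h1
    exact inner_self_eq_zero.mp h1

end Maxi

open Maxi in
theorem maxi {W : Submodule ℝ (E d)} {f : E d → ℝ} (hf : Continuous f)
    {μ₀ : ProbabilityMeasure (E d)} (hμ₀ : μ₀ ∈ PP d R) (h1 : ∀ᵐ x ∂(μ₀ : Measure (E d)), x ∈ W)
    (h2 : ∫ x, x ∂(μ₀ : Measure (E d)) = 0) :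
    ∃ μs ∈ PP d R, (∀ᵐ x ∂(μs : Measure (E d)), x ∈ W) ∧ (∫ x, x ∂(μs : Measure (E d)) = 0) ∧
      ∀ μ ∈ PP d R, (∀ᵐ x ∂(μ : Measure (E d)), x ∈ W) → (∫ x, x ∂(μ : Measure (E d)) = 0) →
        ∫ x, f x ∂(μ : Measure (E d)) ≤ ∫ x, f x ∂(μs : Measure (E d)) := by
  have hPP : PP d R ⊆ {μ | ∀ᵐ x ∂(μ : Measure (E d)), x ∈ Metric.closedBall (0 : E d) R} :=
    fun μ hμ => pp_ball hμ
  have hPPc : IsClosed (PP d R) := isClosed_closure
  have hW : IsClosed (W : Set (E d)) := W.closed_of_finiteDimensional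
  have hWn : (W : Set (E d)).Nonempty := ⟨0, W.zero_mem⟩
  let S : Set (ProbabilityMeasure (E d)) :=
    (PP d R ∩ (fun μ : ProbabilityMeasure (E d) =>
        ∫ x, Metric.infDist x (W : Set (E d)) ∂(μ : Measure (E d))) ⁻¹' {0}) ∩
      ⋂ v : E d, (PP d R ∩ (fun μ : ProbabilityMeasure (E d) =>
        ∫ x, inner ℝ v x ∂(μ : Measure (E d))) ⁻¹' {0})
  have hSc : IsClosed S := by
    refine IsClosed.inter ?_ (isClosed_iInter fun v => ?_)
    · exact ((continuousOn_integral (Metric.continuous_infDist_pt _) R).mono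
        hPP).preimage_isClosed_of_isClosed hPPc isClosed_singleton
    · exact ((continuousOn_integral (continuous_const.inner continuous_id) R).mono
        hPP).preimage_isClosed_of_isClosed hPPc isClosed_singleton
  have hmem : ∀ μ : ProbabilityMeasure (E d), μ ∈ S ↔ μ ∈ PP d R ∧
      (∀ᵐ x ∂(μ : Measure (E d)), x ∈ W) ∧ ∫ x, x ∂(μ : Measure (E d)) = 0 := by
    intro μ
    constructor
    · rintro ⟨⟨h3, h4⟩, h5⟩
      have hb := pp_ball h3
      refine ⟨h3, (ae_mem_iff hb hW hWn).mpr h4, (centroid_iff hb).mpr fun v => ?_⟩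
      exact (Set.mem_iInter.mp h5 v).2
    · rintro ⟨h3, h4, h5⟩
      have hb := pp_ball h3
      exact ⟨⟨h3, (ae_mem_iff hb hW hWn).mp h4⟩,
        Set.mem_iInter.mpr fun v => ⟨h3, (centroid_iff hb).mp h5 v⟩⟩
  have hScomp : IsCompact S := (pp_isCompact d R).of_isClosed_subset hSc
    fun μ hμ => hμ.1.1
  obtain ⟨μs, hμs, hmax⟩ := hScomp.exists_isMaxOn ⟨μ₀, (hmem μ₀).mpr ⟨hμ₀, h1, h2⟩⟩
    ((continuousOn_integral hf R).mono fun μ hμ => hPP hμ.1.1)
  obtain ⟨h3, h4, h5⟩ := (hmem μs).mp hμs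
  exact ⟨μs, h3, h4, h5, fun μ hμ hμW hμ0 => hmax ((hmem μ).mpr ⟨hμ, hμW, hμ0⟩)⟩

end Pool.Agent.Lib.MP_a34d76_pr.Quad
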