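import Pool.Agent.Lib.MP_a34d76_pr.Quad.PBaseA

/-!
# Affine images of the class `PP d R`, limits and affine images of mixable laws (helper24)
-/

set_option autoImplicit false

open MeasureTheory Filter Topology Set
open scoped NNReal ENNReal Pointwise

namespace Pool.Agent.Lib.MP_a34d76_pr.Quad

namespace PBaseB

open PBaseA

variable {d : ℕ}

theorem continuous_aff (a : ℝ) (b : E d) : Continuous (fun x : E d => a • x + b) := by
  fun_prop

theorem volume_image_aff (a : ℝ) (b : E d) (A : Set (E d)) :
    volume ((fun x : E d => a • x + b) '' A) = ENNReal.ofReal |a ^ d| * volume A := by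
  have h1 : (fun x : E d => a • x + b) '' A = (fun x => x + b) '' (a • A) := by
    rw [← Set.image_smul, Set.image_image]
  rw [h1, Set.image_add_right, measure_preimage_add_right, Measure.addHaar_smul,
    finrank_euclideanSpace_fin]

theorem unif_map {a : ℝ} (ha : 0 < a) (b : E d) (C : Set (E d)) :
    (unif C).map (fun x => a • x + b) = unif ((fun x : E d => a • x + b) '' C) := by
  have hinj : Function.Injective (fun x : E d => a • x + b) := by
    intro x y hxy
    have h1 : a • x = a • y := add_right_cancel hxy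
    exact smul_right_injective _ ha.ne' h1
  have hm : Measurable (fun x : E d => a • x + b) := (continuous_aff a b).measurable
  have hc0 : ENNReal.ofReal |a ^ d| ≠ 0 := by
    rw [ne_eq, ENNReal.ofReal_eq_zero, not_le]
    positivity
  have hc1 : ENNReal.ofReal |a ^ d| ≠ ⊤ := ENNReal.ofReal_ne_top
  ext s hs
  rw [Measure.map_apply hm hs, unif, unif, Measure.smul_apply, Measure.smul_apply,
    Measure.restrict_apply (hm hs), Measure.restrict_apply hs, smul_eq_mul, smul_eq_mul]
  have h2 : s ∩ (fun x : E d => a • x + b) '' C =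
      (fun x : E d => a • x + b) '' ((fun x : E d => a • x + b) ⁻¹' s ∩ C) := by
    rw [Set.image_preimage_inter]
  rw [h2, volume_image_aff, volume_image_aff, ENNReal.mul_inv (Or.inl hc0) (Or.inl hc1)]
  rw [mul_mul_mul_comm, ENNReal.inv_mul_cancel hc0 hc1, one_mul]

end PBaseB

open PBaseA PBaseB

variable {d : ℕ} {R : ℝ}

theorem pp_map {R' a : ℝ} (ha : 0 < a) {b : E d}
    (h : ∀ x ∈ Metric.closedBall (0 : E d) R, a • x + b ∈ Metric.closedBall (0 : E d) R')
    {μ : ProbabilityMeasure (E d)} (hμ : μ ∈ PP d R) :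
    ∃ μ' ∈ PP d R', (μ' : Measure (E d)) = (μ : Measure (E d)).map (fun x => a • x + b) := by
  have hT := continuous_aff a b
  have hcont := ProbabilityMeasure.continuous_map hT
  refine ⟨μ.map hT.measurable.aemeasurable, ?_, rfl⟩
  refine map_mem_closure hcont hμ ?_
  rintro ν ⟨C, hC, hCc, hCR, hC0, hν⟩
  refine ⟨(fun x : E d => a • x + b) '' C, ?_, hCc.image hT, ?_, ?_, ?_⟩
  · have h1 := hC.affinity b a
    simpa only [add_comm] using h1
  · rintro _ ⟨x, hx, rfl⟩
    exact h x (hCR hx)
  · rw [volume_image_aff]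
    refine mul_ne_zero ?_ hC0
    rw [ne_eq, ENNReal.ofReal_eq_zero, not_le]
    positivity
  · rw [ProbabilityMeasure.toMeasure_map, hν, unif_map ha]

theorem cm_map {k : ℕ} {μ : Measure (E d)} (h : CM k μ) (a : ℝ) (b : E d) :
    CM k (μ.map (fun x => a • x + b)) := by
  obtain ⟨P, hP, hPm, c, hc⟩ := h
  have hT := continuous_aff a b
  have hG : Continuous (fun x : Fin k → E d => fun i => a • x i + b) :=
    continuous_pi fun i => hT.comp (continuous_apply i)
  refine ⟨P.map (fun x i => a • x i + b), Measure.isProbabilityMeasure_map hG.aemeasurable, ?_,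
    a • c + (k : ℝ) • b, ?_⟩
  · intro i
    rw [Measure.map_map (measurable_pi_apply i) hG.measurable, ← hPm i,
      Measure.map_map hT.measurable (measurable_pi_apply i)]
    rfl
  · have hms : MeasurableSet {x : Fin k → E d | ∑ i, x i = a • c + (k : ℝ) • b} :=
      (isClosed_eq (by fun_prop) continuous_const).measurableSet
    rw [ae_map_iff hG.aemeasurable hms]
    filter_upwards [hc] with x hx
    rw [Finset.sum_add_distrib, ← Finset.smul_sum, hx, Finset.sum_const, Finset.card_univ,
      Fintype.card_fin, ← Nat.cast_smul_eq_nsmul ℝ]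

theorem cm_limit {k : ℕ} {ν : ℕ → ProbabilityMeasure (E d)} {μ : ProbabilityMeasure (E d)}
    (hν : Tendsto ν atTop (𝓝 μ))
    (hb : ∀ j, ∀ᵐ x ∂(ν j : Measure (E d)), x ∈ Metric.closedBall (0 : E d) R)
    (h : ∀ j, CM k (ν j : Measure (E d))) : CM k (μ : Measure (E d)) := by
  choose P hP hPm c hc using h
  let K : Set (Fin k → E d) := Set.pi univ fun _ => Metric.closedBall (0 : E d) R
  have hK : IsCompact K := isCompact_univ_pi fun _ => isCompact_closedBall _ _
  let Q : ℕ → ProbabilityMeasure (Fin k → E d) := fun j => ⟨P j, hP j⟩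
  have hQK : ∀ j, ∀ᵐ x ∂(Q j : Measure (Fin k → E d)), x ∈ K := by
    intro j
    have h1 : ∀ i : Fin k, ∀ᵐ x ∂(P j), x i ∈ Metric.closedBall (0 : E d) R := by
      intro i
      have h2 := hb j
      have hms : MeasurableSet {y : E d | y ∈ Metric.closedBall (0 : E d) R} :=
        Metric.isClosed_closedBall.measurableSet
      have hmi : AEMeasurable (fun x : Fin k → E d => x i) (P j) :=
        (measurable_pi_apply i).aemeasurable
      rw [← hPm j i, ae_map_iff hmi hms] at h2
      exact h2
    have h3 : ∀ᵐ x ∂(P j), ∀ i : Fin k, x i ∈ Metric.closedBall (0 : E d) R := ae_all_iff.2 h1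
    exact h3.mono fun x hx i _ => hx i
  have hsum : Continuous (fun x : Fin k → E d => ∑ i, x i) := by fun_prop
  have hcS : ∀ j, c j ∈ (fun x : Fin k → E d => ∑ i, x i) '' K := by
    intro j
    have hP' := hP j
    obtain ⟨x, hx1, hx2⟩ := ((hQK j).and (hc j)).exists
    exact ⟨x, hx1, hx2⟩
  have hcomp : IsCompact ({ρ : ProbabilityMeasure (Fin k → E d) |
      ∀ᵐ x ∂(ρ : Measure (Fin k → E d)), x ∈ K} ×ˢ ((fun x : Fin k → E d => ∑ i, x i) '' K)) :=
    (isCompact_supported hK).prod (hK.image hsum)
  obtain ⟨⟨P0, c0⟩, -, φ, hφ, hlim⟩ := hcomp.tendsto_subseq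
    (x := fun j => (Q j, c j)) (fun j => ⟨hQK j, hcS j⟩)
  have hlim1 : Tendsto (fun j => Q (φ j)) atTop (𝓝 P0) :=
    (continuous_fst.tendsto _).comp hlim
  have hlim2 : Tendsto (fun j => c (φ j)) atTop (𝓝 c0) :=
    (continuous_snd.tendsto _).comp hlim
  refine ⟨(P0 : Measure (Fin k → E d)), inferInstance, ?_, c0, ?_⟩
  · intro i
    have hev : Continuous (fun x : Fin k → E d => x i) := continuous_apply i
    have h1 := ((ProbabilityMeasure.continuous_map hev).tendsto P0).comp hlim1
    have h2 : ((fun ρ : ProbabilityMeasure (Fin k → E d) => ρ.map hev.measurable.aemeasurable) ∘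
        fun j => Q (φ j)) = fun j => ν (φ j) := by
      funext j
      apply Subtype.ext
      exact hPm (φ j) i
    have h3 : Tendsto (fun j => ν (φ j)) atTop (𝓝 μ) := hν.comp hφ.tendsto_atTop
    have h4 := tendsto_nhds_unique (h2 ▸ h1) h3
    exact congrArg Subtype.val h4
  · have h1 := ((ProbabilityMeasure.continuous_map hsum).tendsto P0).comp hlim1
    have h2 : ((fun ρ : ProbabilityMeasure (Fin k → E d) =>
        ρ.map hsum.measurable.aemeasurable) ∘ fun j => Q (φ j)) =
        fun j => diracProba (c (φ j)) := by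
      funext j
      apply Subtype.ext
      show (P (φ j)).map (fun x : Fin k → E d => ∑ i, x i) = Measure.dirac (c (φ j))
      rw [Measure.map_congr (show (fun x : Fin k → E d => ∑ i, x i) =ᵐ[P (φ j)]
        fun _ => c (φ j) from hc (φ j)), Measure.map_const]
      have := hP (φ j)
      rw [measure_univ, one_smul]
    have h3 : Tendsto (fun j => diracProba (c (φ j))) atTop (𝓝 (diracProba c0)) :=
      (continuous_diracProba.tendsto _).comp hlim2
    have h4 := tendsto_nhds_unique (h2 ▸ h1) h3
    have h5 : (P0 : Measure (Fin k → E d)).map (fun x : Fin k → E d => ∑ i, x i) =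
        Measure.dirac c0 := congrArg Subtype.val h4
    have hms : MeasurableSet {y : E d | y = c0} :=
      (isClosed_eq continuous_id continuous_const).measurableSet
    have h6 : ∀ᵐ y ∂(Measure.dirac c0), y = c0 := (ae_dirac_iff hms).2 rfl
    rw [← h5, ae_map_iff hsum.measurable.aemeasurable hms] at h6
    exact h6

end Pool.Agent.Lib.MP_a34d76_pr.Quad
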