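import Pool.Agent.Lib.MP_a34d76_pr.Quad.Defs
import Pool.Agent.Lib.MP_a34d76_pr.Quad.BMC

/-!
# One-dimensional marginals of convex bodies
-/

set_option autoImplicit false

open MeasureTheory Filter Topology Set
open scoped NNReal ENNReal

namespace Pool.Agent.Lib.MP_a34d76_pr.Quad.Slice

/-- coordinates of `ℝ^(m+1)` with first coordinate `⟨u, x⟩` -/
theorem exists_coord {m : ℕ} {u : E (m + 1)} (hu : ‖u‖ = 1) :
    ∃ Φ : E (m + 1) ≃ᵐ ℝ × (Fin m → ℝ), (∀ x, (Φ x).1 = inner ℝ u x) ∧ Continuous Φ ∧
      IsLinearMap ℝ Φ ∧ MeasurePreserving Φ volume volume := by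
  have hcard : Module.finrank ℝ (E (m + 1)) = Fintype.card (Fin (m + 1)) := by simp
  have hv : Orthonormal ℝ (({0} : Set (Fin (m + 1))).domRestrict (fun _ => u)) := by
    refine ⟨fun i => hu, fun i j hij => ?_⟩
    exfalso
    apply hij
    rw [Subtype.ext_iff, i.2, j.2]
  obtain ⟨b, hb⟩ := hv.exists_orthonormalBasis_extension_of_card_eq hcard
  have hb0 : b 0 = u := hb 0 rfl
  have h1 := b.measurePreserving_measurableEquiv
  have h2 := PiLp.volume_preserving_ofLp (Fin (m + 1))
  have h3 := volume_preserving_piFinSuccAbove (fun _ : Fin (m + 1) => ℝ) 0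
  refine ⟨b.measurableEquiv.trans ((MeasurableEquiv.toLp 2 (Fin (m + 1) → ℝ)).symm.trans
    (MeasurableEquiv.piFinSuccAbove (fun _ => ℝ) 0)), ?_, ?_, ?_, ?_⟩
  · intro x
    change (b.repr x) 0 = _
    rw [OrthonormalBasis.repr_apply_apply, hb0]
  · have h5 : Continuous fun x : E (m + 1) => ((b.repr x) 0, fun j : Fin m => (b.repr x) j.succ) := by
      fun_prop
    convert h5 using 1
    ext x
    · rfl
    · rfl
  · constructor
    · intro x y
      change ((b.repr (x + y)) 0, fun j : Fin m => (b.repr (x + y)) j.succ) =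
        ((b.repr x) 0, fun j : Fin m => (b.repr x) j.succ) + ((b.repr y) 0, fun j : Fin m => (b.repr y) j.succ)
      simp only [map_add]
      rfl
    · intro a x
      change ((b.repr (a • x)) 0, fun j : Fin m => (b.repr (a • x)) j.succ) =
        a • ((b.repr x) 0, fun j : Fin m => (b.repr x) j.succ)
      simp only [map_smul]
      rfl
  · exact (h3.comp h2).comp h1

/-- the first marginal has density the volume of the sections -/
theorem map_fst_restrict {m : ℕ} {C : Set (ℝ × (Fin m → ℝ))} (hC : MeasurableSet C) :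
    (volume.restrict C).map Prod.fst = volume.withDensity (fun t => volume {y | (t, y) ∈ C}) := by
  ext s hs
  rw [Measure.map_apply measurable_fst hs, Measure.restrict_apply (measurable_fst hs),
    Measure.volume_eq_prod, Measure.prod_apply ((measurable_fst hs).inter hC),
    withDensity_apply _ hs, ← lintegral_indicator hs]
  congr with t
  by_cases ht : t ∈ s
  · rw [indicator_of_mem ht]
    congr 1
    ext y
    simp [ht]
  · rw [indicator_of_notMem ht]
    convert measure_empty (μ := (volume : Measure (Fin m → ℝ)))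
    ext y
    simp [ht]

end Pool.Agent.Lib.MP_a34d76_pr.Quad.Slice

namespace Pool.Agent.Lib.MP_a34d76_pr.Quad

variable {d : ℕ}

/-- Brunn-Minkowski for the sections of a convex body -/
theorem one_marginal (hd : 2 ≤ d) {C : Set (E d)} (hC : Convex ℝ C) (hCc : IsCompact C)
    (h0 : volume C ≠ 0) {u : E d} (hu : ‖u‖ = 1) :
    ∃ (A B : ℝ) (φ : ℝ → ℝ), A < B ∧ ContinuousOn φ (Icc A B) ∧ ConcaveOn ℝ (Icc A B) φ ∧
      (∀ x ∈ Icc A B, 0 ≤ φ x) ∧
      (unif C).map (fun x => inner ℝ u x) = (volume.restrict (Icc A B)).withDensity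
        (fun x => ENNReal.ofReal (φ x ^ (d - 1))) := by
  obtain ⟨m, rfl⟩ : ∃ m, d = m + 1 := ⟨d - 1, by omega⟩
  have hm : 1 ≤ m := by omega
  obtain ⟨Φ, h1, h2, h3, h4⟩ := Slice.exists_coord hu
  set C' : Set (ℝ × (Fin m → ℝ)) := Φ '' C with hC'def
  have hC' : Convex ℝ C' := hC.is_linear_image h3
  have hCc' : IsCompact C' := hCc.image h2
  have hvol : volume C = volume C' := by
    rw [← h4.measure_preimage_emb Φ.measurableEmbedding C', hC'def,
      Set.preimage_image_eq _ Φ.injective]
  have hC'0 : volume C' ≠ 0 := hvol ▸ h0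
  have hC'1 : volume C' ≠ ⊤ := hCc'.measure_lt_top.ne
  obtain ⟨A, B, hAB, himg, hcont, hconc⟩ := bmc hm hC' hCc' hC'0
  set g : ℝ → ℝ≥0∞ := fun t => volume {y | (t, y) ∈ C'} with hg
  set c : ℝ := (volume C').toReal⁻¹ with hc
  have hV : 0 < (volume C').toReal := ENNReal.toReal_pos hC'0 hC'1
  have hc0 : 0 < c := inv_pos.2 hV
  have hgt : ∀ t, g t ≠ ⊤ := by
    intro t
    refine ne_top_of_le_ne_top (hCc'.image continuous_snd).measure_lt_top.ne
      (measure_mono ?_)
    intro y hy
    exact ⟨(t, y), hy, rfl⟩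
  have hg0 : ∀ t, t ∉ Icc A B → g t = 0 := by
    intro t ht
    convert measure_empty (μ := (volume : Measure (Fin m → ℝ)))
    ext y
    simp only [mem_ofPred_eq, mem_empty_iff_false, iff_false]
    intro hy
    exact ht (himg ▸ ⟨(t, y), hy, rfl⟩)
  refine ⟨A, B, fun t => c ^ ((1 : ℝ) / m) * (g t).toReal ^ ((1 : ℝ) / m), hAB, ?_, ?_, ?_, ?_⟩
  · exact continuousOn_const.mul hcont
  · have := hconc.smul (c := c ^ ((1 : ℝ) / m)) (by positivity)
    exact this
  · intro x _
    positivity
  · have e1 : (volume.restrict C).map (fun x => inner ℝ u x) = (volume.restrict C').map Prod.fst := by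
      have h5 := (h4.restrict_image_emb Φ.measurableEmbedding C).map_eq
      rw [← hC'def] at h5
      rw [← h5, Measure.map_map measurable_fst Φ.measurable]
      congr 1
      ext x
      exact (h1 x).symm
    have e2 : volume.withDensity g = (volume.restrict (Icc A B)).withDensity g := by
      rw [← withDensity_indicator measurableSet_Icc]
      congr 1
      ext t
      by_cases ht : t ∈ Icc A B
      · rw [indicator_of_mem ht]
      · rw [indicator_of_notMem ht, hg0 t ht]
    have hgm : Measurable g := by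
      exact measurable_measure_prodMk_left hCc'.measurableSet
    have hci : (volume C')⁻¹ = ENNReal.ofReal c := by
      rw [hc, ENNReal.ofReal_inv_of_pos hV, ENNReal.ofReal_toReal hC'1]
    rw [unif, Measure.map_smul, e1, Slice.map_fst_restrict hCc'.measurableSet, e2, hvol,
      ← withDensity_smul _ hgm]
    congr 1
    ext t
    simp only [Pi.smul_apply, smul_eq_mul, Nat.add_sub_cancel]
    have hm' : (m : ℝ) ≠ 0 := by positivity
    rw [← Real.mul_rpow hc0.le ENNReal.toReal_nonneg, ← Real.rpow_natCast, ← Real.rpow_mul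
      (by positivity), one_div_mul_cancel hm', Real.rpow_one, ENNReal.ofReal_mul hc0.le,
      ENNReal.ofReal_toReal (hgt t), hci]

end Pool.Agent.Lib.MP_a34d76_pr.Quad
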