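import Pool.Agent.Lib.MP_a34d76_pr.Quad.Defs
import Pool.Agent.Lib.MP_a34d76_pr.Quad.PBaseA
import Pool.Agent.Lib.MP_a34d76_pr.Quad.PBaseB
import Pool.Agent.Lib.MP_a34d76_pr.Quad.Slice
import Pool.Agent.Lib.MP_a34d76_pr.OneDim

/-!
# Members of the class which live on a line
-/

set_option autoImplicit false

open MeasureTheory Filter Topology Set
open scoped NNReal ENNReal

namespace Pool.Agent.Lib.MP_a34d76_pr.Quad.One

/-- laws on an interval with density `φ ^ (d - 1)` are `n`-CM for `n ≥ d + 1` -/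
theorem line (d : ℕ) (hd : 2 ≤ d) (A B : ℝ) (hAB : A < B) (φ : ℝ → ℝ)
    (hcont : ContinuousOn φ (Set.Icc A B)) (hconc : ConcaveOn ℝ (Set.Icc A B) φ)
    (hnonneg : ∀ x ∈ Set.Icc A B, 0 ≤ φ x)
    (μ : Measure ℝ) (hprob : IsProbabilityMeasure μ)
    (hμ : μ = (volume.restrict (Set.Icc A B)).withDensity
      (fun x => ENNReal.ofReal (φ x ^ (d - 1))))
    (n : ℕ) (hn : d + 1 ≤ n) :
    ∃ P : Measure (Fin n → ℝ), IsProbabilityMeasure P ∧
      (∀ i : Fin n, P.map (fun x : Fin n → ℝ => x i) = μ) ∧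
      ∃ c : ℝ, ∀ᵐ x ∂P, (∑ i, x i) = c := by
  have h0 : (0 : ℝ) < ((n - 2 : ℕ) : ℝ) := by
    have : 0 < n - 2 := by omega
    exact_mod_cast this
  set r : ℝ := ((d - 1 : ℕ) : ℝ) / ((n - 2 : ℕ) : ℝ) with hr
  have hr0 : 0 ≤ r := by positivity
  have hr1 : r ≤ 1 := by
    rw [hr, div_le_one h0]
    have : d - 1 ≤ n - 2 := by omega
    exact_mod_cast this
  have hpow : ∀ x ∈ Set.Icc A B, (φ x ^ r) ^ (n - 2) = φ x ^ (d - 1) := by
    intro x hx
    rw [← Real.rpow_natCast, ← Real.rpow_mul (hnonneg x hx), hr, div_mul_cancel₀ _ h0.ne',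
      Real.rpow_natCast]
  have hconc' : ConcaveOn ℝ (Set.Icc A B) (fun x => φ x ^ r) := by
    refine ⟨hconc.1, fun x hx y hy a b ha hb hab => ?_⟩
    have h1 := (Real.concaveOn_rpow hr0 hr1).2 (Set.mem_Ici.2 (hnonneg x hx))
      (Set.mem_Ici.2 (hnonneg y hy)) ha hb hab
    have h2 := hconc.2 hx hy ha hb hab
    have h3 : (0 : ℝ) ≤ a • φ x + b • φ y := by
      simp only [smul_eq_mul]
      have := mul_nonneg ha (hnonneg x hx)
      have := mul_nonneg hb (hnonneg y hy)
      linarith
    exact h1.trans (Real.rpow_le_rpow h3 h2 hr0)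
  refine @Pool.Agent.Lib.MP_a34d76_pr.OneDim.one_dim n (by omega) A B hAB (fun x => φ x ^ r) ?_ hconc'
    (fun x hx => Real.rpow_nonneg (hnonneg x hx) r) μ hprob ?_
  · exact hcont.rpow_const fun x _ => Or.inr hr0
  · rw [hμ]
    apply withDensity_congr_ae
    filter_upwards [ae_restrict_mem measurableSet_Icc] with x hx
    rw [hpow x hx]

end Pool.Agent.Lib.MP_a34d76_pr.Quad.One

namespace Pool.Agent.Lib.MP_a34d76_pr.Quad

variable {d : ℕ}

theorem tt_zero (d : ℕ) : TT d 0 := by
  intro R μ hμ W z hW hz k hk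
  have hW0 : W = ⊥ := by
    have := Submodule.finrank_eq_zero (R := ℝ) (S := W)
    exact this.1 (by omega)
  subst hW0
  have hz' : ∀ᵐ x ∂(μ : Measure (E d)), x = z := by
    filter_upwards [hz] with x hx
    exact sub_eq_zero.1 ((Submodule.mem_bot ℝ).1 hx)
  have hμd : (μ : Measure (E d)) = Measure.dirac z := by
    ext s hs
    rw [Measure.dirac_apply' _ hs]
    by_cases hzs : z ∈ s
    · rw [indicator_of_mem hzs, Pi.one_apply]
      rw [prob_compl_eq_zero_iff hs |>.symm]
      refine measure_mono_null ?_ (ae_iff.1 hz')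
      intro x hx hxz
      exact hx (hxz ▸ hzs)
    · rw [indicator_of_notMem hzs]
      refine measure_mono_null ?_ (ae_iff.1 hz')
      intro x hx hxz
      exact hzs (hxz ▸ hx)
  refine ⟨Measure.dirac (fun _ => z), inferInstance, ?_, (k : ℝ) • z, ?_⟩
  · intro i
    rw [Measure.map_dirac' (measurable_pi_apply i), hμd]
  · rw [ae_dirac_eq]
    change ∑ i : Fin k, z = _
    rw [Finset.sum_const, Finset.card_univ, Fintype.card_fin, Nat.cast_smul_eq_nsmul]

theorem tt_one (hd : 2 ≤ d) : TT d 1 := by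
  intro R μ hμ W z hW hz k hk
  have hk1 : d + 1 ≤ k := by
    simpa [KK] using hk
  rcases Nat.lt_or_ge (Module.finrank ℝ W) 1 with hlt | hge
  · refine tt_zero d R μ hμ W z (by omega) hz k ?_
    simp only [KK, if_true]
    omega
  have hfr : Module.finrank ℝ W = 1 := by omega
  obtain ⟨u, hu, hWu⟩ : ∃ u : E d, ‖u‖ = 1 ∧ ∀ w ∈ W, ∃ c : ℝ, w = c • u := by
    obtain ⟨v, hv0, hv⟩ := finrank_eq_one_iff'.1 hfr
    have hvn : ‖(v : E d)‖ ≠ 0 := by
      rw [norm_ne_zero_iff]
      intro h
      exact hv0 (Subtype.ext h)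
    refine ⟨‖(v : E d)‖⁻¹ • (v : E d), ?_, ?_⟩
    · rw [norm_smul, norm_inv, norm_norm, inv_mul_cancel₀ hvn]
    · intro w hw
      obtain ⟨c, hc⟩ := hv ⟨w, hw⟩
      refine ⟨c * ‖(v : E d)‖, ?_⟩
      have := congrArg Subtype.val hc
      simp only [Submodule.coe_smul] at this
      rw [smul_smul, mul_assoc, mul_inv_cancel₀ hvn, mul_one, this]
  set T : E d → E d := fun x => (inner ℝ u (x - z)) • u + z with hT
  have hTc : Continuous T := by fun_prop
  have hTμ : (μ : Measure (E d)).map T = (μ : Measure (E d)) := by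
    have h1 : T =ᵐ[(μ : Measure (E d))] id := by
      filter_upwards [hz] with x hx
      obtain ⟨c, hc⟩ := hWu _ hx
      simp only [hT, id]
      rw [hc, inner_smul_right, real_inner_self_eq_norm_sq, hu, one_pow, mul_one, ← hc]
      abel
    rw [Measure.map_congr h1, Measure.map_id]
  obtain ⟨ν, hν, hlim⟩ := pp_seq hμ
  have hlim' : Tendsto (fun j => (ν j).map hTc.measurable.aemeasurable) atTop (𝓝 μ) := by
    have h2 := ((ProbabilityMeasure.continuous_map hTc).tendsto μ).comp hlim
    have h3 : μ.map hTc.measurable.aemeasurable = μ := by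
      apply Subtype.ext
      exact hTμ
    rw [h3] at h2
    exact h2
  refine cm_limit (R := R + 2 * ‖z‖) hlim' ?_ ?_
  · intro j
    have h4 := pp_ball (subset_closure (hν j) : ν j ∈ PP d R)
    rw [ProbabilityMeasure.toMeasure_map]
    refine (ae_map_iff (p := fun x => x ∈ Metric.closedBall (0 : E d) (R + 2 * ‖z‖))
      hTc.measurable.aemeasurable measurableSet_closedBall).2 ?_
    filter_upwards [h4] with x hx
    rw [mem_closedBall_zero_iff] at hx ⊢
    calc ‖T x‖ ≤ ‖(inner ℝ u (x - z)) • u‖ + ‖z‖ := norm_add_le _ _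
      _ ≤ ‖x - z‖ + ‖z‖ := by
        gcongr
        rw [norm_smul, hu, mul_one]
        have := norm_inner_le_norm (𝕜 := ℝ) u (x - z)
        rwa [hu, one_mul] at this
      _ ≤ (‖x‖ + ‖z‖) + ‖z‖ := by
        gcongr
        exact norm_sub_le _ _
      _ ≤ R + 2 * ‖z‖ := by linarith
  · intro j
    obtain ⟨C, hC, hCc, hCR, hC0, hνC⟩ := hν j
    obtain ⟨A, B, φ, hAB, hcont, hconc, hnn, hmap⟩ := one_marginal hd hC hCc hC0 hu
    have hme : Measurable (fun x : E d => inner ℝ u x) := by fun_prop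
    have hpr : IsProbabilityMeasure ((unif C).map (fun x => inner ℝ u x)) := by
      rw [← hνC]
      exact Measure.isProbabilityMeasure_map hme.aemeasurable
    obtain ⟨P, hP, hPm, c, hc⟩ := One.line d hd A B hAB φ hcont hconc hnn _ hpr hmap k hk1
    set S : ℝ → E d := fun t => (t - inner ℝ u z) • u + z with hS
    have hSc : Continuous S := by fun_prop
    have hSm : Measurable S := hSc.measurable
    have hSS : Measurable (fun (x : Fin k → ℝ) (i : Fin k) => S (x i)) :=
      measurable_pi_lambda _ fun i => hSm.comp (measurable_pi_apply i)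
    refine ⟨P.map (fun (x : Fin k → ℝ) (i : Fin k) => S (x i)), Measure.isProbabilityMeasure_map hSS.aemeasurable, ?_,
      (c - k * inner ℝ u z) • u + (k : ℝ) • z, ?_⟩
    · intro i
      rw [Measure.map_map (measurable_pi_apply i) hSS]
      have h5 : (fun x : Fin k → E d => x i) ∘ (fun (x : Fin k → ℝ) i => S (x i)) =
          S ∘ (fun x : Fin k → ℝ => x i) := rfl
      rw [h5, ← Measure.map_map hSm (measurable_pi_apply i), hPm, Measure.map_map hSm hme,
        ProbabilityMeasure.toMeasure_map, hνC]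
      congr 1
      ext1 x
      simp only [Function.comp, hS, hT, inner_sub_right]
    · refine (ae_map_iff (p := fun x : Fin k → E d => ∑ i, x i =
        (c - k * inner ℝ u z) • u + (k : ℝ) • z) hSS.aemeasurable
        (measurableSet_eq_fun (by fun_prop) measurable_const)).2 ?_
      filter_upwards [hc] with x hx
      simp only [hS]
      rw [Finset.sum_add_distrib, ← Finset.sum_smul, Finset.sum_sub_distrib, hx]
      simp [Nat.cast_smul_eq_nsmul]

end Pool.Agent.Lib.MP_a34d76_pr.Quad
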