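import Mathlib

/-!
# The Prékopa–Leindler inequality (MP_a34d76_pr)
-/

set_option autoImplicit false

open MeasureTheory Filter Topology Set
open scoped NNReal ENNReal Pointwise

namespace Pool.Agent.Lib.MP_a34d76_pr.Quad.PL

theorem vol_affine (a c : ℝ) (ha : 0 ≤ a) (A : Set ℝ) :
    volume ((fun x => a * x + c) '' A) = ENNReal.ofReal a * volume A := by
  have h : (fun x => a * x + c) '' A = (fun x => x + c) '' (a • A) := by
    ext y
    simp only [Set.mem_image, Set.mem_smul_set, smul_eq_mul, exists_exists_and_eq_and]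
  rw [h, Set.image_add_right, measure_preimage_add_right, Measure.addHaar_smul_of_nonneg _ ha]
  simp

theorem bm_compact {lam : ℝ} (h0 : 0 < lam) (h1 : lam < 1) {A B C : Set ℝ} (hA : IsCompact A)
    (hB : IsCompact B) (hAne : A.Nonempty) (hBne : B.Nonempty)
    (hC : ∀ a ∈ A, ∀ b ∈ B, (1 - lam) * a + lam * b ∈ C) :
    ENNReal.ofReal (1 - lam) * volume A + ENNReal.ofReal lam * volume B ≤ volume C := by
  obtain ⟨a, haA, ha⟩ := hA.exists_isGreatest hAne
  obtain ⟨b, hbB, hb⟩ := hB.exists_isLeast hBne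
  have e1 : volume ((fun x => (1 - lam) * x + lam * b) '' A) = ENNReal.ofReal (1 - lam) * volume A :=
    vol_affine _ _ (by linarith) A
  have e2 : volume ((fun x => lam * x + (1 - lam) * a) '' B) = ENNReal.ofReal lam * volume B :=
    vol_affine _ _ h0.le B
  rw [← e1, ← e2]
  have hm2 : MeasurableSet ((fun x => lam * x + (1 - lam) * a) '' B) :=
    (hB.image (by fun_prop)).measurableSet
  rw [← measure_union₀ hm2.nullMeasurableSet]
  · apply measure_mono
    rintro _ (⟨x, hx, rfl⟩ | ⟨y, hy, rfl⟩)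
    · exact hC x hx b hbB
    · have := hC a haA y hy
      simpa [add_comm] using this
  · have hsub : ((fun x => (1 - lam) * x + lam * b) '' A) ∩ ((fun x => lam * x + (1 - lam) * a) '' B) ⊆
        {(1 - lam) * a + lam * b} := by
      rintro z ⟨⟨x, hx, rfl⟩, ⟨y, hy, hxy⟩⟩
      have hxa : x ≤ a := ha hx
      have hby : b ≤ y := hb hy
      simp only [mem_singleton_iff]
      simp only at hxy
      nlinarith [mul_nonneg (by linarith : (0:ℝ) ≤ 1 - lam) (sub_nonneg.2 hxa), mul_nonneg h0.le (sub_nonneg.2 hby)]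
    exact measure_mono_null hsub (by simp)

theorem vol_iSup {A : Set ℝ} (hA : MeasurableSet A) :
    volume A = ⨆ K : {K : Set ℝ // K ⊆ A ∧ IsCompact K ∧ K.Nonempty}, volume (K : Set ℝ) := by
  apply le_antisymm
  · apply le_of_forall_lt
    intro r hr
    obtain ⟨K, hKA, hK, hrK⟩ := hA.exists_lt_isCompact hr
    have hne : K.Nonempty := by
      by_contra h
      rw [Set.not_nonempty_iff_eq_empty] at h
      simp [h] at hrK
    exact lt_iSup_iff.2 ⟨⟨K, hKA, hK, hne⟩, hrK⟩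
  · exact iSup_le fun K => measure_mono K.2.1

theorem bm_one {lam : ℝ} (h0 : 0 < lam) (h1 : lam < 1) {A B C : Set ℝ} (hA : MeasurableSet A)
    (hB : MeasurableSet B) (hAne : A.Nonempty) (hBne : B.Nonempty)
    (hC : ∀ a ∈ A, ∀ b ∈ B, (1 - lam) * a + lam * b ∈ C) :
    ENNReal.ofReal (1 - lam) * volume A + ENNReal.ofReal lam * volume B ≤ volume C := by
  obtain ⟨a₀, ha₀⟩ := hAne
  obtain ⟨b₀, hb₀⟩ := hBne
  rw [vol_iSup hA, vol_iSup hB]
  have : Nonempty {K : Set ℝ // K ⊆ A ∧ IsCompact K ∧ K.Nonempty} :=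
    ⟨{a₀}, by simpa using ha₀, isCompact_singleton, by simp⟩
  have : Nonempty {K : Set ℝ // K ⊆ B ∧ IsCompact K ∧ K.Nonempty} :=
    ⟨{b₀}, by simpa using hb₀, isCompact_singleton, by simp⟩
  rw [ENNReal.mul_iSup, ENNReal.mul_iSup]
  refine ENNReal.iSup_add_iSup_le fun K L => ?_
  exact bm_compact h0 h1 K.2.2.1 L.2.2.1 K.2.2.2 L.2.2.2
    fun a ha b hb => hC a (K.2.1 ha) b (L.2.1 hb)

/-- weighted arithmetic-geometric mean inequality in `ℝ≥0∞` -/
theorem amgm {lam : ℝ} (h0 : 0 < lam) (h1 : lam < 1) (x y : ℝ≥0∞) :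
    x ^ (1 - lam) * y ^ lam ≤ ENNReal.ofReal (1 - lam) * x + ENNReal.ofReal lam * y := by
  by_cases hx : x = ⊤
  · subst hx
    have : ENNReal.ofReal (1 - lam) * ⊤ = ⊤ := ENNReal.mul_top (by simpa using h1)
    simp [this]
  by_cases hy : y = ⊤
  · subst hy
    have : ENNReal.ofReal lam * ⊤ = ⊤ := ENNReal.mul_top (by simpa using h0)
    simp [this]
  lift x to ℝ≥0 using hx
  lift y to ℝ≥0 using hy
  have h := NNReal.geom_mean_le_arith_mean2_weighted (Real.toNNReal (1 - lam)) (Real.toNNReal lam) x y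
    (by rw [← Real.toNNReal_add (by linarith) h0.le]; simp)
  rw [Real.coe_toNNReal _ (by linarith), Real.coe_toNNReal _ h0.le] at h
  rw [← ENNReal.coe_rpow_of_nonneg _ (by linarith), ← ENNReal.coe_rpow_of_nonneg _ h0.le]
  unfold ENNReal.ofReal
  exact_mod_cast h

/-- normalised one-dimensional inequality -/
theorem pl_norm {lam : ℝ} (h0 : 0 < lam) (h1 : lam < 1) {f g h : ℝ → ℝ} (hf : Measurable f)
    (hg : Measurable g) (hh : Measurable h) (hf0 : ∀ x, 0 ≤ f x) (hg0 : ∀ x, 0 ≤ g x)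
    (hh0 : ∀ x, 0 ≤ h x) (hf1 : ∀ x, f x ≤ 1) (hg1 : ∀ x, g x ≤ 1)
    (hfs : ∀ t < 1, ∃ x, t < f x) (hgs : ∀ t < 1, ∃ x, t < g x)
    (hle : ∀ t, 0 < t → ∀ x y, t < f x → t < g y → t < h ((1 - lam) * x + lam * y)) :
    ENNReal.ofReal (1 - lam) * (∫⁻ x, ENNReal.ofReal (f x)) +
      ENNReal.ofReal lam * (∫⁻ x, ENNReal.ofReal (g x)) ≤ ∫⁻ x, ENNReal.ofReal (h x) := by
  rw [lintegral_eq_lintegral_meas_lt _ (Eventually.of_forall hf0) hf.aemeasurable,
    lintegral_eq_lintegral_meas_lt _ (Eventually.of_forall hg0) hg.aemeasurable,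
    lintegral_eq_lintegral_meas_lt _ (Eventually.of_forall hh0) hh.aemeasurable]
  have mf : Measurable fun t : ℝ => volume {x | t < f x} := by
    apply Antitone.measurable
    intro s t hst
    exact measure_mono fun x hx => lt_of_le_of_lt hst hx
  rw [← lintegral_const_mul' _ _ ENNReal.ofReal_ne_top, ← lintegral_const_mul' _ _ ENNReal.ofReal_ne_top,
    ← lintegral_add_left (mf.const_mul _)]
  refine setLIntegral_mono' measurableSet_Ioi fun t ht => ?_
  by_cases ht1 : t < 1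
  · exact bm_one h0 h1 (measurableSet_lt measurable_const hf) (measurableSet_lt measurable_const hg)
      (hfs t ht1) (hgs t ht1) fun a ha b hb => hle t ht a b ha hb
  · have e1 : {x | t < f x} = ∅ := by
      ext x; simp only [Set.mem_ofPred_eq, mem_empty_iff_false, iff_false, not_lt]
      exact (hf1 x).trans (not_lt.1 ht1)
    have e2 : {x | t < g x} = ∅ := by
      ext x; simp only [Set.mem_ofPred_eq, mem_empty_iff_false, iff_false, not_lt]
      exact (hg1 x).trans (not_lt.1 ht1)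
    simp [e1, e2]

/-- the one-dimensional inequality -/
theorem pl_one {lam : ℝ} (h0 : 0 < lam) (h1 : lam < 1) {f g h : ℝ → ℝ≥0∞} (hf : Measurable f)
    (hg : Measurable g) (hh : Measurable h) {M : ℝ≥0∞} (hM : M ≠ ⊤)
    (hfM : ∀ x, f x ≤ M) (hgM : ∀ x, g x ≤ M)
    (hle : ∀ x y, f x ^ (1 - lam) * g y ^ lam ≤ h ((1 - lam) * x + lam * y)) :
    (∫⁻ x, f x) ^ (1 - lam) * (∫⁻ x, g x) ^ lam ≤ ∫⁻ x, h x := by
  have h1' : 0 < 1 - lam := by linarith
  set a : ℝ≥0∞ := ⨆ x, f x with ha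
  set b : ℝ≥0∞ := ⨆ x, g x with hb
  have haM : a ≠ ⊤ := ne_top_of_le_ne_top hM (iSup_le hfM)
  have hbM : b ≠ ⊤ := ne_top_of_le_ne_top hM (iSup_le hgM)
  have hfa : ∀ x, f x ≤ a := fun x => le_iSup f x
  have hgb : ∀ x, g x ≤ b := fun x => le_iSup g x
  by_cases ha0 : a = 0
  · have : ∀ x, f x = 0 := fun x => le_antisymm ((hfa x).trans ha0.le) bot_le
    simp [this, ENNReal.zero_rpow_of_pos h1']
  by_cases hb0 : b = 0
  · have : ∀ x, g x = 0 := fun x => le_antisymm ((hgb x).trans hb0.le) bot_le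
    simp [this, ENNReal.zero_rpow_of_pos h0]
  set c : ℝ≥0∞ := a ^ (1 - lam) * b ^ lam with hc
  have hc0 : c ≠ 0 := (ENNReal.mul_pos (ENNReal.rpow_pos (pos_iff_ne_zero.2 ha0) haM).ne'
    (ENNReal.rpow_pos (pos_iff_ne_zero.2 hb0) hbM).ne').ne'
  have hcT : c ≠ ⊤ := ENNReal.mul_ne_top (ENNReal.rpow_ne_top_of_nonneg h1'.le haM)
    (ENNReal.rpow_ne_top_of_nonneg h0.le hbM)
  have hfa1 : ∀ x, f x / a ≤ 1 := fun x => ENNReal.div_le_of_le_mul (by simpa using hfa x)
  have hgb1 : ∀ x, g x / b ≤ 1 := fun x => ENNReal.div_le_of_le_mul (by simpa using hgb x)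
  have hfaT : ∀ x, f x / a ≠ ⊤ := fun x => ne_top_of_le_ne_top ENNReal.one_ne_top (hfa1 x)
  have hgbT : ∀ x, g x / b ≠ ⊤ := fun x => ne_top_of_le_ne_top ENNReal.one_ne_top (hgb1 x)
  have hhT : ∀ x, min (h x / c) 1 ≠ ⊤ := fun x =>
    ne_top_of_le_ne_top ENNReal.one_ne_top (min_le_right _ _)
  have key := pl_norm h0 h1 (f := fun x => (f x / a).toReal) (g := fun x => (g x / b).toReal)
    (h := fun x => (min (h x / c) 1).toReal) ((hf.div_const a).ennreal_toReal)
    ((hg.div_const b).ennreal_toReal) (((hh.div_const c).min measurable_const).ennreal_toReal)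
    (fun x => ENNReal.toReal_nonneg) (fun x => ENNReal.toReal_nonneg) (fun x => ENNReal.toReal_nonneg)
    (fun x => by simpa using (ENNReal.toReal_le_toReal (hfaT x) ENNReal.one_ne_top).2 (hfa1 x))
    (fun x => by simpa using (ENNReal.toReal_le_toReal (hgbT x) ENNReal.one_ne_top).2 (hgb1 x))
    ?_ ?_ ?_
  · have e1 : ∀ x, ENNReal.ofReal (f x / a).toReal = f x / a := fun x => ENNReal.ofReal_toReal (hfaT x)
    have e2 : ∀ x, ENNReal.ofReal (g x / b).toReal = g x / b := fun x => ENNReal.ofReal_toReal (hgbT x)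
    have e3 : ∀ x, ENNReal.ofReal (min (h x / c) 1).toReal = min (h x / c) 1 :=
      fun x => ENNReal.ofReal_toReal (hhT x)
    simp only [e1, e2, e3] at key
    have k1 : ∫⁻ x, f x / a = (∫⁻ x, f x) / a := by
      simp only [div_eq_mul_inv]
      rw [lintegral_mul_const _ hf]
    have k2 : ∫⁻ x, g x / b = (∫⁻ x, g x) / b := by
      simp only [div_eq_mul_inv]
      rw [lintegral_mul_const _ hg]
    have k3 : ∫⁻ x, min (h x / c) 1 ≤ (∫⁻ x, h x) / c := by
      calc ∫⁻ x, min (h x / c) 1 ≤ ∫⁻ x, h x / c := lintegral_mono fun x => min_le_left _ _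
        _ = (∫⁻ x, h x) / c := by
          simp only [div_eq_mul_inv]
          rw [lintegral_mul_const _ hh]
    rw [k1, k2] at key
    have k4 := (amgm h0 h1 _ _).trans (key.trans k3)
    rw [ENNReal.div_rpow_of_nonneg _ _ h1'.le, ENNReal.div_rpow_of_nonneg _ _ h0.le] at k4
    rw [ENNReal.le_div_iff_mul_le (Or.inl hc0) (Or.inl hcT)] at k4
    refine le_trans (le_of_eq ?_) k4
    rw [hc, div_eq_mul_inv, div_eq_mul_inv]
    have ca : (a ^ (1 - lam))⁻¹ * a ^ (1 - lam) = 1 := ENNReal.inv_mul_cancel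
      (ENNReal.rpow_pos (pos_iff_ne_zero.2 ha0) haM).ne' (ENNReal.rpow_ne_top_of_nonneg h1'.le haM)
    have cb : (b ^ lam)⁻¹ * b ^ lam = 1 := ENNReal.inv_mul_cancel
      (ENNReal.rpow_pos (pos_iff_ne_zero.2 hb0) hbM).ne' (ENNReal.rpow_ne_top_of_nonneg h0.le hbM)
    calc (∫⁻ x, f x) ^ (1 - lam) * (∫⁻ x, g x) ^ lam
        = (∫⁻ x, f x) ^ (1 - lam) * (∫⁻ x, g x) ^ lam * (((a ^ (1 - lam))⁻¹ * a ^ (1 - lam)) *
          ((b ^ lam)⁻¹ * b ^ lam)) := by rw [ca, cb]; simp
      _ = _ := by ring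
  · intro t ht
    by_cases ht0 : t < 0
    · exact ⟨0, lt_of_lt_of_le ht0 ENNReal.toReal_nonneg⟩
    push Not at ht0
    have : ENNReal.ofReal t * a < a := by
      calc ENNReal.ofReal t * a < 1 * a := by
            rw [ENNReal.mul_lt_mul_iff_left ha0 haM]
            simpa using (ENNReal.ofReal_lt_one.2 ht)
        _ = a := one_mul a
    obtain ⟨x, hx⟩ := lt_iSup_iff.1 (this.trans_le ha.le)
    refine ⟨x, (ENNReal.ofReal_lt_iff_lt_toReal ht0 (hfaT x)).1 ?_⟩
    exact (ENNReal.lt_div_iff_mul_lt (Or.inl ha0) (Or.inl haM)).2 hx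
  · intro t ht
    by_cases ht0 : t < 0
    · exact ⟨0, lt_of_lt_of_le ht0 ENNReal.toReal_nonneg⟩
    push Not at ht0
    have : ENNReal.ofReal t * b < b := by
      calc ENNReal.ofReal t * b < 1 * b := by
            rw [ENNReal.mul_lt_mul_iff_left hb0 hbM]
            simpa using (ENNReal.ofReal_lt_one.2 ht)
        _ = b := one_mul b
    obtain ⟨x, hx⟩ := lt_iSup_iff.1 (this.trans_le hb.le)
    refine ⟨x, (ENNReal.ofReal_lt_iff_lt_toReal ht0 (hgbT x)).1 ?_⟩
    exact (ENNReal.lt_div_iff_mul_lt (Or.inl hb0) (Or.inl hbM)).2 hx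
  · intro t ht x y hx hy
    have hx' := (ENNReal.ofReal_lt_iff_lt_toReal ht.le (hfaT x)).2 hx
    have hy' := (ENNReal.ofReal_lt_iff_lt_toReal ht.le (hgbT y)).2 hy
    refine (ENNReal.ofReal_lt_iff_lt_toReal ht.le (hhT _)).1 ?_
    have ht1 : ENNReal.ofReal t < 1 := hx'.trans_le (hfa1 x)
    refine lt_min ?_ ht1
    have ht0' : ENNReal.ofReal t ≠ 0 := by simpa using ht
    have e : ENNReal.ofReal t = ENNReal.ofReal t ^ (1 - lam) * ENNReal.ofReal t ^ lam := by
      rw [← ENNReal.rpow_add _ _ ht0' ENNReal.ofReal_ne_top]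
      simp
    rw [e]
    calc ENNReal.ofReal t ^ (1 - lam) * ENNReal.ofReal t ^ lam
        < (f x / a) ^ (1 - lam) * (g y / b) ^ lam :=
          ENNReal.mul_lt_mul (ENNReal.rpow_lt_rpow hx' h1') (ENNReal.rpow_lt_rpow hy' h0)
      _ = (f x ^ (1 - lam) * g y ^ lam) / c := by
          rw [ENNReal.div_rpow_of_nonneg _ _ h1'.le, ENNReal.div_rpow_of_nonneg _ _ h0.le, hc,
            div_eq_mul_inv, div_eq_mul_inv, div_eq_mul_inv, ENNReal.mul_inv]
          · ring
          · exact Or.inl (ENNReal.rpow_pos (pos_iff_ne_zero.2 ha0) haM).ne'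
          · exact Or.inl (ENNReal.rpow_ne_top_of_nonneg h1'.le haM)
      _ ≤ h ((1 - lam) * x + lam * y) / c := ENNReal.div_le_div_right (hle x y) c

theorem symm_cons {m : ℕ} (p : ℝ × (Fin m → ℝ)) :
    (MeasurableEquiv.piFinSuccAbove (fun _ : Fin (m + 1) => ℝ) 0).symm p =
      (Fin.cons p.1 p.2 : Fin (m + 1) → ℝ) := by
  ext i
  refine Fin.cases ?_ (fun j => ?_) i <;> simp [MeasurableEquiv.piFinSuccAbove]

theorem lintegral_succ {m : ℕ} {f : (Fin (m + 1) → ℝ) → ℝ≥0∞} (hf : Measurable f) :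
    ∫⁻ x, f x = ∫⁻ s : ℝ, ∫⁻ y : Fin m → ℝ, f (Fin.cons s y) := by
  have hvp := (volume_preserving_piFinSuccAbove (fun _ : Fin (m + 1) => ℝ) 0).symm
  rw [← hvp.lintegral_comp hf]
  rw [Measure.volume_eq_prod, lintegral_prod _ (by fun_prop)]
  simp only [symm_cons]

end Pool.Agent.Lib.MP_a34d76_pr.Quad.PL

namespace Pool.Agent.Lib.MP_a34d76_pr.Quad

/-- Prekopa-Leindler for bounded functions with bounded support -/
theorem pl (m : ℕ) {lam : ℝ} (h0 : 0 < lam) (h1 : lam < 1) {f g h : (Fin m → ℝ) → ℝ≥0∞}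
    (hf : Measurable f) (hg : Measurable g) (hh : Measurable h) {M : ℝ≥0∞} (hM : M ≠ ⊤)
    (hfM : ∀ x, f x ≤ M) (hgM : ∀ x, g x ≤ M) {K : ℝ} (hfK : ∀ x, f x ≠ 0 → ∀ i, |x i| ≤ K)
    (hgK : ∀ x, g x ≠ 0 → ∀ i, |x i| ≤ K)
    (hle : ∀ x y, f x ^ (1 - lam) * g y ^ lam ≤ h ((1 - lam) • x + lam • y)) :
    (∫⁻ x, f x) ^ (1 - lam) * (∫⁻ x, g x) ^ lam ≤ ∫⁻ x, h x := by
  induction m with
  | zero =>
    rw [lintegral_unique, lintegral_unique, lintegral_unique]
    have hv : volume (univ : Set (Fin 0 → ℝ)) = 1 := by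
      rw [volume_pi, Measure.pi_of_empty]; simp
    rw [hv, mul_one, mul_one, mul_one]
    refine (hle _ _).trans (le_of_eq ?_)
    congr 1
    exact Subsingleton.elim _ _
  | succ m ih =>
    rw [PL.lintegral_succ hf, PL.lintegral_succ hg, PL.lintegral_succ hh]
    have mc : Measurable fun p : ℝ × (Fin m → ℝ) => (Fin.cons p.1 p.2 : Fin (m + 1) → ℝ) := by
      have h := (MeasurableEquiv.piFinSuccAbove (fun _ : Fin (m + 1) => ℝ) 0).symm.measurable
      rwa [show (⇑(MeasurableEquiv.piFinSuccAbove (fun _ : Fin (m + 1) => ℝ) 0).symm) =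
        fun p : ℝ × (Fin m → ℝ) => (Fin.cons p.1 p.2 : Fin (m + 1) → ℝ) from funext PL.symm_cons] at h
    have mcs : ∀ s : ℝ, Measurable fun y : Fin m → ℝ => (Fin.cons s y : Fin (m + 1) → ℝ) := fun s =>
      mc.comp (measurable_const.prodMk measurable_id)
    have hbd : ∀ (f : (Fin (m + 1) → ℝ) → ℝ≥0∞), (∀ x, f x ≤ M) → (∀ x, f x ≠ 0 → ∀ i, |x i| ≤ K) →
        ∀ s, ∫⁻ y : Fin m → ℝ, f (Fin.cons s y) ≤ M * volume (Set.pi univ fun _ : Fin m => Icc (-K) K) := by
      intro f hfM hfK s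
      have hms : MeasurableSet (Set.pi univ fun _ : Fin m => Icc (-K) K) :=
        MeasurableSet.univ_pi fun _ => measurableSet_Icc
      calc ∫⁻ y : Fin m → ℝ, f (Fin.cons s y)
          ≤ ∫⁻ y : Fin m → ℝ, (Set.pi univ fun _ : Fin m => Icc (-K) K).indicator (fun _ => M) y := by
            refine lintegral_mono fun y => ?_
            by_cases hy : y ∈ (Set.pi univ fun _ : Fin m => Icc (-K) K)
            · simp only [Set.indicator_of_mem hy]; exact hfM _
            · simp only [Set.indicator_of_notMem hy]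
              by_contra hne
              apply hy
              intro i _
              have := hfK (Fin.cons s y) (by simpa using hne) i.succ
              simp only [Fin.cons_succ] at this
              exact abs_le.1 this
        _ = M * volume (Set.pi univ fun _ : Fin m => Icc (-K) K) := by
            rw [lintegral_indicator hms]; simp
    refine PL.pl_one h0 h1 (M := M * volume (Set.pi univ fun _ : Fin m => Icc (-K) K)) ?_ ?_ ?_ ?_
      (hbd f hfM hfK) (hbd g hgM hgK) ?_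
    · exact Measurable.lintegral_prod_right' (f := fun p : ℝ × (Fin m → ℝ) => f (Fin.cons p.1 p.2)) (hf.comp mc)
    · exact Measurable.lintegral_prod_right' (f := fun p : ℝ × (Fin m → ℝ) => g (Fin.cons p.1 p.2)) (hg.comp mc)
    · exact Measurable.lintegral_prod_right' (f := fun p : ℝ × (Fin m → ℝ) => h (Fin.cons p.1 p.2)) (hh.comp mc)
    · apply ENNReal.mul_ne_top hM
      rw [volume_pi_pi]
      exact ENNReal.prod_ne_top fun i _ => by simp
    · intro s t
      refine ih (f := fun y => f (Fin.cons s y)) (g := fun y => g (Fin.cons t y))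
        (h := fun y => h (Fin.cons ((1 - lam) * s + lam * t) y)) (hf.comp (mcs s)) (hg.comp (mcs t))
        (hh.comp (mcs _)) (fun y => hfM _) (fun y => hgM _) ?_ ?_ ?_
      · intro y hy i
        have := hfK _ hy i.succ
        simpa using this
      · intro y hy i
        have := hgK _ hy i.succ
        simpa using this
      · intro x y
        refine (hle _ _).trans (le_of_eq ?_)
        congr 1
        ext i
        refine Fin.cases ?_ (fun j => ?_) i
        · simp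
        · simp

end Pool.Agent.Lib.MP_a34d76_pr.Quad
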