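import Pool.Agent.Lib.MP_a34d76_pr.Quad.Defs

/-!
# PLANE: a generic two dimensional space of functionals

`S` a symmetric compact convex set.  There is a two dimensional space `L` of functionals such that
every maximiser over `S` of a nonzero functional in `L` lies in a face of dimension at most one.
-/

set_option autoImplicit false

open MeasureTheory Filter Topology Set Module
open scoped NNReal ENNReal

namespace Pool.Agent.Lib.MP_a34d76_pr.Quad

namespace Plane

variable {F : Type*} [NormedAddCommGroup F] [InnerProductSpace ℝ F]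

/-- `θ` is in the normal cone of `S` at `x ∈ S` -/
def Nrm (S : Set F) (θ x : F) : Prop := x ∈ S ∧ ∀ y ∈ S, inner ℝ θ y ≤ inner ℝ θ x

/-- the bad functionals -/
def Bad (S : Set F) : Set F := {θ | ∃ x, Nrm S θ x ∧ ¬ LowDim S x 1}

theorem nrm_smul {S : Set F} {θ x : F} (h : Nrm S θ x) {c : ℝ} (hc : 0 ≤ c) : Nrm S (c • θ) x := by
  refine ⟨h.1, fun y hy => ?_⟩
  rw [real_inner_smul_left, real_inner_smul_left]
  exact mul_le_mul_of_nonneg_left (h.2 y hy) hc

theorem nrm_neg {S : Set F} (hsymm : ∀ x ∈ S, -x ∈ S) {θ x : F} (h : Nrm S θ x) :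
    Nrm S (-θ) (-x) := by
  refine ⟨hsymm x h.1, fun y hy => ?_⟩
  have h1 := h.2 (-y) (hsymm y hy)
  rw [inner_neg_neg, inner_neg_left]
  rw [inner_neg_right] at h1
  exact h1

theorem lowDim_neg {S : Set F} (hsymm : ∀ x ∈ S, -x ∈ S) {x : F} {r : ℕ} (h : LowDim S (-x) r) :
    LowDim S x r := by
  obtain ⟨W, hW, hv⟩ := h
  refine ⟨W, hW, fun v h1 h2 => ?_⟩
  have h3 := hsymm _ h1
  have h4 := hsymm _ h2
  refine hv v ?_ ?_
  · have : -x + v = -(x - v) := by abel
    rw [this]; exact h4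
  · have : -x - v = -(x + v) := by abel
    rw [this]; exact h3

theorem bad_smul {S : Set F} (hsymm : ∀ x ∈ S, -x ∈ S) {θ : F} (h : θ ∈ Bad S) (c : ℝ) :
    c • θ ∈ Bad S := by
  obtain ⟨x, hx, hl⟩ := h
  rcases le_total 0 c with hc | hc
  · exact ⟨x, nrm_smul hx hc, hl⟩
  · refine ⟨-x, ?_, fun h' => hl (lowDim_neg hsymm h')⟩
    have : c • θ = -((-c) • θ) := by simp
    rw [this]
    exact nrm_neg hsymm (nrm_smul hx (by linarith))

/-- the directions of the face of `x` -/
def Dir (S : Set F) (x : F) : Set F := {v | ∃ ε : ℝ, 0 < ε ∧ x + ε • v ∈ S ∧ x - ε • v ∈ S}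

theorem mem_smaller {S : Set F} (hS : Convex ℝ S) {x : F} (hx : x ∈ S) {v : F} {ε : ℝ}
    (h1 : x + ε • v ∈ S) (h2 : x - ε • v ∈ S) {s : ℝ} (hs : |s| ≤ ε) :
    x + s • v ∈ S := by
  rcases eq_or_lt_of_le (le_trans (abs_nonneg s) hs) with h0 | h0
  · have : s = 0 := by
      rw [← h0] at hs
      exact abs_eq_zero.1 (le_antisymm hs (abs_nonneg s))
    simpa [this] using hx
  · have hs' := abs_le.1 hs
    have ha : 0 ≤ (1 + s / ε) / 2 := by
      have : -1 ≤ s / ε := by rw [le_div_iff₀ h0]; linarith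
      linarith
    have hb : 0 ≤ (1 - s / ε) / 2 := by
      have : s / ε ≤ 1 := by rw [div_le_iff₀ h0]; linarith
      linarith
    have hc := hS h1 h2 ha hb (by ring)
    have : ((1 + s / ε) / 2) • (x + ε • v) + ((1 - s / ε) / 2) • (x - ε • v) = x + s • v := by
      rw [smul_add, smul_sub, smul_smul, smul_smul]
      have e1 : (1 + s / ε) / 2 * ε = (ε + s) / 2 := by field_simp
      have e2 : (1 - s / ε) / 2 * ε = (ε - s) / 2 := by field_simp
      rw [e1, e2]
      module
    rwa [this] at hc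

theorem mem_two {S : Set F} (hS : Convex ℝ S) {x : F} (hx : x ∈ S) {v w : F} {ε : ℝ}
    (h1 : x + ε • v ∈ S) (h2 : x - ε • v ∈ S) (h3 : x + ε • w ∈ S) (h4 : x - ε • w ∈ S)
    {s t : ℝ} (hs : |s| ≤ ε / 2) (ht : |t| ≤ ε / 2) : x + (s • v + t • w) ∈ S := by
  have hs' : |2 * s| ≤ ε := by rw [abs_mul, abs_two]; linarith
  have ht' : |2 * t| ≤ ε := by rw [abs_mul, abs_two]; linarith
  have e1 := mem_smaller hS hx h1 h2 hs'
  have e2 := mem_smaller hS hx h3 h4 ht'
  have := hS e1 e2 (a := 1 / 2) (b := 1 / 2) (by norm_num) (by norm_num) (by norm_num)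
  have e : (1 / 2 : ℝ) • (x + (2 * s) • v) + (1 / 2 : ℝ) • (x + (2 * t) • w)
      = x + (s • v + t • w) := by
    module
  rwa [e] at this

/-- `Dir` as a subspace -/
def dirSub (S : Set F) (hS : Convex ℝ S) (x : F) (hx : x ∈ S) : Submodule ℝ F where
  carrier := Dir S x
  zero_mem' := ⟨1, one_pos, by simpa using hx, by simpa using hx⟩
  add_mem' := by
    rintro v w ⟨ε, h0, h1, h2⟩ ⟨δ, k0, k1, k2⟩
    have hm : 0 < min ε δ := lt_min h0 k0
    have a1 : x + (min ε δ) • v ∈ S :=
      mem_smaller hS hx h1 h2 (by rw [abs_of_pos hm]; exact min_le_left _ _)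
    have a2 : x - (min ε δ) • v ∈ S := by
      have := mem_smaller hS hx h1 h2 (s := -(min ε δ))
        (by rw [abs_neg, abs_of_pos hm]; exact min_le_left _ _)
      rwa [neg_smul, ← sub_eq_add_neg] at this
    have a3 : x + (min ε δ) • w ∈ S :=
      mem_smaller hS hx k1 k2 (by rw [abs_of_pos hm]; exact min_le_right _ _)
    have a4 : x - (min ε δ) • w ∈ S := by
      have := mem_smaller hS hx k1 k2 (s := -(min ε δ))
        (by rw [abs_neg, abs_of_pos hm]; exact min_le_right _ _)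
      rwa [neg_smul, ← sub_eq_add_neg] at this
    refine ⟨min ε δ / 2, by positivity, ?_, ?_⟩
    · have := mem_two hS hx a1 a2 a3 a4 (s := min ε δ / 2) (t := min ε δ / 2)
        (by rw [abs_of_pos (by positivity)]) (by rw [abs_of_pos (by positivity)])
      rwa [← smul_add] at this
    · have := mem_two hS hx a1 a2 a3 a4 (s := -(min ε δ / 2)) (t := -(min ε δ / 2))
        (by rw [abs_neg, abs_of_pos (by positivity)]) (by rw [abs_neg, abs_of_pos (by positivity)])
      rwa [← smul_add, neg_smul, ← sub_eq_add_neg] at this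
  smul_mem' := by
    rintro c v ⟨ε, h0, h1, h2⟩
    have hd : 0 < |c| + 1 := by positivity
    have hle : |ε / (|c| + 1) * c| ≤ ε := by
      rw [abs_mul, abs_of_pos (div_pos h0 hd), div_mul_eq_mul_div, div_le_iff₀ hd]
      nlinarith [abs_nonneg c]
    refine ⟨ε / (|c| + 1), div_pos h0 hd, ?_, ?_⟩
    · rw [smul_smul]
      exact mem_smaller hS hx h1 h2 hle
    · rw [smul_smul]
      have := mem_smaller hS hx h1 h2 (s := -(ε / (|c| + 1) * c)) (by rw [abs_neg]; exact hle)
      rwa [neg_smul, ← sub_eq_add_neg] at this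

/-- `θ` vanishes on the directions of the face of a maximiser -/
theorem inner_dir {S : Set F} {θ x v : F} (h : Nrm S θ x) (hv : v ∈ Dir S x) :
    inner ℝ θ v = 0 := by
  obtain ⟨ε, h0, h1, h2⟩ := hv
  have e1 := h.2 _ h1
  have e2 := h.2 _ h2
  rw [inner_add_right, real_inner_smul_right] at e1
  rw [inner_sub_right, real_inner_smul_right] at e2
  have e3 : ε * inner ℝ θ v = 0 := by linarith
  rcases mul_eq_zero.1 e3 with h | h
  · exact absurd h h0.ne'
  · exact h

/-- the map `x + θ ↦ θ` does not increase distances -/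
theorem dist_le {S : Set F} {θ x θ' x' : F} (h : Nrm S θ x) (h' : Nrm S θ' x') :
    ‖θ - θ'‖ ≤ ‖(x + θ) - (x' + θ')‖ := by
  have e1 := h.2 _ h'.1
  have e2 := h'.2 _ h.1
  have e : (x + θ) - (x' + θ') = (x - x') + (θ - θ') := by abel
  have h3 : 0 ≤ inner ℝ (x - x') (θ - θ') := by
    rw [inner_sub_left, inner_sub_right, inner_sub_right, real_inner_comm θ x,
      real_inner_comm θ' x, real_inner_comm θ x', real_inner_comm θ' x']
    linarith
  have h4 := norm_add_sq_real (x - x') (θ - θ')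
  rw [← e] at h4
  have h5 : ‖θ - θ'‖ ^ 2 ≤ ‖(x + θ) - (x' + θ')‖ ^ 2 := by
    nlinarith [sq_nonneg ‖x - x'‖]
  exact le_of_sq_le_sq h5 (norm_nonneg _)

/-- sums of points and normals -/
def Sums (S : Set F) : Set F := {u | ∃ x θ, Nrm S θ x ∧ u = x + θ}

open Classical in
/-- the normal part -/
noncomputable def npart (S : Set F) (u : F) : F :=
  if h : u ∈ Sums S then h.choose_spec.choose else 0

theorem npart_eq {S : Set F} {θ x : F} (h : Nrm S θ x) : npart S (x + θ) = θ := by
  have hm : x + θ ∈ Sums S := ⟨x, θ, h, rfl⟩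
  have hs := hm.choose_spec.choose_spec
  have hd := dist_le hs.1 h
  rw [← hs.2, sub_self, norm_zero] at hd
  have := norm_eq_zero.1 (le_antisymm hd (norm_nonneg _))
  unfold npart
  rw [dif_pos hm]
  exact sub_eq_zero.1 this

theorem npart_lip (S : Set F) : LipschitzOnWith 1 (npart S) (Sums S) := by
  rw [lipschitzOnWith_iff_norm_sub_le]
  rintro u ⟨x, θ, h, rfl⟩ u' ⟨x', θ', h', rfl⟩
  rw [npart_eq h, npart_eq h']
  simpa using dist_le h h'

variable [FiniteDimensional ℝ F]

/-- the affine subspaces of codimension two -/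
def Aff (b : Basis (Fin (finrank ℝ F)) ℝ F) (i j : Fin (finrank ℝ F)) (q : ℚ × ℚ) : Set F :=
  {u | b.repr u i = (q.1 : ℝ) ∧ b.repr u j = (q.2 : ℝ)}

theorem dimH_aff (b : Basis (Fin (finrank ℝ F)) ℝ F) {i j : Fin (finrank ℝ F)} (hij : i ≠ j)
    (q : ℚ × ℚ) : dimH (Aff b i j q) ≤ ((finrank ℝ F - 2 : ℕ) : ℝ≥0∞) := by
  rcases (Aff b i j q).eq_empty_or_nonempty with he | hne
  · rw [he, dimH_empty]; exact bot_le
  have hconv : Convex ℝ (Aff b i j q) := by
    rintro u hu v hv s t hs ht hst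
    refine ⟨?_, ?_⟩
    · simp only [map_add, map_smul, Finsupp.add_apply, Finsupp.smul_apply, smul_eq_mul]
      rw [hu.1, hv.1, ← add_mul, hst, one_mul]
    · simp only [map_add, map_smul, Finsupp.add_apply, Finsupp.smul_apply, smul_eq_mul]
      rw [hu.2, hv.2, ← add_mul, hst, one_mul]
  rw [Real.Convex.dimH_eq_finrank_vectorSpan hconv hne]
  let T : F →ₗ[ℝ] ℝ × ℝ := (b.coord i).prod (b.coord j)
  have hT : Function.Surjective T := by
    rintro ⟨r, s⟩
    refine ⟨r • b i + s • b j, ?_⟩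
    simp [T, Finsupp.single_apply, hij, hij.symm]
  have hle : vectorSpan ℝ (Aff b i j q) ≤ LinearMap.ker T := by
    rw [vectorSpan, Submodule.span_le]
    rintro _ ⟨u, hu, v, hv, rfl⟩
    have e1 : b.coord i (u - v) = 0 := by
      rw [map_sub, Basis.coord_apply, Basis.coord_apply, hu.1, hv.1, sub_self]
    have e2 : b.coord j (u - v) = 0 := by
      rw [map_sub, Basis.coord_apply, Basis.coord_apply, hu.2, hv.2, sub_self]
    rw [SetLike.mem_coe, LinearMap.mem_ker]
    exact Prod.ext e1 e2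
  have hk := LinearMap.finrank_range_add_finrank_ker T
  rw [LinearMap.range_eq_top.2 hT, finrank_top, finrank_prod, finrank_self] at hk
  have h2 := Submodule.finrank_mono hle
  exact_mod_cast (by omega : finrank ℝ (vectorSpan ℝ (Aff b i j q)) ≤ finrank ℝ F - 2)

/-- two directions in echelon form -/
theorem exists_echelon {D : Submodule ℝ F} (hD : 2 ≤ finrank ℝ D)
    (b : Basis (Fin (finrank ℝ F)) ℝ F) :
    ∃ v ∈ D, ∃ w ∈ D, ∃ i j, i ≠ j ∧ b.repr v i ≠ 0 ∧ b.repr w i = 0 ∧ b.repr w j ≠ 0 := by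
  obtain ⟨v, hv, hv0⟩ : ∃ v ∈ D, v ≠ 0 := by
    apply Submodule.exists_mem_ne_zero_of_ne_bot
    rintro rfl
    simp at hD
  obtain ⟨i, hi⟩ : ∃ i, b.repr v i ≠ 0 := by
    by_contra h
    push Not at h
    exact hv0 (b.ext_elem (fun i => by simpa using h i))
  -- the kernel of the coordinate `i` on `D`
  obtain ⟨w, hw, hw0, hwi⟩ : ∃ w ∈ D, w ≠ 0 ∧ b.repr w i = 0 := by
    by_contra h
    push Not at h
    have hle : D ≤ Submodule.span ℝ {v} := by
      intro u hu
      have hmem : u - (b.repr u i / b.repr v i) • v ∈ D := D.sub_mem hu (D.smul_mem _ hv)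
      by_cases h0 : u - (b.repr u i / b.repr v i) • v = 0
      · rw [sub_eq_zero.1 h0]
        exact Submodule.smul_mem _ _ (Submodule.mem_span_singleton_self v)
      · exfalso
        apply h _ hmem h0
        simp only [map_sub, map_smul, Finsupp.sub_apply, Finsupp.smul_apply, smul_eq_mul]
        field_simp
        ring
    have h1 := Submodule.finrank_mono hle
    rw [finrank_span_singleton hv0] at h1
    omega
  obtain ⟨j, hj⟩ : ∃ j, b.repr w j ≠ 0 := by
    by_contra h
    push Not at h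
    exact hw0 (b.ext_elem (fun i => by simpa using h i))
  refine ⟨v, hv, w, hw, i, j, ?_, hi, hwi, hj⟩
  rintro rfl
  exact hj hwi

theorem exists_small_rat {a v δ : ℝ} (hv : v ≠ 0) (hδ : 0 < δ) :
    ∃ (q : ℚ) (s : ℝ), |s| ≤ δ ∧ a + s * v = q := by
  have hpos : 0 < |v| * δ := mul_pos (abs_pos.2 hv) hδ
  obtain ⟨q, h1, h2⟩ := exists_rat_btwn (show a < a + |v| * δ by linarith)
  refine ⟨q, (q - a) / v, ?_, ?_⟩
  · rw [abs_div, div_le_iff₀ (abs_pos.2 hv), abs_of_pos (by linarith)]
    nlinarith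
  · field_simp
    ring

theorem bad_subset {S : Set F} (hS : Convex ℝ S) (b : Basis (Fin (finrank ℝ F)) ℝ F) :
    Bad S ⊆ ⋃ p : {p : Fin (finrank ℝ F) × Fin (finrank ℝ F) // p.1 ≠ p.2}, ⋃ q : ℚ × ℚ,
      npart S '' (Sums S ∩ Aff b p.1.1 p.1.2 q) := by
  rintro θ ⟨x, hx, hl⟩
  -- the face has dimension at least two
  have hD : 2 ≤ finrank ℝ (dirSub S hS x hx.1) := by
    by_contra h
    push Not at h
    refine hl ⟨dirSub S hS x hx.1, by omega, fun v h1 h2 => ?_⟩
    exact ⟨1, one_pos, by simpa using h1, by simpa using h2⟩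
  obtain ⟨v, ⟨ε, h0, h1, h2⟩, w, ⟨δ, k0, k1, k2⟩, i, j, hij, hvi, hwi, hwj⟩ :=
    exists_echelon hD b
  have hv' : inner ℝ θ v = 0 := inner_dir hx ⟨ε, h0, h1, h2⟩
  have hw' : inner ℝ θ w = 0 := inner_dir hx ⟨δ, k0, k1, k2⟩
  have hm : 0 < min ε δ := lt_min h0 k0
  have a1 : x + (min ε δ) • v ∈ S :=
    mem_smaller hS hx.1 h1 h2 (by rw [abs_of_pos hm]; exact min_le_left _ _)
  have a2 : x - (min ε δ) • v ∈ S := by
    have := mem_smaller hS hx.1 h1 h2 (s := -(min ε δ))
      (by rw [abs_neg, abs_of_pos hm]; exact min_le_left _ _)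
    rwa [neg_smul, ← sub_eq_add_neg] at this
  have a3 : x + (min ε δ) • w ∈ S :=
    mem_smaller hS hx.1 k1 k2 (by rw [abs_of_pos hm]; exact min_le_right _ _)
  have a4 : x - (min ε δ) • w ∈ S := by
    have := mem_smaller hS hx.1 k1 k2 (s := -(min ε δ))
      (by rw [abs_neg, abs_of_pos hm]; exact min_le_right _ _)
    rwa [neg_smul, ← sub_eq_add_neg] at this
  obtain ⟨q1, s, hs, hs'⟩ := exists_small_rat (a := b.repr (x + θ) i) hvi (half_pos hm)
  obtain ⟨q2, t, ht, ht'⟩ := exists_small_rat (a := b.repr (x + θ) j + s * b.repr v j) hwj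
    (half_pos hm)
  have hy : x + (s • v + t • w) ∈ S := mem_two hS hx.1 a1 a2 a3 a4 hs ht
  have hN : Nrm S θ (x + (s • v + t • w)) := by
    refine ⟨hy, fun z hz => ?_⟩
    rw [inner_add_right, inner_add_right, real_inner_smul_right, real_inner_smul_right, hv', hw',
      mul_zero, mul_zero, add_zero, add_zero]
    exact hx.2 z hz
  refine mem_iUnion.2 ⟨⟨(i, j), hij⟩, mem_iUnion.2 ⟨(q1, q2), ?_⟩⟩
  refine ⟨(x + (s • v + t • w)) + θ, ⟨⟨_, _, hN, rfl⟩, ?_, ?_⟩, npart_eq hN⟩
  · simp only [map_add, map_smul, Finsupp.add_apply, Finsupp.smul_apply, smul_eq_mul] at hs' ⊢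
    rw [hwi, mul_zero, add_zero, ← hs']
    ring
  · simp only [map_add, map_smul, Finsupp.add_apply, Finsupp.smul_apply, smul_eq_mul] at ht' ⊢
    rw [← ht']
    ring

theorem dimH_bad {S : Set F} (hS : Convex ℝ S) :
    dimH (Bad S) ≤ ((finrank ℝ F - 2 : ℕ) : ℝ≥0∞) := by
  refine (dimH_mono (bad_subset hS (finBasis ℝ F))).trans ?_
  rw [dimH_iUnion]
  refine iSup_le fun p => ?_
  rw [dimH_iUnion]
  refine iSup_le fun q => ?_
  refine (((npart_lip S).mono inter_subset_left).dimH_image_le).trans ?_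
  exact (dimH_mono inter_subset_right).trans (dimH_aff _ p.2 q)

end Plane

open Plane in
theorem plane {F : Type*} [NormedAddCommGroup F] [InnerProductSpace ℝ F] [FiniteDimensional ℝ F]
    (hF : 2 ≤ Module.finrank ℝ F) {S : Set F} (hS : Convex ℝ S) (hSc : IsCompact S)
    (hsymm : ∀ x ∈ S, -x ∈ S) :
    ∃ L : Submodule ℝ F, Module.finrank ℝ L = 2 ∧ ∀ θ ∈ L, θ ≠ 0 → ∀ x ∈ S,
      (∀ y ∈ S, inner ℝ θ y ≤ inner ℝ θ x) → LowDim S x 1 := by
  have hdim := dimH_bad hS
  -- a nonzero good functional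
  have : Nontrivial F := Module.nontrivial_of_finrank_pos (R := ℝ) (by omega)
  have hd1 : Dense (Bad S)ᶜ := by
    apply dense_compl_of_dimH_lt_finrank
    refine hdim.trans_lt ?_
    exact_mod_cast (by omega : finrank ℝ F - 2 < finrank ℝ F)
  obtain ⟨u, hu0, hub⟩ : ∃ u : F, u ≠ 0 ∧ u ∈ (Bad S)ᶜ := by
    have hne : ({0}ᶜ : Set F).Nonempty := by
      obtain ⟨y, hy⟩ := exists_ne (0 : F)
      exact ⟨y, hy⟩
    obtain ⟨y, hy1, hy2⟩ := hd1.inter_open_nonempty _ isOpen_compl_singleton hne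
    exact ⟨y, hy1, hy2⟩
  -- the orthogonal complement
  set K : Submodule ℝ F := (ℝ ∙ u)ᗮ with hK
  have hKf : finrank ℝ K = finrank ℝ F - 1 := by
    have := Submodule.finrank_add_finrank_orthogonal (ℝ ∙ u)
    rw [finrank_span_singleton hu0, ← hK] at this
    omega
  have hd2 : Dense (K.orthogonalProjectionOnto '' (Bad S))ᶜ := by
    apply dense_compl_of_dimH_lt_finrank
    refine (dimH_orthogonalProjectionOnto_le K (Bad S)).trans_lt (hdim.trans_lt ?_)
    rw [hKf]
    exact_mod_cast (by omega : finrank ℝ F - 2 < finrank ℝ F - 1)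
  have : Nontrivial K := Module.nontrivial_of_finrank_pos (R := ℝ) (by omega)
  obtain ⟨w, hw0, hwb⟩ : ∃ w : K, w ≠ 0 ∧ w ∈ (K.orthogonalProjectionOnto '' (Bad S))ᶜ := by
    have hne : ({0}ᶜ : Set K).Nonempty := by
      obtain ⟨y, hy⟩ := exists_ne (0 : K)
      exact ⟨y, hy⟩
    obtain ⟨y, hy1, hy2⟩ := hd2.inter_open_nonempty _ isOpen_compl_singleton hne
    exact ⟨y, hy1, hy2⟩
  have hw0' : (w : F) ≠ 0 := fun h => hw0 (Subtype.ext h)
  have horth : inner ℝ u (w : F) = 0 := by
    exact Submodule.mem_orthogonal_singleton_iff_inner_right.1 w.2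
  have hPu : K.orthogonalProjectionOnto u = 0 := by
    rw [Submodule.orthogonalProjectionOnto_eq_zero_iff, hK, Submodule.orthogonal_orthogonal]
    exact Submodule.mem_span_singleton_self u
  have hPw : K.orthogonalProjectionOnto (w : F) = w :=
    Submodule.orthogonalProjectionOnto_mem_subspace_eq_self w
  refine ⟨Submodule.span ℝ {u, (w : F)}, ?_, ?_⟩
  · have hli : LinearIndependent ℝ ![u, (w : F)] := by
      rw [LinearIndependent.pair_iff]
      intro s t hst
      have e1 : s = 0 := by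
        have := congrArg (fun z => inner ℝ u z) hst
        simp only [inner_add_right, real_inner_smul_right, horth, mul_zero, add_zero,
          inner_zero_right] at this
        rcases mul_eq_zero.1 this with h | h
        · exact h
        · exact absurd (inner_self_eq_zero.1 h) hu0
      refine ⟨e1, ?_⟩
      rw [e1, zero_smul, zero_add] at hst
      rcases smul_eq_zero.1 hst with h | h
      · exact h
      · exact absurd h hw0'
    have := finrank_span_eq_card hli
    rw [Matrix.range_cons, Matrix.range_cons, Matrix.range_empty, union_empty,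
      singleton_union] at this
    simpa using this
  · intro θ hθ hθ0 x hx hmax
    by_contra hl
    have hbad : θ ∈ Bad S := ⟨x, ⟨hx, hmax⟩, hl⟩
    obtain ⟨a, c, hac⟩ := Submodule.mem_span_pair.1 hθ
    by_cases hc : c = 0
    · rw [hc, zero_smul, add_zero] at hac
      have ha : a ≠ 0 := by
        rintro rfl
        rw [zero_smul] at hac
        exact hθ0 hac.symm
      apply hub
      have := bad_smul hsymm hbad a⁻¹
      rwa [← hac, smul_smul, inv_mul_cancel₀ ha, one_smul] at this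
    · apply hwb
      refine ⟨c⁻¹ • θ, bad_smul hsymm hbad _, ?_⟩
      rw [map_smul, ← hac, map_add, map_smul, map_smul, hPu, hPw, smul_zero, zero_add, smul_smul,
        inv_mul_cancel₀ hc, one_smul]

end Pool.Agent.Lib.MP_a34d76_pr.Quad
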