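import Pool.Agent.Lib.MP_a34d76_pr.Quad.PBaseA

/-!
# Splitting off small pieces (module REMOVE)
-/

set_option autoImplicit false

open MeasureTheory Filter Topology Set
open scoped NNReal ENNReal

namespace Pool.Agent.Lib.MP_a34d76_pr.Quad

variable {d : ℕ} {R : ℝ}

namespace Remove

/-- a continuous function is integrable for a finite measure living on a ball -/
theorem integrable_of_ball {F : Type*} [NormedAddCommGroup F] {μ : Measure (E d)}
    [IsFiniteMeasure μ] (h : ∀ᵐ x ∂μ, x ∈ Metric.closedBall (0 : E d) R) {g : E d → F}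
    (hg : Continuous g) [SecondCountableTopologyEither (E d) F] : Integrable g μ := by
  obtain ⟨C, hC⟩ := (isCompact_closedBall (0 : E d) R).exists_bound_of_continuousOn hg.continuousOn
  refine Integrable.mono' (integrable_const C) hg.aestronglyMeasurable ?_
  filter_upwards [h] with x hx using hC x hx

theorem ff_zero (f : E d → ℝ) (Q : Set (E d)) (z : E d) : FF f Q 0 z = 0 := by
  have h : {t | ∃ x : Fin 0 → E d, (∀ l, x l ∈ Q) ∧ ∑ l, x l = ((0 : ℕ) : ℝ) • z ∧
      t = ∑ l, f (x l)} = {(0 : ℝ)} := by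
    ext t
    simp
  rw [FF, h, csSup_singleton]

/-- if `c • μ ≤ ν` with `c ≠ 0` then almost sure properties of `ν` hold for `μ` -/
theorem ae_of_smul_le {μ ν : Measure (E d)} {c : ℝ≥0∞} (hc : c ≠ 0) (h : c • μ ≤ ν)
    {p : E d → Prop} (hp : ∀ᵐ x ∂ν, p x) : ∀ᵐ x ∂μ, p x := by
  have h1 : (c • μ) {x | ¬ p x} ≤ ν {x | ¬ p x} := h _
  rw [ae_iff] at hp ⊢
  rw [hp, Measure.smul_apply, smul_eq_mul, nonpos_iff_eq_zero, mul_eq_zero] at h1
  exact h1.resolve_left hc

/-- the statement of `remove` with the extra information that the piece lives on the ball -/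
theorem remove_aux {Q : Set (E d)} {f : E d → ℝ} (hf : Continuous f)
    {μs : ProbabilityMeasure (E d)} (hμs : μs ∈ PP d R) (L : List (ℕ × E d))
    (hgood : ∀ p ∈ L, Good R Q f μs p.1 p.2) : ∀ {θ : ℝ}, 0 < θ →
    ∃ ε₀ : ℝ, 0 < ε₀ ∧ ∀ ε ∈ Ioc (0 : ℝ) ε₀, ((L.map Prod.fst).sum : ℝ) * ε < 1 / 2 ∧
      ∃ μ' ∈ PP d R, ∃ Ξ : Measure (E d), IsFiniteMeasure Ξ ∧
        (∀ᵐ x ∂Ξ, x ∈ Metric.closedBall (0 : E d) R) ∧
        (μs : Measure (E d)) = ENNReal.ofReal (1 - ((L.map Prod.fst).sum : ℝ) * ε) •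
          (μ' : Measure (E d)) + ENNReal.ofReal ε • Ξ ∧
        ‖(∫ x, x ∂Ξ) - (L.map (fun p => (p.1 : ℝ) • p.2)).sum‖ ≤ θ ∧
        ∫ x, f x ∂Ξ ≤ (L.map (fun p => FF f Q p.1 p.2)).sum + θ := by
  induction L with
  | nil =>
    intro θ hθ
    refine ⟨1, one_pos, fun ε hε => ⟨by norm_num, μs, hμs, 0, inferInstance, by simp, ?_, ?_, ?_⟩⟩
    · simp
    · simp [hθ.le]
    · simp [hθ.le]
  | cons p L ih =>
    intro θ hθ
    obtain ⟨k, z⟩ := p
    have hgk : Good R Q f μs k z := hgood (k, z) (by simp)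
    obtain ⟨ε₁, hε₁, H⟩ := ih (fun q hq => hgood q (by simp [hq])) (θ := θ / 2) (by positivity)
    set a : ℕ := (L.map Prod.fst).sum with ha
    have hsum : (((k, z) :: L).map Prod.fst).sum = k + a := by simp [ha]
    rw [hsum]
    rcases Nat.eq_zero_or_pos k with hk | hk
    · subst hk
      refine ⟨ε₁, hε₁, fun ε hε => ?_⟩
      obtain ⟨h1, μ', hμ', Ξ, h2, h3, h4, h5, h6⟩ := H ε hε
      refine ⟨by simpa using h1, μ', hμ', Ξ, h2, h3, by simpa using h4, ?_, ?_⟩
      · simp only [List.map_cons, Nat.cast_zero, zero_smul, List.sum_cons, zero_add]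
        linarith
      · simp only [List.map_cons, List.sum_cons, ff_zero, zero_add]
        linarith
    · obtain ⟨t₀, ht₀, ht₀1, G⟩ := hgk (θ / (2 * (k + 1))) (by positivity)
      have hk' : (0 : ℝ) < k := by exact_mod_cast hk
      have ha' : (0 : ℝ) ≤ a := Nat.cast_nonneg a
      refine ⟨min ε₁ (t₀ / (4 * (k + a + 1))), lt_min hε₁ (by positivity), fun ε hε => ?_⟩
      have hε0 : 0 < ε := hε.1
      have hεa : ε ≤ ε₁ := hε.2.trans (min_le_left _ _)
      have hεb : ε ≤ t₀ / (4 * (k + a + 1)) := hε.2.trans (min_le_right _ _)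
      obtain ⟨h1, μ, hμ, Ξ, h2, h3, h4, h5, h6⟩ := H ε ⟨hε0, hεa⟩
      rw [le_div_iff₀ (by positivity)] at hεb
      have hb1 : (k + a : ℝ) * ε ≤ t₀ / 4 := by nlinarith
      have hb2 : (a : ℝ) * ε ≤ t₀ / 4 := by nlinarith
      have hb3 : (k : ℝ) * ε ≤ t₀ / 4 := by nlinarith
      have haε : 0 ≤ (a : ℝ) * ε := by positivity
      have h1' : 1 / 2 < 1 - (a : ℝ) * ε := by linarith
      have ht : (k : ℝ) * ε / (1 - a * ε) ∈ Ioc (0 : ℝ) t₀ := by
        refine ⟨by apply div_pos <;> [positivity; linarith], ?_⟩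
        rw [div_le_iff₀ (by linarith)]
        nlinarith
      have hle : ENNReal.ofReal (1 - (a : ℝ) * ε) • (μ : Measure (E d)) ≤
          (μs : Measure (E d)) := by
        rw [h4]
        exact Measure.le_add_right le_rfl
      obtain ⟨ξ, μ', ⟨hξ, hμ', hsplit⟩, hc, hfξ⟩ := G μ hμ ((a : ℝ) * ε) ⟨haε, by linarith⟩ hle _ ht
      have hξb := pp_ball hξ
      haveI := h2
      refine ⟨?_, μ', hμ', (k : ℝ≥0∞) • (ξ : Measure (E d)) + Ξ, ?_, ?_, ?_, ?_, ?_⟩
      · push_cast
        linarith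
      · haveI : IsFiniteMeasure ((k : ℝ≥0∞) • (ξ : Measure (E d))) :=
          Measure.smul_finite _ (ENNReal.natCast_ne_top k)
        infer_instance
      · rw [ae_add_measure_iff]
        exact ⟨Measure.ae_smul_measure hξb _, h3⟩
      · have e1 : ENNReal.ofReal (1 - (a : ℝ) * ε) * ENNReal.ofReal ((k : ℝ) * ε / (1 - a * ε)) =
            ENNReal.ofReal ε * (k : ℝ≥0∞) := by
          rw [← ENNReal.ofReal_natCast k, ← ENNReal.ofReal_mul (by linarith),
            ← ENNReal.ofReal_mul hε0.le]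
          congr 1
          field_simp
        have e2 : ENNReal.ofReal (1 - (a : ℝ) * ε) *
            ENNReal.ofReal (1 - (k : ℝ) * ε / (1 - a * ε)) =
            ENNReal.ofReal (1 - ((k + a : ℕ) : ℝ) * ε) := by
          rw [← ENNReal.ofReal_mul (by linarith)]
          congr 1
          have : (1 - (a : ℝ) * ε) ≠ 0 := by linarith
          field_simp
          push_cast
          ring
        calc (μs : Measure (E d)) = ENNReal.ofReal (1 - (a : ℝ) * ε) • (μ : Measure (E d)) +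
              ENNReal.ofReal ε • Ξ := h4
          _ = ENNReal.ofReal (1 - (a : ℝ) * ε) •
                (ENNReal.ofReal ((k : ℝ) * ε / (1 - a * ε)) • (ξ : Measure (E d)) +
                ENNReal.ofReal (1 - (k : ℝ) * ε / (1 - a * ε)) • (μ' : Measure (E d))) +
              ENNReal.ofReal ε • Ξ := by rw [← hsplit]
          _ = _ := by
            rw [smul_add, smul_smul, smul_smul, e1, e2, smul_add, smul_smul]
            abel
      · have i1 : Integrable (fun x : E d => x) ((k : ℝ≥0∞) • (ξ : Measure (E d))) :=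
          (integrable_of_ball hξb continuous_id).smul_measure (ENNReal.natCast_ne_top k)
        have i2 : Integrable (fun x : E d => x) Ξ := integrable_of_ball h3 continuous_id
        rw [integral_add_measure i1 i2, integral_smul_measure, ENNReal.toReal_natCast]
        simp only [List.map_cons, List.sum_cons]
        have e : ((k : ℝ) • (∫ x, x ∂(ξ : Measure (E d))) + ∫ x, x ∂Ξ) -
            ((k : ℝ) • z + (L.map (fun p => (p.1 : ℝ) • p.2)).sum) =
            (k : ℝ) • ((∫ x, x ∂(ξ : Measure (E d))) - z) +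
              ((∫ x, x ∂Ξ) - (L.map (fun p => (p.1 : ℝ) • p.2)).sum) := by
          rw [smul_sub]
          abel
        rw [e]
        refine (norm_add_le _ _).trans ?_
        rw [norm_smul, Real.norm_of_nonneg hk'.le]
        have h7 : (k : ℝ) * ‖(∫ x, x ∂(ξ : Measure (E d))) - z‖ ≤ θ / 2 := by
          refine (mul_le_mul_of_nonneg_left hc hk'.le).trans ?_
          rw [mul_div_assoc', div_le_div_iff₀ (by positivity) (by norm_num)]
          nlinarith
        linarith
      · have i1 : Integrable f ((k : ℝ≥0∞) • (ξ : Measure (E d))) :=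
          (integrable_of_ball hξb hf).smul_measure (ENNReal.natCast_ne_top k)
        have i2 : Integrable f Ξ := integrable_of_ball h3 hf
        rw [integral_add_measure i1 i2, integral_smul_measure, ENNReal.toReal_natCast, smul_eq_mul]
        simp only [List.map_cons, List.sum_cons]
        have h7 : θ / (2 * ((k : ℝ) + 1)) ≤ θ / 2 := by
          apply div_le_div_of_nonneg_left hθ.le (by norm_num)
          linarith
        linarith

end Remove

theorem remove {Q : Set (E d)} {f : E d → ℝ} (hf : Continuous f)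
    {μs : ProbabilityMeasure (E d)} (hμs : μs ∈ PP d R) (L : List (ℕ × E d))
    (hgood : ∀ p ∈ L, Good R Q f μs p.1 p.2) {θ : ℝ} (hθ : 0 < θ) :
    ∃ ε₀ : ℝ, 0 < ε₀ ∧ ∀ ε ∈ Ioc (0 : ℝ) ε₀, ((L.map Prod.fst).sum : ℝ) * ε < 1 / 2 ∧
      ∃ μ' ∈ PP d R, ∃ Ξ : Measure (E d), IsFiniteMeasure Ξ ∧
        (μs : Measure (E d)) = ENNReal.ofReal (1 - ((L.map Prod.fst).sum : ℝ) * ε) •
          (μ' : Measure (E d)) + ENNReal.ofReal ε • Ξ ∧
        ‖(∫ x, x ∂Ξ) - (L.map (fun p => (p.1 : ℝ) • p.2)).sum‖ ≤ θ ∧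
        ∫ x, f x ∂Ξ ≤ (L.map (fun p => FF f Q p.1 p.2)).sum + θ := by
  obtain ⟨ε₀, h0, H⟩ := Remove.remove_aux hf hμs L hgood hθ
  refine ⟨ε₀, h0, fun ε hε => ?_⟩
  obtain ⟨h1, μ', hμ', Ξ, h2, _, h4, h5, h6⟩ := H ε hε
  exact ⟨h1, μ', hμ', Ξ, h2, h4, h5, h6⟩

end Pool.Agent.Lib.MP_a34d76_pr.Quad
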