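import Pool.Agent.Lib.MP_a34d76_pr.Quad.Defs
import Pool.Agent.Lib.MP_a34d76_pr.Quad.Plane

set_option autoImplicit false

open MeasureTheory Filter Topology Set
open scoped NNReal ENNReal

namespace Pool.Agent.Lib.MP_a34d76_pr.Quad

namespace Select

variable {F : Type*} [NormedAddCommGroup F] [InnerProductSpace ℝ F]

theorem mem_of_abs_le {G : Set F} (hG : Convex ℝ G) {z v : F} {ε t : ℝ} (hε : 0 < ε)
    (h1 : z + ε • v ∈ G) (h2 : z - ε • v ∈ G) (ht : |t| ≤ ε) : z + t • v ∈ G := by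
  have ht' := abs_le.mp ht
  have := hG h1 h2 (a := (ε + t) / (2 * ε)) (b := (ε - t) / (2 * ε))
    (div_nonneg (by linarith [ht'.1]) (by linarith)) (div_nonneg (by linarith [ht'.2]) (by linarith))
    (by field_simp; ring)
  convert this using 1
  have e1 : z = ((ε + t) / (2 * ε)) • z + ((ε - t) / (2 * ε)) • z := by
    rw [← add_smul]
    have : (ε + t) / (2 * ε) + (ε - t) / (2 * ε) = 1 := by field_simp; ring
    rw [this, one_smul]
  have e2 : t • v = (((ε + t) / (2 * ε)) * ε) • v - (((ε - t) / (2 * ε)) * ε) • v := by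
    rw [← sub_smul]
    congr 1
    field_simp
    ring
  rw [smul_add, smul_sub, smul_smul, smul_smul]
  nth_rewrite 1 [e1]
  rw [e2]
  abel

/-- directions in which one can move both ways inside `G` -/
def dirSub {G : Set F} (hG : Convex ℝ G) {z : F} (hz : z ∈ G) : Submodule ℝ F where
  carrier := {v | ∃ ε : ℝ, 0 < ε ∧ z + ε • v ∈ G ∧ z - ε • v ∈ G}
  zero_mem' := ⟨1, one_pos, by simpa using hz, by simpa using hz⟩
  add_mem' := by
    rintro v w ⟨ε, hε, h1, h2⟩ ⟨δ, hδ, h3, h4⟩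
    have hs : 0 < ε + δ := by linarith
    refine ⟨ε * δ / (ε + δ), by positivity, ?_, ?_⟩
    · have := hG h1 h3 (a := δ / (ε + δ)) (b := ε / (ε + δ)) (by positivity) (by positivity)
        (by field_simp; ring)
      convert this using 1
      have e1 : z = (δ / (ε + δ)) • z + (ε / (ε + δ)) • z := by
        rw [← add_smul]
        have : δ / (ε + δ) + ε / (ε + δ) = 1 := by field_simp; ring
        rw [this, one_smul]
      nth_rewrite 1 [e1]
      rw [smul_add, smul_add, smul_add, smul_smul, smul_smul]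
      have e2 : ε * δ / (ε + δ) = δ / (ε + δ) * ε := by ring
      have e3 : ε * δ / (ε + δ) = ε / (ε + δ) * δ := by ring
      nth_rewrite 1 [e2]
      rw [e3]
      abel
    · have := hG h2 h4 (a := δ / (ε + δ)) (b := ε / (ε + δ)) (by positivity) (by positivity)
        (by field_simp; ring)
      convert this using 1
      have e1 : z = (δ / (ε + δ)) • z + (ε / (ε + δ)) • z := by
        rw [← add_smul]
        have : δ / (ε + δ) + ε / (ε + δ) = 1 := by field_simp; ring
        rw [this, one_smul]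
      nth_rewrite 1 [e1]
      rw [smul_sub, smul_sub, smul_add, smul_smul, smul_smul]
      have e2 : ε * δ / (ε + δ) = δ / (ε + δ) * ε := by ring
      have e3 : ε * δ / (ε + δ) = ε / (ε + δ) * δ := by ring
      nth_rewrite 1 [e2]
      rw [e3]
      abel
  smul_mem' := by
    rintro c v ⟨ε, hε, h1, h2⟩
    have hc : 0 < |c| + 1 := by positivity
    have hb : |ε / (|c| + 1) * c| ≤ ε := by
      rw [abs_mul, abs_of_pos (by positivity : 0 < ε / (|c| + 1))]
      rw [div_mul_eq_mul_div, div_le_iff₀ hc]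
      nlinarith [abs_nonneg c]
    refine ⟨ε / (|c| + 1), by positivity, ?_, ?_⟩
    · rw [smul_smul]
      exact mem_of_abs_le hG hε h1 h2 hb
    · rw [smul_smul]
      have := mem_of_abs_le hG hε h1 h2 (t := -(ε / (|c| + 1) * c)) (by rwa [abs_neg])
      rwa [neg_smul, ← sub_eq_add_neg] at this

theorem mem_dirSub {G : Set F} (hG : Convex ℝ G) {z : F} (hz : z ∈ G) {v : F} :
    v ∈ dirSub hG hz ↔ ∃ ε : ℝ, 0 < ε ∧ z + ε • v ∈ G ∧ z - ε • v ∈ G := Iff.rfl

theorem finrank_dirSub {G : Set F} (hG : Convex ℝ G) {z : F} (hz : z ∈ G) {r : ℕ}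
    (h : ¬ LowDim G z r) : r + 1 ≤ Module.finrank ℝ (dirSub hG hz) := by
  by_contra hc
  exact h ⟨dirSub hG hz, by omega, fun v h1 h2 => ⟨1, one_pos, by simpa using h1, by simpa using h2⟩⟩

/-- if `p + x` and `p - x` both have faces of dimension `> r` then `x` has a face of dimension
`> 1` in the symmetrised set. -/
theorem or_lowDim [FiniteDimensional ℝ F] {r : ℕ} (hr : Module.finrank ℝ F ≤ 2 * r) {G : Set F}
    (hG : Convex ℝ G) {p x : F} (h1 : p + x ∈ G) (h2 : p - x ∈ G)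
    (hx : LowDim {x | p + x ∈ G ∧ p - x ∈ G} x 1) :
    LowDim G (p + x) r ∨ LowDim G (p - x) r := by
  by_contra hc
  push Not at hc
  obtain ⟨W, hW, hWx⟩ := hx
  have d1 := finrank_dirSub hG h1 hc.1
  have d2 := finrank_dirSub hG h2 hc.2
  have hsum := Submodule.finrank_sup_add_finrank_inf_eq (dirSub hG h1) (dirSub hG h2)
  have hsup : Module.finrank ℝ ↥(dirSub hG h1 ⊔ dirSub hG h2) ≤ Module.finrank ℝ F :=
    Submodule.finrank_le _
  have hle : dirSub hG h1 ⊓ dirSub hG h2 ≤ W := by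
    rintro v ⟨hv1, hv2⟩
    obtain ⟨ε, hε, a1, a2⟩ := hv1
    obtain ⟨δ, hδ, b1, b2⟩ := hv2
    have hη : 0 < min ε δ := lt_min hε hδ
    have c1 := mem_of_abs_le hG hε a1 a2 (t := min ε δ) (by rw [abs_of_pos hη]; exact min_le_left _ _)
    have c2 := mem_of_abs_le hG hε a1 a2 (t := -min ε δ)
      (by rw [abs_neg, abs_of_pos hη]; exact min_le_left _ _)
    have c3 := mem_of_abs_le hG hδ b1 b2 (t := min ε δ) (by rw [abs_of_pos hη]; exact min_le_right _ _)
    have c4 := mem_of_abs_le hG hδ b1 b2 (t := -min ε δ)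
      (by rw [abs_neg, abs_of_pos hη]; exact min_le_right _ _)
    have hm : min ε δ • v ∈ W := by
      refine hWx _ ⟨?_, ?_⟩ ⟨?_, ?_⟩
      · rwa [← add_assoc]
      · have : p - (x + min ε δ • v) = p - x + (-min ε δ) • v := by rw [neg_smul]; abel
        rwa [this]
      · have : p + (x - min ε δ • v) = p + x + (-min ε δ) • v := by rw [neg_smul]; abel
        rwa [this]
      · have : p - (x - min ε δ • v) = p - x + min ε δ • v := by abel
        rwa [this]
    exact (Submodule.smul_mem_iff _ hη.ne').mp hm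
  have hfin := Submodule.finrank_mono hle
  omega

end Select

open Select in
theorem select_of_plane {F : Type*} [NormedAddCommGroup F] [InnerProductSpace ℝ F] [FiniteDimensional ℝ F]
    {r : ℕ} (hr : Module.finrank ℝ F ≤ 2 * r) {G : Set F}
    (hG : Convex ℝ G) (hGc : IsCompact G) {p : F} (hp : p ∈ interior G) {Z : Set F}
    (hZ : IsClosed Z) (hZG : ∀ z ∈ G, LowDim G z r → z ∈ Z)
    (hplane : ∃ L : Submodule ℝ F, Module.finrank ℝ L = 2 ∧ ∀ θ ∈ L, θ ≠ 0 →
      ∀ x ∈ {x | p + x ∈ G ∧ p - x ∈ G},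
      (∀ y ∈ {x | p + x ∈ G ∧ p - x ∈ G}, inner ℝ θ y ≤ inner ℝ θ x) →
        LowDim {x | p + x ∈ G ∧ p - x ∈ G} x 1) :
    ∃ x, p + x ∈ G ∧ p - x ∈ G ∧ p + x ∈ Z ∧ p - x ∈ Z := by
  obtain ⟨L, hL2, hL⟩ := hplane
  set S : Set F := {x | p + x ∈ G ∧ p - x ∈ G} with hS
  have hSconv : Convex ℝ S := by
    intro x hx y hy a b ha hb hab
    constructor
    · have := hG hx.1 hy.1 ha hb hab
      convert this using 1
      rw [smul_add, smul_add]
      have : p = a • p + b • p := by rw [← add_smul, hab, one_smul]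
      nth_rewrite 1 [this]
      abel
    · have := hG hx.2 hy.2 ha hb hab
      convert this using 1
      rw [smul_sub, smul_sub]
      have : p = a • p + b • p := by rw [← add_smul, hab, one_smul]
      nth_rewrite 1 [this]
      abel
  have hSclosed : IsClosed S := by
    have h1 : IsClosed ((fun x => p + x) ⁻¹' G) := hGc.isClosed.preimage (by fun_prop)
    have h2 : IsClosed ((fun x => p - x) ⁻¹' G) := hGc.isClosed.preimage (by fun_prop)
    exact h1.inter h2
  have hScomp : IsCompact S := by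
    have h1 : IsCompact ((fun x => x - p) '' G) := hGc.image (by fun_prop)
    refine h1.of_isClosed_subset hSclosed ?_
    intro x hx
    exact ⟨p + x, hx.1, by simp⟩
  have hpG : p ∈ G := interior_subset hp
  have h0S : (0 : F) ∈ S := ⟨by simpa using hpG, by simpa using hpG⟩
  have hSsymm : ∀ x ∈ S, -x ∈ S := by
    intro x hx
    exact ⟨by simpa [sub_eq_add_neg] using hx.2, by simpa [sub_eq_add_neg] using hx.1⟩
  -- the faces
  let face : L → Set F := fun θ => {x | x ∈ S ∧ ∀ y ∈ S, inner ℝ (θ : F) y ≤ inner ℝ (θ : F) x}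
  have hface_ne : ∀ θ : L, (face θ).Nonempty := by
    intro θ
    obtain ⟨x, hx, hmax⟩ := hScomp.exists_isMaxOn ⟨0, h0S⟩
      (f := fun y => inner ℝ (θ : F) y) (by fun_prop)
    exact ⟨x, hx, fun y hy => hmax hy⟩
  have hface_conv : ∀ θ : L, Convex ℝ (face θ) := by
    intro θ x hx y hy a b ha hb hab
    refine ⟨hSconv hx.1 hy.1 ha hb hab, fun w hw => ?_⟩
    rw [inner_add_right, inner_smul_right, inner_smul_right]
    have e1 := hx.2 w hw
    have e2 := hy.2 w hw
    calc inner ℝ (θ : F) w = a * inner ℝ (θ : F) w + b * inner ℝ (θ : F) w := by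
          rw [← add_mul, hab, one_mul]
      _ ≤ a * inner ℝ (θ : F) x + b * inner ℝ (θ : F) y :=
          add_le_add (mul_le_mul_of_nonneg_left e1 ha) (mul_le_mul_of_nonneg_left e2 hb)
  have hor : ∀ θ : L, θ ≠ 0 → ∀ x ∈ face θ, p + x ∈ Z ∨ p - x ∈ Z := by
    intro θ hθ x hx
    have hlow := hL θ θ.2 (by simpa using hθ) x hx.1 hx.2
    rcases or_lowDim hr hG hx.1.1 hx.1.2 hlow with h | h
    · exact Or.inl (hZG _ hx.1.1 h)
    · exact Or.inr (hZG _ hx.1.2 h)
  -- closed sets of functionals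
  have hclosed : ∀ g : F → F, Continuous g →
      IsClosed {θ : L | ‖θ‖ = 1 ∧ ∃ x ∈ face θ, g x ∈ Z} := by
    intro g hg
    have hK : IsCompact ((Metric.sphere (0 : L) 1) ×ˢ S) := (isCompact_sphere 0 1).prod hScomp
    have hC : IsClosed {q : L × F | (∀ y ∈ S, inner ℝ (q.1 : F) y ≤ inner ℝ (q.1 : F) q.2) ∧
        g q.2 ∈ Z} := by
      refine IsClosed.inter ?_ (hZ.preimage (hg.comp continuous_snd))
      have : {q : L × F | ∀ y ∈ S, inner ℝ (q.1 : F) y ≤ inner ℝ (q.1 : F) q.2} =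
          ⋂ y ∈ S, {q : L × F | inner ℝ (q.1 : F) y ≤ inner ℝ (q.1 : F) q.2} := by
        ext q; simp
      change IsClosed {q : L × F | ∀ y ∈ S, inner ℝ (q.1 : F) y ≤ inner ℝ (q.1 : F) q.2}
      rw [this]
      refine isClosed_biInter fun y _ => isClosed_le (by fun_prop) (by fun_prop)
    have hI := ((hK.inter_right hC).image continuous_fst).isClosed
    convert hI using 1
    ext θ
    constructor
    · rintro ⟨h1, x, hx, hgx⟩
      exact ⟨(θ, x), ⟨⟨by simpa using h1, hx.1⟩, hx.2, hgx⟩, rfl⟩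
    · rintro ⟨⟨θ', x⟩, ⟨⟨h1, h2⟩, h3, h4⟩, rfl⟩
      exact ⟨by simpa using h1, x, ⟨h2, h3⟩, h4⟩
  set TA : Set L := {θ : L | ‖θ‖ = 1 ∧ ∃ x ∈ face θ, p + x ∈ Z} with hTA
  set TB : Set L := {θ : L | ‖θ‖ = 1 ∧ ∃ x ∈ face θ, p - x ∈ Z} with hTB
  have hTAc : IsClosed TA := hclosed (fun x => p + x) (by fun_prop)
  have hTBc : IsClosed TB := hclosed (fun x => p - x) (by fun_prop)
  have hcover : Metric.sphere (0 : L) 1 ⊆ TA ∪ TB := by
    intro θ hθ
    have h1 : ‖θ‖ = 1 := by simpa using hθ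
    have hne : θ ≠ 0 := by
      rintro rfl
      simp at h1
    obtain ⟨x, hx⟩ := hface_ne θ
    rcases hor θ hne x hx with h | h
    · exact Or.inl ⟨h1, x, hx, h⟩
    · exact Or.inr ⟨h1, x, hx, h⟩
  have hnegface : ∀ (θ : L) (x : F), x ∈ face θ → -x ∈ face (-θ) := by
    intro θ x hx
    refine ⟨hSsymm x hx.1, fun y hy => ?_⟩
    have := hx.2 (-y) (hSsymm y hy)
    simpa using this
  have hAB : ∀ θ, θ ∈ TA → -θ ∈ TB := by
    rintro θ ⟨h1, x, hx, h⟩
    exact ⟨by simpa using h1, -x, hnegface θ x hx, by simpa using h⟩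
  have hBA : ∀ θ, θ ∈ TB → -θ ∈ TA := by
    rintro θ ⟨h1, x, hx, h⟩
    exact ⟨by simpa using h1, -x, hnegface θ x hx, by simpa [sub_eq_add_neg] using h⟩
  have hrank : 1 < Module.rank ℝ L := by
    rw [← Module.finrank_eq_rank, hL2]
    norm_num
  have hpre : IsPreconnected (Metric.sphere (0 : L) 1) := isPreconnected_sphere hrank 0 1
  have hnontriv : Nontrivial L := by
    apply Module.nontrivial_of_finrank_pos (R := ℝ)
    omega
  obtain ⟨θ₀, hθ₀⟩ : (Metric.sphere (0 : L) 1).Nonempty := NormedSpace.sphere_nonempty.mpr zero_le_one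
  have hsph : ∀ θ : L, ‖θ‖ = 1 → θ ∈ Metric.sphere (0 : L) 1 := fun θ h => by simpa using h
  have hboth : (Metric.sphere (0 : L) 1 ∩ TA).Nonempty ∧ (Metric.sphere (0 : L) 1 ∩ TB).Nonempty := by
    rcases hcover hθ₀ with h | h
    · exact ⟨⟨θ₀, hθ₀, h⟩, ⟨-θ₀, by simpa using hθ₀, hAB _ h⟩⟩
    · exact ⟨⟨-θ₀, by simpa using hθ₀, hBA _ h⟩, ⟨θ₀, hθ₀, h⟩⟩
  obtain ⟨θ, hθs, ⟨hθ1, x₁, hx₁, hx₁Z⟩, ⟨-, x₂, hx₂, hx₂Z⟩⟩ :=
    isPreconnected_closed_iff.mp hpre TA TB hTAc hTBc hcover hboth.1 hboth.2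
  have hne : θ ≠ 0 := by
    rintro rfl
    simp at hθ1
  have hpre2 : IsPreconnected (face θ) := (hface_conv θ).isPreconnected
  obtain ⟨x, hx, hxA, hxB⟩ := isPreconnected_closed_iff.mp hpre2 ((fun x => p + x) ⁻¹' Z)
    ((fun x => p - x) ⁻¹' Z) (hZ.preimage (by fun_prop)) (hZ.preimage (by fun_prop))
    (fun x hx => hor θ hne x hx) ⟨x₁, hx₁, hx₁Z⟩ ⟨x₂, hx₂, hx₂Z⟩
  exact ⟨x, hx.1.1, hx.1.2, hxA, hxB⟩

theorem select {F : Type*} [NormedAddCommGroup F] [InnerProductSpace ℝ F] [FiniteDimensional ℝ F]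
    {r : ℕ} (h2 : 2 ≤ Module.finrank ℝ F) (hr : Module.finrank ℝ F ≤ 2 * r) {G : Set F}
    (hG : Convex ℝ G) (hGc : IsCompact G) {p : F} (hp : p ∈ interior G) {Z : Set F}
    (hZ : IsClosed Z) (hZG : ∀ z ∈ G, LowDim G z r → z ∈ Z) :
    ∃ x, p + x ∈ G ∧ p - x ∈ G ∧ p + x ∈ Z ∧ p - x ∈ Z := by
  refine select_of_plane hr hG hGc hp hZ hZG (plane h2 ?_ ?_ ?_)
  · intro x hx y hy a b ha hb hab
    constructor
    · have := hG hx.1 hy.1 ha hb hab
      convert this using 1
      rw [smul_add, smul_add]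
      have : p = a • p + b • p := by rw [← add_smul, hab, one_smul]
      nth_rewrite 1 [this]
      abel
    · have := hG hx.2 hy.2 ha hb hab
      convert this using 1
      rw [smul_sub, smul_sub]
      have : p = a • p + b • p := by rw [← add_smul, hab, one_smul]
      nth_rewrite 1 [this]
      abel
  · have h1 : IsClosed ((fun x => p + x) ⁻¹' G) := hGc.isClosed.preimage (by fun_prop)
    have h2 : IsClosed ((fun x => p - x) ⁻¹' G) := hGc.isClosed.preimage (by fun_prop)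
    have h3 : IsCompact ((fun x => x - p) '' G) := hGc.image (by fun_prop)
    refine h3.of_isClosed_subset (h1.inter h2) ?_
    intro x hx
    exact ⟨p + x, hx.1, by simp⟩
  · intro x hx
    exact ⟨by simpa [sub_eq_add_neg] using hx.2, by simpa [sub_eq_add_neg] using hx.1⟩

end Pool.Agent.Lib.MP_a34d76_pr.Quad
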