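import Pool.Agent.Lib.MP_a34d76_pr.Quad.Remove
import Pool.Agent.Lib.MP_a34d76_pr.Quad.FF
import Pool.Agent.Lib.MP_a34d76_pr.Quad.PBaseB

/-!
# The variational argument (module VAR)
-/

set_option autoImplicit false

open MeasureTheory Filter Topology Set
open scoped NNReal ENNReal

namespace Pool.Agent.Lib.MP_a34d76_pr.Quad

variable {d : ℕ} {R : ℝ}

namespace Var

theorem integral_mem_submodule {μ : ProbabilityMeasure (E d)} (V : Submodule ℝ (E d))
    (hb : ∀ᵐ x ∂(μ : Measure (E d)), x ∈ Metric.closedBall (0 : E d) R)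
    (hV : ∀ᵐ x ∂(μ : Measure (E d)), x ∈ V) : (∫ x, x ∂(μ : Measure (E d))) ∈ V := by
  have h1 : IsClosed (V : Set (E d)) := V.closed_of_finiteDimensional
  exact V.convex.integral_mem h1 hV (Remove.integrable_of_ball hb continuous_id)

/-- one step of the variation: for every `θ > 0` one has `n M ≤ θ (4 L_f + 1)` -/
theorem var_aux (hR : 0 < R) {V : Submodule ℝ (E d)} {f : E d → ℝ} {Lf : ℝ≥0}
    (hf : LipschitzWith Lf f) {n : ℕ}
    (hfeas : ∀ x : Fin n → E d, (∀ l, x l ∈ (V : Set (E d)) ∩ Metric.closedBall 0 R) →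
      ∑ l, x l = 0 → ∑ l, f (x l) ≤ 0)
    {μs : ProbabilityMeasure (E d)} (hμs : μs ∈ PP d R)
    (hV : ∀ᵐ x ∂(μs : Measure (E d)), x ∈ V) (h0 : ∫ x, x ∂(μs : Measure (E d)) = 0)
    (hmax : ∀ μ ∈ PP d R, (∀ᵐ x ∂(μ : Measure (E d)), x ∈ V) →
      (∫ x, x ∂(μ : Measure (E d)) = 0) →
        ∫ x, f x ∂(μ : Measure (E d)) ≤ ∫ x, f x ∂(μs : Measure (E d)))
    (L : List (ℕ × E d)) (hL : ∀ p ∈ L, p.2 ∈ (V : Set (E d)) ∩ Metric.closedBall 0 R)
    (hgood : ∀ p ∈ L, Good R ((V : Set (E d)) ∩ Metric.closedBall 0 R) f μs p.1 p.2)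
    (hn : (L.map Prod.fst).sum = n)
    (hs : (L.map (fun p => (p.1 : ℝ) • p.2)).sum = 0) {θ : ℝ} (hθ : 0 < θ) :
    (n : ℝ) * ∫ x, f x ∂(μs : Measure (E d)) ≤ θ * (4 * Lf + 1) := by
  set M : ℝ := ∫ x, f x ∂(μs : Measure (E d)) with hM
  have hfc : Continuous f := hf.continuous
  have hVcl : IsClosed (V : Set (E d)) := V.closed_of_finiteDimensional
  have hQ : IsCompact ((V : Set (E d)) ∩ Metric.closedBall 0 R) :=
    (isCompact_closedBall (0 : E d) R).inter_left hVcl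
  have hneg := ff_neg hfc hQ hfeas L hL hn hs
  obtain ⟨ε₀, hε₀, H⟩ := remove (R := R) hfc hμs L hgood hθ
  rw [hn, hs] at H
  set ε : ℝ := min ε₀ (R / (4 * θ)) with hεdef
  have hε : 0 < ε := lt_min hε₀ (by positivity)
  obtain ⟨hnε, μ', hμ', Ξ, hΞfin, hdec, hcΞ, hfΞ⟩ := H ε ⟨hε, min_le_left _ _⟩
  have hεθ : 2 * ε * θ < R := by
    have h1 : ε ≤ R / (4 * θ) := min_le_right _ _
    rw [le_div_iff₀ (by positivity)] at h1
    nlinarith
  have hb := pp_ball hμs
  have hb' := pp_ball hμ'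
  have hw : 1 / 2 < 1 - (n : ℝ) * ε := by linarith
  have hle1 : ENNReal.ofReal (1 - (n : ℝ) * ε) • (μ' : Measure (E d)) ≤ (μs : Measure (E d)) := by
    rw [hdec]
    exact Measure.le_add_right le_rfl
  have hle2 : ENNReal.ofReal ε • Ξ ≤ (μs : Measure (E d)) := by
    rw [hdec]
    exact Measure.le_add_left le_rfl
  have hV' : ∀ᵐ x ∂(μ' : Measure (E d)), x ∈ V :=
    Remove.ae_of_smul_le (by simpa using by linarith) hle1 hV
  have hbΞ : ∀ᵐ x ∂Ξ, x ∈ Metric.closedBall (0 : E d) R :=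
    Remove.ae_of_smul_le (by simpa using hε) hle2 hb
  -- integrals of the decomposition
  have hsplitint : ∀ {F : Type} [NormedAddCommGroup F] [NormedSpace ℝ F]
      [SecondCountableTopologyEither (E d) F] (g : E d → F), Continuous g →
      ∫ x, g x ∂(μs : Measure (E d)) = (1 - (n : ℝ) * ε) • ∫ x, g x ∂(μ' : Measure (E d)) +
        ε • ∫ x, g x ∂Ξ := by
    intro F _ _ _ g hg
    have i1 : Integrable g (ENNReal.ofReal (1 - (n : ℝ) * ε) • (μ' : Measure (E d))) :=
      (Remove.integrable_of_ball hb' hg).smul_measure ENNReal.ofReal_ne_top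
    have i2 : Integrable g (ENNReal.ofReal ε • Ξ) :=
      (Remove.integrable_of_ball hbΞ hg).smul_measure ENNReal.ofReal_ne_top
    rw [hdec, integral_add_measure i1 i2, integral_smul_measure, integral_smul_measure,
      ENNReal.toReal_ofReal (by linarith), ENNReal.toReal_ofReal hε.le]
  have hid := hsplitint (fun x : E d => x) continuous_id
  have hfi := hsplitint f hfc
  rw [h0] at hid
  rw [← hM, smul_eq_mul, smul_eq_mul] at hfi
  set c : E d := ∫ x, x ∂(μ' : Measure (E d)) with hc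
  have hcV : c ∈ V := integral_mem_submodule V hb' hV'
  have hcn : ‖c‖ ≤ 2 * ε * θ := by
    have h1 : (1 - (n : ℝ) * ε) • c = -(ε • ∫ x, x ∂Ξ) := by
      rw [eq_neg_iff_add_eq_zero]
      exact hid.symm
    have h2 : (1 - (n : ℝ) * ε) * ‖c‖ = ε * ‖∫ x, x ∂Ξ‖ := by
      have := congrArg norm h1
      rwa [norm_smul, norm_neg, norm_smul, Real.norm_of_nonneg (by linarith),
        Real.norm_of_nonneg hε.le] at this
    rw [sub_zero] at hcΞ
    have h3 : ε * ‖∫ x, x ∂Ξ‖ ≤ ε * θ := mul_le_mul_of_nonneg_left hcΞ hε.le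
    have h4 : 1 / 2 * ‖c‖ ≤ (1 - (n : ℝ) * ε) * ‖c‖ :=
      mul_le_mul_of_nonneg_right hw.le (norm_nonneg c)
    linarith
  have hcR : ‖c‖ < R := by linarith
  set η : ℝ := ‖c‖ / R with hη
  have hη0 : 0 ≤ η := by positivity
  have hη1 : η < 1 := by rw [hη, div_lt_one hR]; exact hcR
  have hηR : η * R = ‖c‖ := by rw [hη]; field_simp
  have hball : ∀ x ∈ Metric.closedBall (0 : E d) R,
      (1 - η) • x + -((1 - η) • c) ∈ Metric.closedBall (0 : E d) R := by
    intro x hx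
    rw [mem_closedBall_zero_iff] at hx ⊢
    calc ‖(1 - η) • x + -((1 - η) • c)‖ ≤ ‖(1 - η) • x‖ + ‖-((1 - η) • c)‖ := norm_add_le _ _
      _ = (1 - η) * ‖x‖ + (1 - η) * ‖c‖ := by
        rw [norm_neg, norm_smul, norm_smul, Real.norm_of_nonneg (by linarith)]
      _ ≤ (1 - η) * R + (1 - η) * (η * R) := by
        rw [hηR]
        have := mul_le_mul_of_nonneg_left hx (show (0 : ℝ) ≤ 1 - η by linarith)
        linarith
      _ ≤ R := by nlinarith [mul_nonneg hη0 (mul_nonneg hη0 hR.le)]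
  obtain ⟨μ'', hμ'', hmap⟩ := pp_map (show (0 : ℝ) < 1 - η by linarith) hball hμ'
  have hT : Continuous (fun x : E d => (1 - η) • x + -((1 - η) • c)) := by fun_prop
  have hV'' : ∀ᵐ x ∂(μ'' : Measure (E d)), x ∈ V := by
    rw [hmap]
    refine (ae_map_iff (p := fun x : E d => x ∈ V) hT.aemeasurable hVcl.measurableSet).2 ?_
    filter_upwards [hV'] with x hx
    exact V.add_mem (V.smul_mem _ hx) (V.neg_mem (V.smul_mem _ hcV))
  have h0'' : ∫ x, x ∂(μ'' : Measure (E d)) = 0 := by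
    have ix : Integrable (fun x : E d => x) (μ' : Measure (E d)) :=
      Remove.integrable_of_ball hb' continuous_id
    have h1 := integral_map (μ := (μ' : Measure (E d))) (f := fun x : E d => x) hT.aemeasurable
      continuous_id.aestronglyMeasurable
    have i1 : Integrable (fun x : E d => (1 - η) • x) (μ' : Measure (E d)) := ix.smul (1 - η)
    rw [hmap, h1, integral_add i1 (integrable_const _), integral_smul, integral_const]
    simp [← hc]
  have hle := hmax μ'' hμ'' hV'' h0''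
  rw [hmap, integral_map hT.aemeasurable hfc.aestronglyMeasurable] at hle
  -- the integral of `f` changes little
  have hdiff : ∫ x, f x ∂(μ' : Measure (E d)) ≤ M + 2 * Lf * ‖c‖ := by
    have i1 : Integrable (fun x => f ((1 - η) • x + -((1 - η) • c))) (μ' : Measure (E d)) :=
      Remove.integrable_of_ball hb' (hfc.comp hT)
    have i2 : Integrable f (μ' : Measure (E d)) := Remove.integrable_of_ball hb' hfc
    have h1 : ∫ x, f x ∂(μ' : Measure (E d)) ≤
        ∫ x, (f ((1 - η) • x + -((1 - η) • c)) + 2 * Lf * ‖c‖) ∂(μ' : Measure (E d)) := by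
      refine integral_mono_ae i2 (i1.add (integrable_const _)) ?_
      filter_upwards [hb'] with x hx
      rw [mem_closedBall_zero_iff] at hx
      have h2 := hf.dist_le_mul x ((1 - η) • x + -((1 - η) • c))
      rw [Real.dist_eq, dist_eq_norm] at h2
      have h3 : x - ((1 - η) • x + -((1 - η) • c)) = η • x + (1 - η) • c := by
        simp only [sub_smul, one_smul]
        abel
      have h4 : ‖η • x + (1 - η) • c‖ ≤ 2 * ‖c‖ := by
        calc ‖η • x + (1 - η) • c‖ ≤ ‖η • x‖ + ‖(1 - η) • c‖ := norm_add_le _ _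
          _ = η * ‖x‖ + (1 - η) * ‖c‖ := by
            rw [norm_smul, norm_smul, Real.norm_of_nonneg hη0, Real.norm_of_nonneg (by linarith)]
          _ ≤ η * R + 1 * ‖c‖ := by
            have e1 := mul_le_mul_of_nonneg_left hx hη0
            have e2 : (1 - η) * ‖c‖ ≤ 1 * ‖c‖ :=
              mul_le_mul_of_nonneg_right (by linarith) (norm_nonneg c)
            linarith
          _ = 2 * ‖c‖ := by rw [hηR]; ring
      rw [h3] at h2
      have h5 := (le_abs_self _).trans (h2.trans (mul_le_mul_of_nonneg_left h4 Lf.coe_nonneg))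
      linarith
    rw [integral_add i1 (integrable_const _), integral_const] at h1
    simp only [probReal_univ, one_smul] at h1
    linarith
  have hfΞ' : ∫ x, f x ∂Ξ ≤ θ := by linarith
  have e1 : (1 - (n : ℝ) * ε) * ∫ x, f x ∂(μ' : Measure (E d)) ≤
      (1 - (n : ℝ) * ε) * (M + 2 * Lf * ‖c‖) := mul_le_mul_of_nonneg_left hdiff (by linarith)
  have e2 : ε * ∫ x, f x ∂Ξ ≤ ε * θ := mul_le_mul_of_nonneg_left hfΞ' hε.le
  have hLf : (0 : ℝ) ≤ Lf := Lf.coe_nonneg
  have hnε0 : 0 ≤ (n : ℝ) * ε := by positivity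
  have e3 : (1 - (n : ℝ) * ε) * (2 * Lf * ‖c‖) ≤ 1 * (2 * Lf * (2 * ε * θ)) := by
    apply mul_le_mul (by linarith) _ (by positivity) (by norm_num)
    exact mul_le_mul_of_nonneg_left hcn (by positivity)
  have e4 : (n : ℝ) * ε * M ≤ ε * (θ * (4 * Lf + 1)) := by nlinarith
  have e5 : ε * ((n : ℝ) * M) ≤ ε * (θ * (4 * Lf + 1)) := by linarith
  exact le_of_mul_le_mul_left e5 hε

end Var

theorem var (hR : 0 < R) {V : Submodule ℝ (E d)} {f : E d → ℝ} {Lf : ℝ≥0}
    (hf : LipschitzWith Lf f) {n : ℕ} (hn0 : 0 < n)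
    (hfeas : ∀ x : Fin n → E d, (∀ l, x l ∈ (V : Set (E d)) ∩ Metric.closedBall 0 R) →
      ∑ l, x l = 0 → ∑ l, f (x l) ≤ 0)
    {μs : ProbabilityMeasure (E d)} (hμs : μs ∈ PP d R)
    (hV : ∀ᵐ x ∂(μs : Measure (E d)), x ∈ V) (h0 : ∫ x, x ∂(μs : Measure (E d)) = 0)
    (hmax : ∀ μ ∈ PP d R, (∀ᵐ x ∂(μ : Measure (E d)), x ∈ V) →
      (∫ x, x ∂(μ : Measure (E d)) = 0) →
        ∫ x, f x ∂(μ : Measure (E d)) ≤ ∫ x, f x ∂(μs : Measure (E d)))
    (hpos : 0 < ∫ x, f x ∂(μs : Measure (E d)))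
    (L : List (ℕ × E d)) (hL : ∀ p ∈ L, p.2 ∈ (V : Set (E d)) ∩ Metric.closedBall 0 R)
    (hgood : ∀ p ∈ L, Good R ((V : Set (E d)) ∩ Metric.closedBall 0 R) f μs p.1 p.2)
    (hn : (L.map Prod.fst).sum = n)
    (hs : (L.map (fun p => (p.1 : ℝ) • p.2)).sum = 0) : False := by
  have hn' : (0 : ℝ) < n := by exact_mod_cast hn0
  have hLf : (0 : ℝ) ≤ Lf := Lf.coe_nonneg
  set M : ℝ := ∫ x, f x ∂(μs : Measure (E d)) with hM
  have h := Var.var_aux hR hf hfeas hμs hV h0 hmax L hL hgood hn hs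
    (θ := (n : ℝ) * M / (2 * (4 * Lf + 1))) (by positivity)
  rw [← hM] at h
  have h1 : (n : ℝ) * M / (2 * (4 * Lf + 1)) * (4 * Lf + 1) = (n : ℝ) * M / 2 := by
    field_simp
  rw [h1] at h
  have h2 : 0 < (n : ℝ) * M := by positivity
  linarith

end Pool.Agent.Lib.MP_a34d76_pr.Quad
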