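import Pool.Agent.Lib.MP_a34d76_pr.Quad.PBaseA
import Pool.Agent.Lib.MP_a34d76_pr.Quad.PBaseB
import Pool.Agent.Lib.MP_a34d76_pr.Quad.Cap2
import Pool.Agent.Lib.MP_a34d76_pr.Quad.Bary
import Pool.Agent.Lib.MP_a34d76_pr.Quad.Select
import Pool.Agent.Lib.MP_a34d76_pr.Quad.Ext
import Pool.Agent.Lib.MP_a34d76_pr.Quad.DualLip
import Pool.Agent.Lib.MP_a34d76_pr.Quad.FF
import Pool.Agent.Lib.MP_a34d76_pr.Quad.GoodClosed
import Pool.Agent.Lib.MP_a34d76_pr.Quad.Hull
import Pool.Agent.Lib.MP_a34d76_pr.Quad.Maxi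
import Pool.Agent.Lib.MP_a34d76_pr.Quad.GoodLow
import Pool.Agent.Lib.MP_a34d76_pr.Quad.Var
import Pool.Agent.Lib.MP_a34d76_pr.Quad.One

/-!
# The induction step
-/

set_option autoImplicit false

open MeasureTheory Filter Topology Set
open scoped NNReal ENNReal

namespace Pool.Agent.Lib.MP_a34d76_pr.Quad

variable {d : ℕ} {R : ℝ}

namespace Step

theorem kk_double {i : ℕ} (hi : 2 ≤ i) : KK d i = 2 * KK d ((i + 1) / 2) := by
  unfold KK
  have h1 : i ≠ 0 := by omega
  have h2 : (i + 1) / 2 ≠ 0 := by omega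
  rw [if_neg h1, if_neg h2, Nat.clog_of_two_le (by norm_num) hi]
  have h3 : (i + 2 - 1) / 2 = (i + 1) / 2 := by congr 1
  rw [h3, pow_succ]
  ring

theorem kk_mono {i j : ℕ} (h : i ≤ j) : KK d i ≤ KK d j := by
  unfold KK
  by_cases hi : i = 0
  · rw [if_pos hi]
    split_ifs
    · exact le_refl _
    · have : 0 < 2 ^ Nat.clog 2 j * (d + 1) := by positivity
      omega
  · have hj : j ≠ 0 := by omega
    rw [if_neg hi, if_neg hj]
    exact Nat.mul_le_mul_right _ (Nat.pow_le_pow_right (by norm_num) (Nat.clog_mono_right 2 h))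

theorem kk_ge {i : ℕ} (hi : 1 ≤ i) : d + 1 ≤ KK d i := by
  unfold KK
  rw [if_neg (by omega)]
  exact Nat.le_mul_of_pos_left _ (by positivity)

theorem kk_pos (i : ℕ) : 1 ≤ KK d i := by
  rcases Nat.eq_zero_or_pos i with rfl | h
  · simp [KK]
  · exact (Nat.le_add_left 1 d).trans (kk_ge h)

theorem integrable_of_ball {μ : Measure (E d)} [IsFiniteMeasure μ]
    (h : ∀ᵐ x ∂μ, x ∈ Metric.closedBall (0 : E d) R) : Integrable (fun x => x) μ := by
  refine Integrable.of_bound measurable_id.aestronglyMeasurable R ?_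
  filter_upwards [h] with x hx
  simpa using hx

end Step

open Step

theorem tt_step {i : ℕ} (hi : 2 ≤ i) (ih : ∀ j < i, TT d j) : TT d i := by
  intro R μ hμ W z hWi hWz k hk
  by_cases hlt : Module.finrank ℝ W ≤ i - 1
  · exact ih (i - 1) (by omega) R μ hμ W z hlt hWz k ((kk_mono (by omega)).trans hk)
  have hWe : Module.finrank ℝ W = i := by omega
  have hid : i ≤ d := by
    have h1 := Submodule.finrank_le W
    rw [finrank_euclideanSpace_fin] at h1
    omega
  have hk1 : 1 ≤ k := (kk_pos i).trans hk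
  by_contra hcm
  set c : E d := ∫ x, x ∂(μ : Measure (E d)) with hc
  have hint : Integrable (fun x => x) (μ : Measure (E d)) := integrable_of_ball (pp_ball hμ)
  have hcz : c - z ∈ W := by
    have h1 : c - z = ∫ x, (x - z) ∂(μ : Measure (E d)) := by
      rw [integral_sub hint (integrable_const z), integral_const]
      simp [hc]
    rw [h1]
    exact W.convex.integral_mem W.closed_of_finiteDimensional hWz
      (hint.sub (integrable_const z))
  -- recentre
  set R₀ : ℝ := |R| + ‖c‖ + 1 with hR₀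
  have hR₀pos : 0 < R₀ := by positivity
  obtain ⟨μ₀, hμ₀, hμ₀e⟩ := pp_map (R := R) (R' := R₀) (a := 1) one_pos (b := -c) (by
    intro x hx
    rw [mem_closedBall_zero_iff] at hx ⊢
    rw [one_smul]
    have h1 := norm_add_le x (-c)
    rw [norm_neg] at h1
    have h2 := le_abs_self R
    linarith) hμ
  have hmap : Measurable (fun x : E d => (1 : ℝ) • x + -c) := by fun_prop
  have h1 : ∀ᵐ x ∂(μ₀ : Measure (E d)), x ∈ W := by
    rw [hμ₀e]
    refine (ae_map_iff (p := fun y : E d => y ∈ W) hmap.aemeasurable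
      W.closed_of_finiteDimensional.measurableSet).2 ?_
    filter_upwards [hWz] with x hx
    have : (1 : ℝ) • x + -c = (x - z) - (c - z) := by rw [one_smul]; abel
    change (1 : ℝ) • x + -c ∈ W
    rw [this]
    exact W.sub_mem hx hcz
  have h2 : ∫ x, x ∂(μ₀ : Measure (E d)) = 0 := by
    rw [hμ₀e, integral_map (f := fun x : E d => x) hmap.aemeasurable
      measurable_id.aestronglyMeasurable]
    simp only [one_smul]
    rw [integral_add hint (integrable_const _), integral_const]
    simp [hc]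
  have hcm₀ : ¬ CM k (μ₀ : Measure (E d)) := by
    intro h
    apply hcm
    have h3 := cm_map h 1 c
    rw [hμ₀e, Measure.map_map (by fun_prop) hmap] at h3
    have h4 : ((fun x : E d => (1 : ℝ) • x + c) ∘ fun x => (1 : ℝ) • x + -c) = id := by
      funext x
      simp
    rwa [h4, Measure.map_id] at h3
  obtain ⟨f, Lf, hf, hfeas, hpos₀⟩ := dual (by omega) hR₀pos (pp_ball hμ₀) h1 hcm₀
  obtain ⟨μs, hμs, hsW, hs0, hsmax⟩ := maxi hf.continuous hμ₀ h1 h2
  have hpos : 0 < ∫ x, f x ∂(μs : Measure (E d)) := hpos₀.trans_le (hsmax μ₀ hμ₀ h1 h2)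
  set Q : Set (E d) := (W : Set (E d)) ∩ Metric.closedBall 0 R₀ with hQ
  have hQc : IsCompact Q :=
    (isCompact_closedBall (0 : E d) R₀).inter_left W.closed_of_finiteDimensional
  have hsQ : ∀ᵐ x ∂(μs : Measure (E d)), x ∈ Q := by
    filter_upwards [hsW, pp_ball hμs] with x hx hx' using ⟨hx, hx'⟩
  have hcms : ¬ CM k (μs : Measure (E d)) := by
    intro h
    have h3 := ff_cm hf.continuous hQc hk1 (μs : Measure (E d)) hsQ h
    rw [hs0] at h3
    have h4 := ff_neg hf.continuous hQc (n := k) hfeas [(k, 0)] (by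
      intro p hp
      rw [List.mem_singleton] at hp
      rw [hp]
      exact ⟨W.zero_mem, by simp [hR₀pos.le]⟩) (by simp) (by simp)
    simp only [List.map_cons, List.map_nil, List.sum_cons, List.sum_nil, add_zero] at h4
    have h5 : 0 < (k : ℝ) * ∫ x, f x ∂(μs : Measure (E d)) := by positivity
    linarith
  obtain ⟨ρ, hρ, hρG⟩ := hull_interior (pp_ball hμs) hsW hs0 (by
    intro u hu hux
    by_contra hu0
    apply hcms
    refine ih (i - 1) (by omega) R₀ μs hμs (W ⊓ (ℝ ∙ u)ᗮ) 0 ?_ ?_ k
      ((kk_mono (by omega)).trans hk)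
    · have h3 : W ⊓ (ℝ ∙ u)ᗮ < W := by
        refine lt_of_le_of_ne inf_le_left ?_
        intro h4
        have h5 : u ∈ W ⊓ (ℝ ∙ u)ᗮ := by rw [h4]; exact hu
        have h6 := (Submodule.mem_inf.1 h5).2
        rw [Submodule.mem_orthogonal_singleton_iff_inner_right] at h6
        exact hu0 (inner_self_eq_zero.1 h6)
      have := Submodule.finrank_lt_finrank_of_lt h3
      omega
    · filter_upwards [hsW, hux] with x hx hx'
      rw [sub_zero]
      refine Submodule.mem_inf.2 ⟨hx, ?_⟩
      rw [Submodule.mem_orthogonal_singleton_iff_inner_right]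
      exact hx')
  set G : Set (E d) := convexHull ℝ (μs : Measure (E d)).support with hG
  have hGc : IsCompact G := hull_compact (pp_ball hμs)
  have hGQ : G ⊆ Q := hull_subset (W.convex.inter (convex_closedBall _ _)) hQc.isClosed hsQ
  -- the body inside `W`
  set G' : Set W := {v | (v : E d) ∈ G} with hG'
  have hG'conv : Convex ℝ G' := (convex_convexHull ℝ _).linear_preimage W.subtype
  have hG'c : IsCompact G' :=
    (W.closed_of_finiteDimensional.isClosedEmbedding_subtypeVal).isCompact_preimage hGc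
  have hG'0 : (0 : W) ∈ interior G' := by
    rw [mem_interior_iff_mem_nhds, Metric.mem_nhds_iff]
    refine ⟨ρ, hρ, fun v hv => hρG v v.2 ?_⟩
    rw [mem_ball_zero_iff] at hv
    exact hv.le
  set r : ℕ := (i + 1) / 2 with hr
  have hri : r < i := by omega
  set k' : ℕ := k / 2 with hk'
  have hk'r : KK d r ≤ k' := by
    have h3 := kk_double (d := d) hi
    rw [← hr] at h3
    rw [hk']
    omega
  have hk'd : d + 1 ≤ k' := (kk_ge (by omega)).trans hk'r
  -- low-dimensional points are good
  have hlow : ∀ (j m : ℕ), j < i → KK d j ≤ m → ∀ v ∈ G', LowDim G' v j →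
      Good R₀ Q f μs m (v : E d) := by
    intro j m hj hm v hv ⟨W₁, hW₁, hW₁'⟩
    have hfin : Module.finrank ℝ (W₁.map W.subtype) = Module.finrank ℝ W₁ :=
      Submodule.finrank_map_subtype_eq W W₁
    refine good_low hR₀pos hμs hsW hρ hρG (W := W₁.map W.subtype) hv ?_ ?_ hf.continuous
      ((kk_pos j).trans hm) ?_
    · intro hle
      have := Submodule.finrank_mono hle
      omega
    · intro w hw1 hw2
      have hwW : w ∈ W := by
        have h3 : (v : E d) + w ∈ W := (hGQ hw1).1
        have h4 := W.sub_mem h3 v.2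
        simpa using h4
      exact ⟨⟨w, hwW⟩, hW₁' ⟨w, hwW⟩ hw1 hw2, rfl⟩
    · intro ξ hξ hξW
      exact ih j hj R₀ ξ hξ _ _ (hfin.le.trans hW₁) hξW m hm
  -- the extra point
  have hextra : ∃ p ∈ interior G', ∃ Lx : List (ℕ × E d),
      (∀ q ∈ Lx, q.2 ∈ Q ∧ Good R₀ Q f μs q.1 q.2) ∧ (Lx.map Prod.fst).sum = k - 2 * k' ∧
      (Lx.map (fun q => (q.1 : ℝ) • q.2)).sum = -((2 * k' : ℝ) • (p : E d)) := by
    rcases Nat.mod_two_eq_zero_or_one k with he | he
    · refine ⟨0, hG'0, [], by simp, ?_, by simp⟩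
      simp
      omega
    · obtain ⟨u, hu, hu0, hup⟩ := exists_extreme (F := W) (by omega) hG'conv hG'c hG'0
        (m := 2 * k') (by
          rw [hWe]
          have : i < 2 * k' := by omega
          exact_mod_cast this)
      refine ⟨_, hup, [(1, (u : E d))], ?_, ?_, ?_⟩
      · intro q hq
        rw [List.mem_singleton] at hq
        rw [hq]
        exact ⟨hGQ hu, hlow 0 1 (by omega) (by simp [KK]) u hu hu0⟩
      · simp
        omega
      · have h3 : (2 * (k' : ℝ)) ≠ 0 := by
          have : 0 < k' := by omega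
          positivity
        simp only [List.map_cons, List.map_nil, List.sum_cons, List.sum_nil, Nat.cast_one, one_smul,
          add_zero, Submodule.coe_neg, Submodule.coe_smul, smul_neg, neg_neg]
        rw [smul_smul, mul_one_div_cancel h3, one_smul]
  obtain ⟨p, hp, Lx, hLx, hLx1, hLx2⟩ := hextra
  set Z : Set W := {v | (v : E d) ∈ Q ∧ Good R₀ Q f μs k' (v : E d)} with hZ
  have hZc : IsClosed Z :=
    (good_closed (R := R₀) hf.continuous hQc k' μs).preimage continuous_subtype_val
  obtain ⟨x, hx1, hx2, hx3, hx4⟩ := select (F := W) (r := r) (by omega) (by omega) hG'conv hG'c hp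
    hZc (fun v hv hvl => ⟨hGQ hv, hlow r k' hri hk'r v hv hvl⟩)
  refine var hR₀pos hf (n := k) (by omega) hfeas hμs hsW hs0 hsmax hpos
    ((k', ((p + x : W) : E d)) :: (k', ((p - x : W) : E d)) :: Lx) ?_ ?_ ?_ ?_
  · intro q hq
    rw [List.mem_cons, List.mem_cons] at hq
    rcases hq with rfl | rfl | hq
    · exact hx3.1
    · exact hx4.1
    · exact (hLx q hq).1
  · intro q hq
    rw [List.mem_cons, List.mem_cons] at hq
    rcases hq with rfl | rfl | hq
    · exact hx3.2
    · exact hx4.2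
    · exact (hLx q hq).2
  · rw [List.map_cons, List.map_cons, List.sum_cons, List.sum_cons, hLx1]
    simp only
    omega
  · rw [List.map_cons, List.map_cons, List.sum_cons, List.sum_cons, hLx2]
    simp only [Submodule.coe_add, Submodule.coe_sub]
    module

theorem tt_all (hd : 2 ≤ d) (i : ℕ) : TT d i := by
  induction i using Nat.strong_induction_on with
  | _ i ih =>
    rcases Nat.lt_or_ge i 2 with h | h
    · interval_cases i
      · exact tt_zero d
      · exact tt_one hd
    · exact tt_step h ih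

/-- the main theorem for `EuclideanSpace` -/
theorem main (hd : 2 ≤ d) {C : Set (E d)} (hC : Convex ℝ C) (h0 : volume C ≠ 0)
    (h1 : volume C ≠ ⊤) {n : ℕ} (hn : 2 ^ Nat.clog 2 d * (d + 1) ≤ n) : CM n (unif C) := by
  obtain ⟨R, -, μ, hμ, hμe⟩ := pp_unif hC h0 h1
  rw [← hμe]
  refine tt_all hd d R μ hμ ⊤ 0 ?_ (by simp) n ?_
  · rw [finrank_top, finrank_euclideanSpace_fin]
  · unfold KK
    rw [if_neg (by omega)]
    exact hn

end Pool.Agent.Lib.MP_a34d76_pr.Quad
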